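import Pool.Agent.Lib.MP_05cdf2_gt.K.Gfp
import Pool.Agent.Lib.MP_05cdf2_gt.G.Symp
import Pool.Agent.Lib.MP_05cdf2_gt.G.Moves

/-! MP_05cdf2_gt, stream P (helper61): pushes of the boundary component along simple loops. Definitions.

`zn x w` is the multiplier of the push along the simple loop `x` at the germ `w` (`x` corrected by a power of the
boundary loop, according to the position of `w` with respect to the two germs `x`, `x⁻¹` of the loop); the push
along `x` is given by `w ↦ zn x w * w * (zn x w⁻¹)⁻¹` for the `w` which are unlinked with `x`. -/

set_option autoImplicit false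

namespace TorP
open TorM

variable {g : ℕ}

/-- the multiplier of the push along `x` at the germ `w` -/
noncomputable def zn (x w : F g) : F g :=
  if x < x⁻¹ then
    (if w < x then x * (zeta g)⁻¹ else if x⁻¹ < w then (zeta g)⁻¹ * x else x)
  else (if w < x⁻¹ then zeta g * x else if x < w then x * zeta g else x)

/-- the value of the push along `x` at `w` -/
noncomputable def fm (x w : F g) : F g := zn x w * w * (zn x w⁻¹)⁻¹

/-- the endomorphism `P` is given at `w` by the formula of the push along `x` -/
def Good (x : F g) (P : F g →* F g) (w : F g) : Prop := P w = fm x w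

/-- simple and non trivial -/
structure Smp (x : F g) : Prop where
  /-- non trivial -/
  ne : x ≠ 1
  /-- simple -/
  un : U x x

/-- the normal closure of the boundary loop -/
def Rz (g : ℕ) : Subgroup (F g) := Subgroup.normalClosure {zeta g}

instance : (Rz g).Normal := Subgroup.normalClosure_normal

/-- the boundary twist: conjugation by the boundary loop -/
def cz (g : ℕ) : Gam g := ⟨MulAut.conj (zeta g), by
  show MulAut.conj (zeta g) (zeta g) = zeta g
  simp⟩

theorem cz_apply (x : F g) : ((cz g : Gam g) : MulAut (F g)) x = zeta g * x * (zeta g)⁻¹ := rfl

/-- the elements between all the positive powers and all the negative powers of `x` -/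
def Gap (x : F g) : Set (F g) := {w | ∀ n : ℕ, x ^ n < w ∧ w < (x ^ (n + 1))⁻¹}

/-- a spanning set of a finite kind: filling -/
def Fil (s : Finset (F g)) : Prop := Subgroup.closure (s : Set (F g)) = ⊤

end TorP
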