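import Pool.Agent.Lib.MP_05cdf2_gt.P.PDef

/-! MP_05cdf2_gt, job P.PF. Flows of filling systems.

Tools (K/Step.lean, K/Surg.lean, K/Basis.lean, K/Reps.lean): `pr`, `st`, `exists_first`, `st_eq`, `isFirst_of_le`,
`surgery`, `closure_st`, `mu_st`, `U_of_pr_top`, `exists_basis`, `ub_of_basis`.

`flow_to`: strong induction on `mu B s`. If `pr B s = ⊤` take `s' = s` (`U_of_pr_top`). Otherwise let
`X = s ∪ Y` (as a set) and let `(k, u, w)` be the first crossing of `s` with the target list (`exists_first`). No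
chord of `Y` crosses an element of `B`: if `Ch Y u' w'`, `1 < u' < B[j] < w'` then (`U_iff_ch` or directly) the lift
`{u', w'}` of an element of `Y` crosses `{1, B[j]}`, against `hYB`. So `IsFirst X B[k] u w` (prove it directly from
`pr_le`, `enc_le` for chords of `s`; `isFirst_of_le` is for chords all of which come from finite sets `s'` with
`pr B s ≤ pr B s'`: for a chord of `Y` take `s' = Y`, `pr B Y = ⊤` as `Y` has no crossing), and
`surgery` gives `Sys (insert u (insert w X))`. The set `st B s = cut s u w` (`st_eq`) is contained in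
`insert u (insert w s)`; it is filling (`closure_st`), `Sys (s ∪ st B s ∪ Y)`, so `hstep` gives `Q (st B s)`;
`mu B (st B s) < mu B s` (`mu_st`): induction.

`exists_ub_of`: `exists_basis` and `ub_of_basis`: a filling finite system contains an unlinked basis.

`exists_ub`: flow of `B0 g` (`sys_B0`, `closure_B0`) towards `B = Y.toList`, with empty `Y`, `Q = fun _ => True`,
then `exists_ub_of`. -/

set_option autoImplicit false

namespace TorP
open TorM

variable {g : ℕ}

theorem PF_first {Y : Finset (F g)} {B : List (F g)} (hYB : ∀ y ∈ Y, ∀ τ ∈ B, U y τ)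
    {s : Finset (F g)} {k : ℕ} {u w : F g} (hk : k < B.length)
    (hpr : pr B s = (enc k u w : WithTop (Pr g))) (h1 : 1 < u) (h2 : u < B[k]) (h3 : B[k] < w)
    (h4 : Ch (s : Set (F g)) u w) : IsFirst ((s : Set (F g)) ∪ Y) B[k] u w := by
  refine ⟨h1, h2, h3, h4.mono Set.subset_union_left, ?_⟩
  intro u' w' g1 g2 g3 hc
  have hcr := step_cr g1 g2 g3
  have hcase : Ch (s : Set (F g)) u' w' → u < u' ∨ (u = u' ∧ w' ≤ w) := by
    intro hs'
    have h5 := pr_le hk g1 g2 g3 hs'
    rw [hpr] at h5
    exact enc_le.mp h5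
  rcases hc with (hc | hc) | (hc | hc)
  · exact hcase (Or.inl hc)
  · exfalso
    refine (hYB _ hc B[k] (List.getElem_mem hk)).symm u' ?_
    rw [mul_inv_cancel_left]
    exact hcr
  · exact hcase (Or.inr hc)
  · exfalso
    refine (hYB _ hc B[k] (List.getElem_mem hk)).symm w' ?_
    rw [mul_inv_cancel_left]
    exact cr_swap2.mp hcr

theorem flow_to (Y : Finset (F g)) (B : List (F g)) (hB : Sys {τ | τ ∈ B})
    (hYB : ∀ y ∈ Y, ∀ τ ∈ B, U y τ) (Q : Finset (F g) → Prop)
    (hstep : ∀ s s' : Finset (F g), Fil s → Fil s' → Sys ((s : Set (F g)) ∪ s' ∪ Y) → Q s → Q s')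
    (s : Finset (F g)) (hs : Fil s) (hsY : Sys ((s : Set (F g)) ∪ Y)) (hQ : Q s) :
    ∃ s' : Finset (F g), Fil s' ∧ Sys ((s' : Set (F g)) ∪ Y) ∧ Q s' ∧ ∀ τ ∈ B, ∀ a ∈ s', U τ a := by
  obtain ⟨n, hn⟩ : ∃ n, mu B s = n := ⟨_, rfl⟩
  induction n using Nat.strong_induction_on generalizing s with
  | _ n ih =>
    by_cases htop : pr B s = ⊤
    · exact ⟨s, hs, hsY, hQ, U_of_pr_top htop⟩
    · have hmu := mu_st hB htop
      obtain ⟨k, u, w, hk, hpr, h1, h2, h3, h4⟩ := exists_first htop
      have hfirst := PF_first hYB hk hpr h1 h2 h3 h4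
      have hU : U B[k] B[k] := hB _ (List.getElem_mem hk) _ (List.getElem_mem hk)
      have hsys := surgery hsY hU hfirst
      have hsub : ∀ a ∈ st B s, a = u ∨ a = w ∨ a ∈ s := by
        intro a ha
        rw [st_eq hpr] at ha
        unfold cut at ha
        rw [Finset.mem_insert, Finset.mem_insert, Finset.mem_filter] at ha
        rcases ha with ha | ha | ha
        · exact Or.inl ha
        · exact Or.inr (Or.inl ha)
        · exact Or.inr (Or.inr ha.1)
      have hsys2 : Sys ((s : Set (F g)) ∪ st B s ∪ Y) := by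
        refine Sys.mono ?_ hsys
        rintro a ((ha | ha) | ha)
        · exact Or.inr (Or.inr (Or.inl ha))
        · rcases hsub a ha with h | h | h
          · exact Or.inl h
          · exact Or.inr (Or.inl h)
          · exact Or.inr (Or.inr (Or.inl h))
        · exact Or.inr (Or.inr (Or.inr ha))
      have hfil : Fil (st B s) := closure_st hs
      have hQ' : Q (st B s) := hstep s (st B s) hs hfil hsys2 hQ
      refine ih (mu B (st B s)) (hn ▸ hmu) (st B s) hfil ?_ hQ' rfl
      refine Sys.mono ?_ hsys2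
      rintro a (ha | ha)
      · exact Or.inl (Or.inr ha)
      · exact Or.inr ha

theorem exists_ub_of {s : Finset (F g)} (hs : Fil s) (h : Sys (s : Set (F g))) :
    ∃ e : Fin (2 * g) → F g, UB e ∧ ∀ i, e i ∈ s := by
  obtain ⟨t, hts, htc, hti⟩ := exists_basis h hs
  obtain ⟨e, he, her⟩ := ub_of_basis (h.mono (Finset.coe_subset.mpr hts)) htc hti
  refine ⟨e, he, fun i => hts ?_⟩
  have h1 : e i ∈ Set.range e := ⟨i, rfl⟩
  rw [her] at h1
  exact h1

theorem fil_of_ub {n : ℕ} {e : Fin n → F g} (he : UB e) :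
    Fil (Finset.univ.image e) := by
  unfold Fil
  rw [Finset.coe_image, Finset.coe_univ, Set.image_univ, ← FreeGroup.range_lift_eq_closure,
    MonoidHom.range_eq_top]
  exact he.bij.2

theorem exists_ub (Y : Finset (F g)) (hY : Sys (Y : Set (F g))) :
    ∃ e : Fin (2 * g) → F g, UB e ∧ ∀ y ∈ Y, ∀ i, U y (e i) := by
  have hB : Sys {τ : F g | τ ∈ Y.toList} := by
    refine Sys.mono ?_ hY
    intro a ha
    exact Finset.mem_coe.mpr (Finset.mem_toList.mp ha)
  obtain ⟨s, hs, hsys, -, hU⟩ := flow_to (∅ : Finset (F g)) Y.toList hB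
    (fun y hy => absurd hy (Finset.notMem_empty y)) (fun _ => True) (fun _ _ _ _ _ _ => trivial)
    (B0 g) closure_B0 (by
      refine Sys.mono ?_ (sys_B0 (g := g))
      rintro a (ha | ha)
      · exact ha
      · exact absurd ha (Finset.notMem_empty a)) trivial
  obtain ⟨e, he, hes⟩ := exists_ub_of hs (hsys.mono Set.subset_union_left)
  exact ⟨e, he, fun y hy i => hU y (Finset.mem_toList.mpr hy) _ (hes i)⟩

end TorP
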