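import Pool.Agent.Lib.MP_05cdf2_gt.P.PDef

/-! MP_05cdf2_gt, job P.PV. The fundamental polygon of an unlinked basis.

`e` is an unlinked basis, `w` the reduced word with value `ζ`; the vertices of the polygon are `X j = nbr_val e w j`,
`j = 0, ..., k = w.length`; `1 = X 0 < ζ = X k < X (k-1) < ... < X 1` (`verts`), the sides are the chords
`{X j, X (j+1)}` of `e` and the boundary side `{1, ζ}`. See K/Nbr.lean: `nbr_val`, `verts`, `nbr_val_inj`,
`nbr_val_ch`, `nbr_val_succ`, `nbr_core`, `nbr_finite` (the proof of `pol_mem` is contained in the proof of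
`nbr_finite`). -/

set_option autoImplicit false

namespace TorP
open TorM

variable {g : ℕ}

/-- the polygon of an unlinked basis -/
structure Pol {n : ℕ} (e : Fin n → F g) (w : List (Fin n × Bool)) : Prop where
  /-- unlinked basis -/
  ub : UB e
  /-- reduced -/
  red : FreeGroup.IsReduced w
  /-- value `ζ` -/
  val : (w.map (ev e)).prod = zeta g
  /-- positive genus -/
  pos : 0 < g

variable {n : ℕ} {e : Fin n → F g} {w : List (Fin n × Bool)}

/-- as in the proof of `nbr_finite` -/
theorem exists_pol (hg : 0 < g) (he : UB e) : ∃ w, Pol e w := by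
  obtain ⟨u, hu⟩ := he.bij.2 (zeta g)
  have hw : FreeGroup.IsReduced u.toWord := FreeGroup.isReduced_toWord
  have hz : (u.toWord.map (ev e)).prod = zeta g := by
    rw [← lift_mk_eq, FreeGroup.mk_toWord, hu]
  exact ⟨u.toWord, he, hw, hz, hg⟩

theorem Pol.len (h : Pol e w) : 2 ≤ w.length := (verts h.ub h.red h.val h.pos).1

/-- the vertices, in decreasing order -/
theorem Pol.lt (h : Pol e w) {i j : ℕ} (hi : 1 ≤ i) (hij : i < j) (hj : j ≤ w.length) :
    nbr_val e w j < nbr_val e w i := (verts h.ub h.red h.val h.pos).2 i j hi hij hj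

theorem Pol.last (h : Pol e w) : nbr_val e w w.length = zeta g := by
  unfold nbr_val
  rw [List.take_length, h.val]

theorem Pol.inj (h : Pol e w) {i j : ℕ} (hi : i ≤ w.length) (hj : j ≤ w.length)
    (hij : nbr_val e w i = nbr_val e w j) : i = j := nbr_val_inj h.ub h.red hi hj hij

theorem Pol.one_lt (h : Pol e w) {i : ℕ} (h1 : 1 ≤ i) (h2 : i ≤ w.length) : 1 < nbr_val e w i := by
  refine TorM.one_lt fun h3 => ?_
  rw [← nbr_val_zero e w] at h3
  have := h.inj h2 (by omega) h3
  omega

theorem PV_lt_iff (h : Pol e w) {i j : ℕ} (hi : i ≤ w.length) (hj : j ≤ w.length) :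
    nbr_val e w i < nbr_val e w j ↔ (i = 0 ∧ 0 < j) ∨ (0 < j ∧ j < i) := by
  rcases Nat.eq_zero_or_pos i with hi0 | hi0
  · subst hi0
    rw [nbr_val_zero]
    rcases Nat.eq_zero_or_pos j with hj0 | hj0
    · subst hj0
      rw [nbr_val_zero]
      constructor
      · intro h1
        exact absurd h1 (lt_irrefl _)
      · intro h1
        omega
    · exact ⟨fun _ => Or.inl ⟨rfl, hj0⟩, fun _ => h.one_lt hj0 hj⟩
  · rcases Nat.eq_zero_or_pos j with hj0 | hj0
    · subst hj0
      constructor
      · intro h1
        rw [nbr_val_zero] at h1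
        exact absurd (h.one_lt hi0 hi) (lt_asymm h1)
      · intro h1
        omega
    · rcases lt_trichotomy i j with hij | hij | hij
      · constructor
        · intro h1
          exact absurd (h.lt hi0 hij hj) (lt_asymm h1)
        · intro h1
          omega
      · subst hij
        constructor
        · intro h1
          exact absurd h1 (lt_irrefl _)
        · intro h1
          omega
      · exact ⟨fun _ => Or.inr ⟨hj0, hij⟩, fun _ => h.lt hj0 hij hi⟩

theorem PV_cyc_iff (h : Pol e w) {i j l : ℕ} (hi : i ≤ w.length) (hj : j ≤ w.length)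
    (hl : l ≤ w.length) :
    Cyc (nbr_val e w i) (nbr_val e w j) (nbr_val e w l) ↔
      (l < j ∧ j < i) ∨ (j < i ∧ i < l) ∨ (i < l ∧ l < j) := by
  unfold Cyc
  rw [PV_lt_iff h hi hj, PV_lt_iff h hj hl, PV_lt_iff h hl hi]
  omega

/-- the crossing of two diagonals: the vertices are in the circular order `X k, X (k-1), ..., X 1, X 0` -/
theorem Pol.cr_iff (h : Pol e w) {a b c d : ℕ} (hab : a < b) (hb : b ≤ w.length) (hc : c ≤ w.length)
    (hd : d ≤ w.length) :
    Cr (nbr_val e w a) (nbr_val e w b) (nbr_val e w c) (nbr_val e w d) ↔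
      (a < c ∧ c < b ∧ (d < a ∨ b < d)) ∨ (a < d ∧ d < b ∧ (c < a ∨ b < c)) := by
  have ha : a ≤ w.length := by omega
  unfold Cr
  rw [PV_cyc_iff h ha hc hb, PV_cyc_iff h hb hd ha, PV_cyc_iff h ha hd hb, PV_cyc_iff h hb hc ha]
  omega

theorem PV_nocr (h : Pol e w) {b : F g} (hb : ∀ l, U (e l) b) (x p q : F g)
    (hpq : Ch (Set.range e) p q) : ¬ Cr x (x * b) p q := by
  revert x p q
  rw [← U_iff_ch]
  rintro _ ⟨i, rfl⟩
  exact (hb i).symm

/-- a point which is not a vertex lies in the open arc of a side -/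
theorem PV_arc (h : Pol e w) {p : F g} (hp : ∀ m, m ≤ w.length → p ≠ nbr_val e w m) :
    ∃ m, m < w.length ∧ Cyc (nbr_val e w (m + 1)) p (nbr_val e w m) := by
  have hk := h.len
  have hz : nbr_val e w w.length < p := by
    have h1 := hp 0 (by omega)
    rw [nbr_val_zero] at h1
    have h2 := zeta_le h1
    rw [← h.last] at h2
    exact lt_of_le_of_ne h2 (hp _ le_rfl).symm
  by_cases hz1 : nbr_val e w 1 < p
  · refine ⟨0, by omega, ?_⟩
    rw [zero_add]
    have h3 := (PV_lt_iff h (i := 0) (j := 1) (by omega) (by omega)).2 (Or.inl ⟨rfl, by omega⟩)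
    exact Or.inr (Or.inr ⟨h3, hz1⟩)
  · have hz1' : p < nbr_val e w 1 := lt_of_le_of_ne (not_lt.mp hz1) (hp 1 (by omega))
    have hex : ∃ i, 1 ≤ i ∧ i < w.length ∧ nbr_val e w (i + 1) < p ∧ p < nbr_val e w i := by
      by_contra hcon
      push Not at hcon
      have : ∀ i, 1 ≤ i → i ≤ w.length → p < nbr_val e w i := by
        intro i hi
        induction i, hi using Nat.le_induction with
        | base => exact fun _ => hz1'
        | succ i hi ih =>
          intro hik
          have h3 := ih (by omega)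
          by_contra h4
          have h5 : nbr_val e w (i + 1) < p := lt_of_le_of_ne (not_lt.mp h4) (hp (i + 1) hik).symm
          exact absurd (hcon i hi (by omega) h5) (not_le.mpr h3)
      exact lt_asymm hz (this w.length (by omega) le_rfl)
    obtain ⟨i, -, hik, hi2, hi3⟩ := hex
    exact ⟨i, hik, Or.inl ⟨hi2, hi3⟩⟩

theorem PV_side {α : Type} [LinearOrder α] {A B I J p q : α} (h1 : Cyc B p A) (h2 : ¬ Cr p q A B)
    (h3 : ¬ Cyc B I A) (h4 : ¬ Cyc B J A) : ¬ Cr I J p q := by
  unfold Cr Cyc at *
  grind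

theorem PV_vert (h : Pol e w) {i j : ℕ} (hi : i ≤ w.length) (hj : j ≤ w.length) {p b : F g}
    (hb : ∀ l, U (e l) b) (hc : Cr (nbr_val e w i) (nbr_val e w j) p (p * b)) :
    ∃ m, m ≤ w.length ∧ p = nbr_val e w m := by
  by_contra hcon
  push Not at hcon
  obtain ⟨m, hm, harc⟩ := PV_arc h hcon
  refine PV_side harc (PV_nocr h hb p _ _ (nbr_val_ch e w hm)) ?_ ?_ hc
  · rw [PV_cyc_iff h (by omega) hi (by omega)]
    omega
  · rw [PV_cyc_iff h (by omega) hj (by omega)]
    omega

/-- a chord unlinked with `e` which crosses a chord joining two vertices joins two vertices.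
Suppose that `p` is not a vertex. As there is no point between `1` and `ζ`, and `1` is the smallest point, `p` lies in
one of the open arcs `(X (m+1), X m)`, `1 ≤ m < k`, or it is `> X 1`, i.e. in the arc from `X 1` to `X 0`. In all
cases `p` lies in the open arc cut off by a side `{X m, X (m+1)}`, which is a chord of `e` (`nbr_val_ch`), so `p * b`
lies in the closed arc, and the closed arc lies on one side of `{X i, X j}`: no crossing. The same for `p * b`. -/
theorem Pol.vert (h : Pol e w) {i j : ℕ} (hi : i ≤ w.length) (hj : j ≤ w.length) {p b : F g}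
    (hb : ∀ l, U (e l) b) (hc : Cr (nbr_val e w i) (nbr_val e w j) p (p * b)) :
    (∃ m, m ≤ w.length ∧ p = nbr_val e w m) ∧ ∃ m, m ≤ w.length ∧ p * b = nbr_val e w m := by
  refine ⟨PV_vert h hi hj hb hc, ?_⟩
  refine PV_vert h hi hj (b := b⁻¹) (fun l => (hb l).inv_right) ?_
  rw [mul_inv_cancel_right]
  exact cr_swap2.mpr hc

/-- an element unlinked with `e` is a diagonal of the polygon: contained in the proof of `nbr_finite` -/
theorem Pol.mem (h : Pol e w) {b : F g} (hb : ∀ l, U (e l) b) :
    ∃ i j, i ≤ w.length ∧ j ≤ w.length ∧ nbr_val e w j * b = nbr_val e w i := by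
  have he := h.ub
  have hw := h.red
  have hz := h.val
  have hg := h.pos
  obtain ⟨hk, hvert⟩ := verts he hw hz hg
  change ∀ i j : ℕ, 1 ≤ i → i < j → j ≤ w.length → nbr_val e w j < nbr_val e w i at hvert
  have hzk : nbr_val e w w.length = zeta g := h.last
  have hone : ∀ i, 1 ≤ i → i ≤ w.length → nbr_val e w 0 < nbr_val e w i := by
    intro i h1 h2
    rw [nbr_val_zero]
    exact h.one_lt h1 h2
  have hb1 : ∀ x p q : F g, Ch (Set.range e) p q → ¬ Cr x (x * b) p q := PV_nocr h hb
  by_cases hbone : b = 1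
  · exact ⟨0, 0, by omega, by omega, by rw [hbone, mul_one]⟩
  by_contra hnot
  have hne : ∀ j, j ≤ w.length → ∀ i, i ≤ w.length → nbr_val e w j * b ≠ nbr_val e w i :=
    fun j hj i hi h1 => hnot ⟨i, j, hi, hj, h1⟩
  have hzlt : ∀ j, j ≤ w.length → nbr_val e w w.length < nbr_val e w j * b := by
    intro j hj
    have h1 := hne j hj 0 (by omega)
    rw [nbr_val_zero] at h1
    have h2 := zeta_le h1
    rw [← hzk] at h2
    exact lt_of_le_of_ne h2 (hne j hj _ le_rfl).symm
  have hfirst : nbr_val e w 1 = ev e w[0] := by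
    have := nbr_val_succ e w (j := 0) (by omega)
    rw [nbr_val_zero, one_mul] at this
    exact this
  by_cases hA : ∀ l, b < ev e l
  · refine nbr_core (nbr_val e w) w.length hk hone hvert (nbr_val e w 0 * b)
      (hzlt 0 (by omega)) (fun i hi => hne 0 (by omega) i hi) 0 (by omega)
      (fun h => absurd h (by omega)) (fun _ => ?_)
      (fun i hi => hb1 _ _ _ (nbr_val_ch e w hi))
    rw [zero_add, hfirst, nbr_val_zero, one_mul]
    left
    exact ⟨TorM.one_lt hbone, hA _⟩
  · push Not at hA
    obtain ⟨l, hl⟩ := hA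
    obtain ⟨c, hc, hmax⟩ := Finset.exists_max_image
      (Finset.univ.filter fun l : Fin n × Bool => ev e l ≤ b) (ev e) ⟨l, by simpa using hl⟩
    have hc' : ev e c ≤ b := (Finset.mem_filter.mp hc).2
    obtain ⟨i, t⟩ := c
    have hmem : (i, !t) ∈ w := all_letters he hw hz hg _
    have hinv : (ev e (i, !t))⁻¹ = ev e (i, t) := by
      rw [nbr_ev_not, Bool.not_not]
    obtain ⟨w₁, w₂, hsplit⟩ := List.append_of_mem hmem
    have hlen : w.length = w₁.length + 1 + w₂.length := by
      rw [hsplit, List.length_append, List.length_cons]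
      ring
    have hget : w[w₁.length]'(by omega) = (i, !t) := by
      subst hsplit
      simp
    have hprev : nbr_val e w (w₁.length + 1) * ev e (i, t) = nbr_val e w w₁.length := by
      rw [nbr_val_succ e w (by omega), hget, ← hinv, mul_inv_cancel_right]
    have hcne : ev e (i, t) ≠ b := by
      intro h
      rw [h] at hprev
      exact hne _ (by omega) _ (by omega) hprev
    have hclt : ev e (i, t) < b := lt_of_le_of_ne hc' hcne
    have hc1 : 1 < ev e (i, t) := by
      refine TorM.one_lt fun h => ?_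
      rw [h, mul_one] at hprev
      have := nbr_val_inj he hw (by omega) (by omega) hprev
      omega
    refine nbr_core (nbr_val e w) w.length hk hone hvert (nbr_val e w (w₁.length + 1) * b)
      (hzlt _ (by omega)) (fun i hi => hne _ (by omega) i hi) (w₁.length + 1) (by omega)
      (fun _ => ?_) (fun hlt => ?_) (fun i hi => hb1 _ _ _ (nbr_val_ch e w hi))
    · rw [Nat.add_sub_cancel, ← hprev]
      have h3 : Cyc (1 : F g) (ev e (i, t)) b := Or.inl ⟨hc1, hclt⟩
      have h4 := (cyc_mul (nbr_val e w (w₁.length + 1)) _ _ _).mpr h3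
      rw [mul_one] at h4
      exact h4
    · rcases w₂ with _ | ⟨d, w₃⟩
      · rw [List.length_nil] at hlen
        omega
      · have hget2 : w[w₁.length + 1]'(by omega) = d := by
          subst hsplit
          simp
        have hw' := hw
        have hz' := hz
        rw [hsplit] at hw' hz'
        obtain ⟨h5, h6⟩ := bdw_next he hw' hz'
        rw [hinv] at h5 h6
        have h7 : b < ev e d := by
          by_contra h8
          exact absurd (hmax d (Finset.mem_filter.mpr ⟨Finset.mem_univ _, not_lt.mp h8⟩))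
            (not_le.mpr h5)
        rw [nbr_val_succ e w hlt, hget2]
        have h3 : Cyc (1 : F g) b (ev e d) := Or.inl ⟨hc1.trans hclt, h7⟩
        have h4 := (cyc_mul (nbr_val e w (w₁.length + 1)) _ _ _).mpr h3
        rw [mul_one] at h4
        exact h4

end TorP
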