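import Pool.Agent.Lib.MP_05cdf2_gt.P.PT
import Pool.Agent.Lib.MP_05cdf2_gt.P.PV

/-! MP_05cdf2_gt, job P.PG. If `P` is given by the formula of the push along `x` on an unlinked basis which is
unlinked with `x`, it is given by this formula on all elements unlinked with the basis and with `x`.

Let `X j` be the vertices of the polygon of `e` (`exists_pol`).
(1) `diag_good`: for `i < j ≤ k` such that `d = (X i)⁻¹ * X j` is unlinked with `x`: `Good x P d`.
 Induction on `j - i`. If `j = i + 1`, `d = ev e w[i]` is a letter (`nbr_val_succ`): `Good` by hypothesis (`Good.inv`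
 for the inverse letters). If `j ≥ i + 2`: call `m ∈ (i, j)` special if `{X i, X m}` is a lift of `x`, i.e.
 `(X i)⁻¹ * X m = x` or `x⁻¹`. Let `m` be the largest special index in `(i, j)` if there is one, and `m = i + 1`
 otherwise. Claim: `(X i)⁻¹ * X m` and `(X m)⁻¹ * X j` are unlinked with `x`. The first one: it is `x^{±1}` (and
 `U x x`) or a letter. The second one: suppose that a lift `{p, p x}` of `x` crosses `{X m, X j}` (use `U_iff` with
 base point `X m`). By `Pol.vert` (`x` is unlinked with `e`), `p = X a`, `p x = X b` with `a, b ≤ k`, and by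
 `Pol.cr_iff` one of `a, b` is in `(m, j)` and the other one outside `[m, j]`; say `c ∈ (m, j)` and `c'` outside.
 As `{X a, X b}` does not cross `{X i, X j}` (`U x d`), `c' ∈ [i, j]`, so `i ≤ c' < m`. If `m` is special,
 `{X i, X m}` is a lift of `x` and does not cross `{X a, X b}` (`U x x`), so `c' = i`; then `c` is special and
 `c > m`, contradiction. If `m = i + 1`, then `c' = i`, `c` is special, contradiction with the choice of `m`.
 Then `Good` holds for both by induction, they are `≠ 1` (`Pol.inj`), and `tri_good` gives the claim.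
(2) `b ≠ 1` unlinked with `e` and `x`: by `Pol.mem`, `X j * b = X i`, `i ≠ j`. If `j < i`: (1); if `i < j`: (1) for
 `b⁻¹`, and `Good.inv`. -/

set_option autoImplicit false

namespace TorP
open TorM

variable {g : ℕ}

theorem PU_PG_letter {n : ℕ} {e : Fin n → F g} {x : F g} (hex : ∀ l, U (e l) x)
    {P : F g →* F g} (hP : ∀ l, Good x P (e l)) (l : Fin n × Bool) :
    U x (ev e l) ∧ Good x P (ev e l) := by
  obtain ⟨i, b⟩ := l
  cases b
  · have e1 : ev e (i, false) = (e i)⁻¹ := by simp [ev]
    rw [e1]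
    exact ⟨(hex i).symm.inv_right, (hP i).inv⟩
  · have e1 : ev e (i, true) = e i := by simp [ev]
    rw [e1]
    exact ⟨(hex i).symm, hP i⟩

theorem PU_PG_nocr {x d y p : F g} (h : U x d) : ¬ Cr y (y * d) p (p * x) :=
  U_iff.mp h.symm y p

theorem PU_PG_split {n : ℕ} {e : Fin n → F g} {w : List (Fin n × Bool)} (h : Pol e w) {x : F g}
    (hx : Smp x) (hex : ∀ l, U (e l) x) {i m j : ℕ} (him : i < m) (hmj : m < j)
    (hj : j ≤ w.length) (hd : U x ((nbr_val e w i)⁻¹ * nbr_val e w j))
    (hm : ((nbr_val e w i)⁻¹ * nbr_val e w m = x ∨ (nbr_val e w i)⁻¹ * nbr_val e w m = x⁻¹) ∨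
      m = i + 1)
    (hmax : ∀ m', m < m' → m' < j →
      ¬ ((nbr_val e w i)⁻¹ * nbr_val e w m' = x ∨ (nbr_val e w i)⁻¹ * nbr_val e w m' = x⁻¹)) :
    U x ((nbr_val e w m)⁻¹ * nbr_val e w j) := by
  refine U.symm ?_
  intro q hc
  have hc1 := (cr_mul (nbr_val e w m) _ _ _ _).mpr hc
  rw [mul_one, mul_inv_cancel_left, ← mul_assoc] at hc1
  obtain ⟨⟨a, ha, hpa⟩, b, hb, hpb⟩ := Pol.vert h (hmj.le.trans hj) hj hex hc1
  have hab : nbr_val e w b = nbr_val e w a * x := by rw [← hpb, ← hpa]
  rw [hpb, hpa] at hc1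
  rw [Pol.cr_iff h hmj hj ha hb] at hc1
  -- `{X a, X b}` does not cross `{X i, X j}`
  have h2 : ¬ Cr (nbr_val e w i) (nbr_val e w j) (nbr_val e w a) (nbr_val e w b) := by
    have h3 := PU_PG_nocr (y := nbr_val e w i) (p := nbr_val e w a) hd
    rw [mul_inv_cancel_left, ← hab] at h3
    exact h3
  rw [Pol.cr_iff h (him.trans hmj) hj ha hb] at h2
  have h4 : m = i + 1 ∨ ¬ Cr (nbr_val e w i) (nbr_val e w m) (nbr_val e w a) (nbr_val e w b) := by
    rcases hm with (h5 | h5) | h5
    · right
      have h6 := PU_PG_nocr (y := nbr_val e w i) (p := nbr_val e w a) hx.un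
      rw [← hab] at h6
      rw [← h5, mul_inv_cancel_left] at h6
      exact h6
    · right
      have h6 := PU_PG_nocr (y := nbr_val e w i) (p := nbr_val e w a) hx.un.inv_right
      rw [← hab] at h6
      rw [← h5, mul_inv_cancel_left] at h6
      exact h6
    · exact Or.inl h5
  rw [Pol.cr_iff h him (hmj.le.trans hj) ha hb] at h4
  have h7 : (b = i ∧ m < a ∧ a < j) ∨ (a = i ∧ m < b ∧ b < j) := by omega
  rcases h7 with ⟨h8, h9, h10⟩ | ⟨h8, h9, h10⟩
  · refine hmax a h9 h10 (Or.inr ?_)
    rw [h8] at hab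
    rw [hab]
    group
  · refine hmax b h9 h10 (Or.inl ?_)
    rw [h8] at hab
    rw [hab]
    group

theorem diag_good {n : ℕ} {e : Fin n → F g} {w : List (Fin n × Bool)} (h : Pol e w) {x : F g}
    (hx : Smp x) (hex : ∀ l, U (e l) x) {P : F g →* F g} (hP : ∀ l, Good x P (e l)) :
    ∀ N i j : ℕ, j - i ≤ N → i < j → j ≤ w.length → U x ((nbr_val e w i)⁻¹ * nbr_val e w j) →
      Good x P ((nbr_val e w i)⁻¹ * nbr_val e w j) := by
  intro N
  induction N with
  | zero =>
    intro i j h1 h2
    omega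
  | succ N ih =>
    intro i j hN hij hj hd
    rcases Nat.lt_or_ge (i + 1) j with hij2 | hij2
    · obtain ⟨m, him, hmj, hum, hm, hmax⟩ : ∃ m, i < m ∧ m < j ∧
          U x ((nbr_val e w i)⁻¹ * nbr_val e w m) ∧
          (((nbr_val e w i)⁻¹ * nbr_val e w m = x ∨ (nbr_val e w i)⁻¹ * nbr_val e w m = x⁻¹) ∨
            m = i + 1) ∧
          ∀ m', m < m' → m' < j →
            ¬ ((nbr_val e w i)⁻¹ * nbr_val e w m' = x ∨
              (nbr_val e w i)⁻¹ * nbr_val e w m' = x⁻¹) := by
        classical
        set S := (Finset.Ioo i j).filter (fun m => (nbr_val e w i)⁻¹ * nbr_val e w m = x ∨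
          (nbr_val e w i)⁻¹ * nbr_val e w m = x⁻¹) with hS
        by_cases hne : S.Nonempty
        · have hmem := Finset.mem_filter.mp (S.max'_mem hne)
          rw [Finset.mem_Ioo] at hmem
          refine ⟨S.max' hne, hmem.1.1, hmem.1.2, ?_, Or.inl hmem.2, ?_⟩
          · rcases hmem.2 with h5 | h5
            · rw [h5]
              exact hx.un
            · rw [h5]
              exact hx.un.inv_right
          · intro m' h1 h2 h3
            have h4 : m' ∈ S := by
              rw [hS, Finset.mem_filter, Finset.mem_Ioo]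
              exact ⟨⟨hmem.1.1.trans h1, h2⟩, h3⟩
            exact absurd (S.le_max' m' h4) (not_le.mpr h1)
        · refine ⟨i + 1, Nat.lt_succ_self i, hij2, ?_, Or.inr rfl, ?_⟩
          · rw [nbr_val_succ e w (by omega), inv_mul_cancel_left]
            exact (PU_PG_letter hex hP _).1
          · intro m' h1 h2 h3
            apply hne
            refine ⟨m', ?_⟩
            rw [hS, Finset.mem_filter, Finset.mem_Ioo]
            exact ⟨⟨by omega, h2⟩, h3⟩
      have hum' := PU_PG_split h hx hex him hmj hj hd hm hmax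
      have g1 := ih i m (by omega) him (hmj.le.trans hj) hum
      have g2 := ih m j (by omega) hmj hj hum'
      have e1 : (nbr_val e w i)⁻¹ * nbr_val e w j =
          (nbr_val e w i)⁻¹ * nbr_val e w m * ((nbr_val e w m)⁻¹ * nbr_val e w j) := by group
      have hne : ∀ a b : ℕ, a < b → b ≤ w.length → (nbr_val e w a)⁻¹ * nbr_val e w b ≠ 1 := by
        intro a b hab hb heq
        have h5 := Pol.inj h (hab.le.trans hb) hb (inv_mul_eq_one.mp heq)
        omega
      rw [e1] at hd ⊢
      refine tri_good hx.ne (hne i m him (hmj.le.trans hj)) (hne m j hmj hj) ?_ hum hum' hd g1 g2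
      rw [← e1]
      exact hne i j hij hj
    · have hji : j = i + 1 := by omega
      subst hji
      rw [nbr_val_succ e w (by omega), inv_mul_cancel_left]
      exact (PU_PG_letter hex hP _).2

theorem poly_good {n : ℕ} {e : Fin n → F g} (he : UB e) {x : F g}
    (hx : Smp x) (hex : ∀ l, U (e l) x) {P : F g →* F g} (hP : ∀ l, Good x P (e l)) {b : F g}
    (hb : b ≠ 1) (hbe : ∀ l, U (e l) b) (hbx : U x b) : Good x P b := by
  obtain ⟨w, h⟩ := exists_pol (pos_g hx.ne) he
  obtain ⟨i, j, hi, hj, hij⟩ := Pol.mem h hbe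
  have hne : i ≠ j := by
    rintro rfl
    exact hb (mul_eq_left.mp hij)
  have e1 : b = (nbr_val e w j)⁻¹ * nbr_val e w i := by rw [← hij]; group
  rcases Nat.lt_or_ge j i with h1 | h1
  · have h2 := hbx
    rw [e1] at h2 ⊢
    exact diag_good h hx hex hP (i - j) j i le_rfl h1 hi h2
  · have e2 : b⁻¹ = (nbr_val e w i)⁻¹ * nbr_val e w j := by rw [e1]; group
    have h2 := hbx.inv_right
    rw [e2] at h2
    have h3 := diag_good h hx hex hP (j - i) i j le_rfl (by omega) hj h2
    have h4 := h3.inv
    rw [← e2, _root_.inv_inv] at h4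
    exact h4

end TorP
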