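import Pool.Agent.Lib.MP_05cdf2_gt.P.PO

/-! MP_05cdf2_gt, job P.PGa. The gap of a simple loop.

`x` is simple and `x < x⁻¹`; by `pow_ord` the powers are in the order `1 < x < x^2 < ... < x⁻² < x⁻¹`, and
`Gap x` is what lies between the non negative and the negative powers. Work with `zpow` and `cyc_mul`; `U_iff` for the
non crossing of the translates. -/

set_option autoImplicit false

namespace TorP
open TorM

variable {g : ℕ}

private theorem pga_cyc_lt {α : Type} [LinearOrder α] {p q r : α} (h : Cyc p q r) (hpr : p < r) :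
    p < q ∧ q < r := by
  rcases h with ⟨a, b⟩ | ⟨_, b⟩ | ⟨a, _⟩
  · exact ⟨a, b⟩
  · exact absurd hpr (lt_asymm b)
  · exact absurd hpr (lt_asymm a)

/-- the order `1 < d < v < c` gives a crossing -/
private theorem pga_cr1 {α : Type} [LinearOrder α] {a d v c : α} (h1 : a < d) (h2 : d < v)
    (h3 : v < c) : Cr a v c d :=
  Or.inr ⟨Or.inl ⟨h1, h2⟩, Or.inr (Or.inr ⟨h1.trans h2, h3⟩)⟩

/-- the order `1 < c < v < d` gives a crossing -/
private theorem pga_cr2 {α : Type} [LinearOrder α] {a d v c : α} (h1 : a < c) (h2 : c < v)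
    (h3 : v < d) : Cr a v c d :=
  Or.inl ⟨Or.inl ⟨h1, h2⟩, Or.inr (Or.inr ⟨h1.trans h2, h3⟩)⟩

private theorem pga_mono {x : F g} (hx : Smp x) (h : x < x⁻¹) : StrictMono fun n : ℕ => x ^ n :=
  strictMono_nat_of_lt_succ (pow_ord hx h).1

private theorem pga_ne_one {x y : F g} (h : x < y) : (1 : F g) < y := lt_of_le_of_lt (one_le x) h

/-- crossing lemma: if `y` is not in the gap, there is either `n ≥ 1` with `x^n < y ≤ x^(n+1)` or with
`x^(-n-1) ≤ y < x^(-n)` (use `x < y < x⁻¹` and `Nat.find`). In the first case `x⁻¹ * y` lies in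
`(x^(n-1), x^n]` (`cyc_mul`), so `1 < x⁻¹ y < y < x⁻¹` and the chord `{x⁻¹, x⁻¹ y}` crosses `{1, y}`. In the second
case use `{x, x y}`: `x y` lies in `[x^(-n), x^(-n+1))` (or in `[x^(-1), ...)` when `n = 1`: above `x⁻¹` or equal),
so `x < y < x y`, and `x < y`: `{x, x y}` crosses `{1, y}`. (When `n = 1`, `x y` may be in the arc from `x⁻¹` to `1`;
`x y = 1` is impossible as `y < x⁻¹`.) -/
theorem gap_of_smp {x y : F g} (hx : Smp x) (hy : Smp y) (h : x < x⁻¹) (h1 : x < y) (h2 : y < x⁻¹) :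
    y ∈ Gap x := by
  obtain ⟨p1, p2, p3⟩ := pow_ord hx h
  have hmono := pga_mono hx h
  have h1x : (1 : F g) < x := one_lt hx.ne
  -- the first half
  have hA : ∀ n : ℕ, x ^ (n + 1) < y := by
    intro n
    induction n with
    | zero => rw [zero_add, pow_one]; exact h1
    | succ n ih =>
      by_contra hcon
      push Not at hcon
      have hd : (1 : F g) < x⁻¹ * y ∧ x⁻¹ * y < y := by
        rcases lt_or_eq_of_le hcon with hlt | heq
        · have hc : Cyc (x⁻¹ * x ^ (n + 1)) (x⁻¹ * y) (x⁻¹ * x ^ (n + 1 + 1)) :=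
            (cyc_mul _ _ _ _).2 (Or.inl ⟨ih, hlt⟩)
          rw [pow_succ' x n, pow_succ' x (n + 1), inv_mul_cancel_left, inv_mul_cancel_left] at hc
          have h3 := pga_cyc_lt hc (p1 n)
          exact ⟨pga_ne_one h3.1, h3.2.trans ih⟩
        · have h3 : x⁻¹ * y = x ^ (n + 1) := by
            rw [heq, pow_succ' x (n + 1), inv_mul_cancel_left]
          rw [h3]
          exact ⟨pga_ne_one (p1 n), ih⟩
      exact hy.un x⁻¹ (pga_cr1 hd.1 hd.2 h2)
  have hA' : ∀ n : ℕ, x ^ n < y := by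
    intro n
    rcases n with _ | n
    · rw [pow_zero]
      exact pga_ne_one h1
    · exact hA n
  -- the second half
  have hB : ∀ n : ℕ, y < (x ^ (n + 1))⁻¹ := by
    intro n
    induction n with
    | zero => rw [zero_add, pow_one]; exact h2
    | succ n ih =>
      by_contra hcon
      push Not at hcon
      have hd : y < x * y := by
        rcases lt_or_eq_of_le hcon with hlt | heq
        · have hc : Cyc (x * (x ^ (n + 1 + 1))⁻¹) (x * y) (x * (x ^ (n + 1))⁻¹) :=
            (cyc_mul _ _ _ _).2 (Or.inl ⟨hlt, ih⟩)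
          have e1 : x * (x ^ (n + 1 + 1))⁻¹ = (x ^ (n + 1))⁻¹ := by
            rw [pow_succ x (n + 1), mul_inv_rev, mul_inv_cancel_left]
          have e2 : x * (x ^ (n + 1))⁻¹ = (x ^ n)⁻¹ := by
            rw [pow_succ x n, mul_inv_rev, mul_inv_cancel_left]
          rw [e1, e2] at hc
          rcases n with _ | n
          · rw [pow_zero, inv_one] at hc
            rcases hc with ⟨_, b⟩ | ⟨a, _⟩ | ⟨_, b⟩
            · exact absurd (one_le (x * y)) (not_le.2 b)
            · exact absurd (one_le (x * y)) (not_le.2 a)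
            · exact ih.trans b
          · exact ih.trans (pga_cyc_lt hc (p2 n)).1
        · have e1 : x * y = (x ^ (n + 1))⁻¹ := by
            rw [← heq, pow_succ x (n + 1), mul_inv_rev, mul_inv_cancel_left]
          rw [e1]
          exact ih
      exact hy.un x (pga_cr2 h1x h1 hd)
  exact fun n => ⟨hA' n, hB n⟩

/-- `Gap x` is stable under multiplication by `x` and `x⁻¹` -/
theorem gap_mul {x w : F g} (hx : Smp x) (h : x < x⁻¹) (hw : w ∈ Gap x) : x * w ∈ Gap x := by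
  obtain ⟨p1, p2, p3⟩ := pow_ord hx h
  intro n
  have hc : Cyc (x * x ^ n) (x * w) (x * (x ^ (n + 1 + 1))⁻¹) :=
    (cyc_mul _ _ _ _).2 (Or.inl ⟨(hw n).1, (hw (n + 1)).2⟩)
  have e1 : x * (x ^ (n + 1 + 1))⁻¹ = (x ^ (n + 1))⁻¹ := by
    rw [pow_succ x (n + 1), mul_inv_rev, mul_inv_cancel_left]
  rw [e1, ← pow_succ'] at hc
  have h3 := pga_cyc_lt hc (p3 _ _)
  exact ⟨(p1 n).trans h3.1, h3.2⟩

theorem gap_mul' {x w : F g} (hx : Smp x) (h : x < x⁻¹) (hw : w ∈ Gap x) : x⁻¹ * w ∈ Gap x := by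
  obtain ⟨p1, p2, p3⟩ := pow_ord hx h
  intro n
  have hc : Cyc (x⁻¹ * x ^ (n + 1)) (x⁻¹ * w) (x⁻¹ * (x ^ (n + 1))⁻¹) :=
    (cyc_mul _ _ _ _).2 (Or.inl ⟨(hw (n + 1)).1, (hw n).2⟩)
  have e1 : x⁻¹ * (x ^ (n + 1))⁻¹ = (x ^ (n + 2))⁻¹ := by
    rw [← mul_inv_rev, ← pow_succ]
  rw [e1, pow_succ' x n, inv_mul_cancel_left] at hc
  have h3 := pga_cyc_lt hc (p3 _ _)
  exact ⟨h3.1, h3.2.trans (p2 n)⟩

/-- multiplication by a power of `x` is increasing on `Gap x`: `Cyc (x ^ (-m)) u v` for every `m : ℤ` -/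
theorem gap_mono {x u v : F g} (hx : Smp x) (h : x < x⁻¹) (hu : u ∈ Gap x) (hv : v ∈ Gap x) (huv : u < v)
    (m : ℤ) : x ^ m * u < x ^ m * v := by
  have key : ∀ z t : F g, t * z = 1 → (Cyc z u v ∨ Cyc u v z) → t * u < t * v := by
    intro z t htz hc
    have h1 : ∀ y : F g, ¬ y < 1 := fun y hy => absurd (one_le y) (not_le.2 hy)
    rcases hc with hc | hc
    · have h2 := (cyc_mul t _ _ _).2 hc
      rw [htz] at h2
      rcases h2 with ⟨_, b⟩ | ⟨_, b⟩ | ⟨a, _⟩
      · exact b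
      · exact absurd b (h1 _)
      · exact absurd a (h1 _)
    · have h2 := (cyc_mul t _ _ _).2 hc
      rw [htz] at h2
      rcases h2 with ⟨_, b⟩ | ⟨a, _⟩ | ⟨_, b⟩
      · exact absurd b (h1 _)
      · exact absurd a (h1 _)
      · exact b
  rcases m with m | m
  · rcases m with _ | n
    · have e1 : x ^ (Int.ofNat 0) = 1 := by
        show x ^ ((0 : ℕ) : ℤ) = 1
        rw [zpow_natCast, pow_zero]
      rw [e1, one_mul, one_mul]
      exact huv
    · have e1 : x ^ (Int.ofNat (n + 1)) = x ^ (n + 1) := by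
        show x ^ ((n + 1 : ℕ) : ℤ) = x ^ (n + 1)
        rw [zpow_natCast]
      rw [e1]
      exact key _ _ (mul_inv_cancel (x ^ (n + 1))) (Or.inr (Or.inl ⟨huv, (hv n).2⟩))
  · rw [zpow_negSucc]
    exact key _ _ (inv_mul_cancel (x ^ (m + 1))) (Or.inl (Or.inl ⟨(hu (m + 1)).1, huv⟩))

private theorem pga_pow {x w : F g} (hx : Smp x) (h : x < x⁻¹) (hw : w ∈ Gap x) (n : ℕ) :
    x ^ n * w ∈ Gap x := by
  induction n with
  | zero => rw [pow_zero, one_mul]; exact hw
  | succ n ih =>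
    rw [pow_succ', mul_assoc]
    exact gap_mul hx h ih

private theorem pga_pow' {x w : F g} (hx : Smp x) (h : x < x⁻¹) (hw : w ∈ Gap x) (n : ℕ) :
    (x ^ n)⁻¹ * w ∈ Gap x := by
  induction n with
  | zero => rw [pow_zero, inv_one, one_mul]; exact hw
  | succ n ih =>
    rw [pow_succ, mul_inv_rev, mul_assoc]
    exact gap_mul' hx h ih

theorem gap_zpow {x w : F g} (hx : Smp x) (h : x < x⁻¹) (hw : w ∈ Gap x) (m : ℤ) : x ^ m * w ∈ Gap x := by
  rcases m with m | m
  · have e1 : x ^ (Int.ofNat m) = x ^ m := by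
      show x ^ ((m : ℕ) : ℤ) = x ^ m
      rw [zpow_natCast]
    rw [e1]
    exact pga_pow hx h hw m
  · rw [zpow_negSucc]
    exact pga_pow' hx h hw (m + 1)

private theorem pga_bdd {S : Set ℕ} (hS : S.Finite) : ∃ N : ℕ, ∀ n : ℕ, N ≤ n → n ∉ S := by
  obtain ⟨b, hb⟩ := hS.bddAbove
  refine ⟨b + 1, fun n hn hnS => ?_⟩
  have := hb hnS
  omega

/-- `x^n w` tends to the left end of the gap: if `v < x^n w` then `{x^n, x^n w}` crosses `{1, v}` (`n ≥ 1`); by
`cr_finite 1 v w` this happens for finitely many `x^n` only -/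
theorem gap_arch {x v w : F g} (hx : Smp x) (h : x < x⁻¹) (hv : v ∈ Gap x) (hw : w ∈ Gap x) :
    ∃ N : ℕ, ∀ n : ℕ, N ≤ n → x ^ n * w < v := by
  have hmono := pga_mono hx h
  have hinj : Function.Injective fun n : ℕ => x ^ n := hmono.injective
  have hf1 : {n : ℕ | Cr 1 v (x ^ n) (x ^ n * w)}.Finite :=
    (cr_finite 1 v w).preimage hinj.injOn
  have hf2 : {n : ℕ | x ^ n = v * w⁻¹}.Finite :=
    (Set.finite_singleton (v * w⁻¹)).preimage hinj.injOn
  obtain ⟨N, hN⟩ := pga_bdd ((hf1.union hf2).union (Set.finite_singleton 0))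
  refine ⟨N, fun n hn => ?_⟩
  by_contra hcon
  push Not at hcon
  apply hN n hn
  by_cases h0 : n = 0
  · exact Or.inr h0
  · left
    rcases lt_or_eq_of_le hcon with hlt | heq
    · left
      refine pga_cr2 ?_ (hv n).1 hlt
      have h3 := hmono (Nat.pos_of_ne_zero h0)
      simp only [pow_zero] at h3
      exact h3
    · right
      show x ^ n = v * w⁻¹
      rw [heq, mul_inv_cancel_right]

/-- `x^(-n) w` tends to the right end of the gap: if `x^(-n) w < v` then `{x^(-n), x^(-n) w}` crosses `{1, v}` -/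
theorem gap_arch' {x v w : F g} (hx : Smp x) (h : x < x⁻¹) (hv : v ∈ Gap x) (hw : w ∈ Gap x) :
    ∃ N : ℕ, ∀ n : ℕ, N ≤ n → v < (x ^ n)⁻¹ * w := by
  have hmono := pga_mono hx h
  have hinj : Function.Injective fun n : ℕ => (x ^ n)⁻¹ := fun a b hab =>
    hmono.injective (inv_injective hab)
  have hf1 : {n : ℕ | Cr 1 v (x ^ n)⁻¹ ((x ^ n)⁻¹ * w)}.Finite :=
    (cr_finite 1 v w).preimage hinj.injOn
  have hf2 : {n : ℕ | (x ^ n)⁻¹ = v * w⁻¹}.Finite :=
    (Set.finite_singleton (v * w⁻¹)).preimage hinj.injOn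
  obtain ⟨N, hN⟩ := pga_bdd ((hf1.union hf2).union (Set.finite_singleton 0))
  refine ⟨N, fun n hn => ?_⟩
  by_contra hcon
  push Not at hcon
  apply hN n hn
  rcases n with _ | n
  · exact Or.inr rfl
  · left
    rcases lt_or_eq_of_le hcon with hlt | heq
    · left
      exact pga_cr1 (pga_ne_one (pga_pow' hx h hw (n + 1) 0).1) hlt (hv n).2
    · right
      show (x ^ (n + 1))⁻¹ = v * w⁻¹
      rw [← heq, mul_inv_cancel_right]

end TorP
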