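import Pool.Agent.Lib.MP_05cdf2_gt.P.PV

/-! MP_05cdf2_gt, job P.PU. The diagonals of the fundamental polygon are simple and those which do not cross in the
polygon are unlinked.

`Pol.nodup`: let `l_0, ..., l_(k-1)` be the letters of `w`. By `bdw_next`, `ev e l_(p+1)` is the successor of
`(ev e l_p)⁻¹ = ev e (bdwInv l_p)` among the values of the letters, in particular it is not minimal; by `bdw_first`,
`ev e l_0` is minimal. If `l_p = l_q` with `p < q`, then by induction on `p` (successor is injective, `bdw_ev_inj`):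
`l_0 = l_(q-p)`, `q - p ≥ 1`: contradiction.
`sub_val`: for `a ≤ b ≤ k`, `(X a)⁻¹ * X b` is the value of the (reduced) subword `(w.drop a).take (b - a)`.
`diag_U`: a lift `{p, p * e l}` of `e l` crossing `{X i, X j}` joins two vertices (`Pol.vert`, `b = e l`; `e` is a
system), `p = X a`, `p * e l = X b`; by `Pol.cr_iff` `|a - b| ≥ 2`; but `e l` is the value of a word of length `1` and
of a reduced word of length `|a - b|`: `bdw_inj`.
`diag_U2`: suppose that a lift `{p X r, p X s}` of `(X r)⁻¹ * X s` crosses `{X i, X j}` (`U_iff`). By `diag_U` and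
`Pol.vert`, `p X r = X a`, `p X s = X b`, with `|a - b| ≥ 2` (`Pol.cr_iff`), and
`(X a)⁻¹ * X b = (X r)⁻¹ * X s`. By symmetry (exchange `a, b` and `r, s`) let `a < b`. If `r < s`: the subwords
`w[a, b)` and `w[r, s)` have the same value, so they are equal (`bdw_inj`), in particular `w[a] = w[r]`, so `a = r` by
`Pol.nodup`, then `b = s` (`Pol.inj`), `p = 1`: `{X r, X s}` crosses `{X i, X j}`, contradiction. If `s < r`: the
subword `w[a, b)` is the inverse of `w[s, r)`: `w[a] = bdwInv w[r-1]`, `w[a+1] = bdwInv w[r-2]` (`b - a ≥ 2`); by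
`bdw_next` at `a`: `(ev e w[a])⁻¹ < ev e w[a+1]`; by `bdw_next` at `r - 2`: `(ev e w[r-2])⁻¹ < ev e w[r-1]`, i.e.
`ev e w[a+1] < (ev e w[a])⁻¹`. Contradiction. -/

set_option autoImplicit false

namespace TorP
open TorM

variable {g : ℕ} {n : ℕ} {e : Fin n → F g} {w : List (Fin n × Bool)}

/-- next letter -/
theorem PU_next (h : Pol e w) {p : ℕ} (hp : p + 1 < w.length) :
    (ev e w[p])⁻¹ < ev e w[p + 1] ∧
      ∀ l, ¬ ((ev e w[p])⁻¹ < ev e l ∧ ev e l < ev e w[p + 1]) := by
  have hs : w.take p ++ w[p] :: w[p + 1] :: w.drop (p + 2) = w := by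
    rw [← List.drop_eq_getElem_cons hp, ← List.drop_eq_getElem_cons (by omega : p < w.length),
      List.take_append_drop]
  have hred := h.red
  have hval := h.val
  rw [← hs] at hred hval
  exact bdw_next h.ub hred hval

/-- the first letter is minimal -/
theorem PU_first (h : Pol e w) (hp : 0 < w.length) (l : Fin n × Bool) : ev e w[0] ≤ ev e l := by
  have hs : w[0] :: w.drop 1 = w := by
    rw [← List.drop_eq_getElem_cons hp, List.drop_zero]
  have hred := h.red
  have hval := h.val
  rw [← hs] at hred hval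
  exact bdw_first h.ub hred hval l

theorem PU_bi {a b : Fin n × Bool} (h : bdwInv a = bdwInv b) : a = b := by
  obtain ⟨i, x⟩ := a
  obtain ⟨j, y⟩ := b
  simp only [bdwInv, Prod.mk.injEq] at h
  simp only [Prod.mk.injEq]
  exact ⟨h.1, by revert h; cases x <;> cases y <;> simp⟩

theorem PU_nodup_aux (h : Pol e w) : ∀ (p q : ℕ) (hpq : p < q) (hq : q < w.length),
    w[p] ≠ w[q]
  | 0, q, hpq, hq => by
    intro he
    obtain ⟨q', rfl⟩ : ∃ q', q = q' + 1 := ⟨q - 1, by omega⟩
    have h1 := (PU_next h hq).1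
    have h2 := PU_first h (by omega) (bdwInv w[q'])
    rw [bdw_ev_inv, he] at h2
    exact absurd h1 (not_lt.mpr h2)
  | p + 1, q, hpq, hq => by
    intro he
    obtain ⟨q', rfl⟩ : ∃ q', q = q' + 1 := ⟨q - 1, by omega⟩
    obtain ⟨a1, a2⟩ := PU_next h (by omega : p + 1 < w.length)
    obtain ⟨b1, b2⟩ := PU_next h hq
    rw [← he] at b1 b2
    have c1 := a2 (bdwInv w[q'])
    have c2 := b2 (bdwInv w[p])
    rw [bdw_ev_inv] at c1 c2
    have hAB : ev e (bdwInv w[p]) = ev e (bdwInv w[q']) := by
      rw [bdw_ev_inv, bdw_ev_inv]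
      rcases lt_trichotomy (ev e w[p])⁻¹ (ev e w[q'])⁻¹ with h3 | h3 | h3
      · exact absurd ⟨h3, b1⟩ c1
      · exact h3
      · exact absurd ⟨h3, a1⟩ c2
    exact PU_nodup_aux h p q' (by omega) (by omega) (PU_bi (bdw_ev_inj h.ub hAB))

theorem Pol.nodup (h : Pol e w) : w.Nodup := by
  rw [List.nodup_iff_pairwise_ne, List.pairwise_iff_getElem]
  intro i j hi hj hij
  exact PU_nodup_aux h i j hij hj

theorem Pol.sub_val (h : Pol e w) {a b : ℕ} (hab : a ≤ b) (hb : b ≤ w.length) :
    (nbr_val e w a)⁻¹ * nbr_val e w b = bdwV e ((w.drop a).take (b - a)) := by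
  have h1 : w.take b = w.take a ++ (w.drop a).take (b - a) := by
    rw [← List.take_add]
    congr 1
    omega
  have h2 : nbr_val e w b = nbr_val e w a * bdwV e ((w.drop a).take (b - a)) := by
    unfold nbr_val bdwV
    rw [h1, List.map_append, List.prod_append]
  rw [h2, inv_mul_cancel_left]

theorem PU_red (h : Pol e w) (a b : ℕ) : FreeGroup.IsReduced ((w.drop a).take (b - a)) :=
  redSub h.red ((List.take_prefix _ _).isInfix.trans (List.drop_suffix a w).isInfix)

theorem PU_len {a b : ℕ} (hb : b ≤ w.length) :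
    ((w.drop a).take (b - a)).length = b - a := by
  rw [List.length_take, List.length_drop]
  omega

/-- a letter is not the value of a longer subword -/
theorem PU_letter (h : Pol e w) {a b : ℕ} (hab : a + 2 ≤ b) (hb : b ≤ w.length)
    (l : Fin n × Bool) : (nbr_val e w a)⁻¹ * nbr_val e w b ≠ ev e l := by
  intro h1
  rw [h.sub_val (by omega) hb, ← bdwV_single] at h1
  have h2 := bdw_inj h.ub (PU_red h a b) FreeGroup.IsReduced.singleton h1
  have h3 := congrArg List.length h2
  rw [PU_len hb, List.length_singleton] at h3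
  omega

/-- a chord joining two vertices and crossing a diagonal -/
theorem PU_far (h : Pol e w) {i j a b : ℕ} (hi : i ≤ w.length) (hj : j ≤ w.length)
    (ha : a ≤ w.length) (hb : b ≤ w.length)
    (hc : Cr (nbr_val e w i) (nbr_val e w j) (nbr_val e w a) (nbr_val e w b)) :
    a + 2 ≤ b ∨ b + 2 ≤ a := by
  rcases lt_trichotomy a b with hab | hab | hab
  · have h1 := (h.cr_iff hab hb hi hj).mp (cr_comm.mp hc)
    omega
  · subst hab
    exact absurd (cr_comm.mp hc) not_cr_same
  · have h1 := (h.cr_iff hab ha hi hj).mp (cr_swap1.mpr (cr_comm.mp hc))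
    omega

/-- translation of a crossing to the polygon -/
theorem PU_tr {x y b t : F g} (hc : Cr 1 (x⁻¹ * y) t (t * b)) :
    Cr x y (x * t) (x * t * b) := by
  have h1 := (cr_mul x 1 (x⁻¹ * y) t (t * b)).mpr hc
  rw [mul_one, mul_inv_cancel_left, ← mul_assoc] at h1
  exact h1

theorem Pol.diag_U (h : Pol e w) {i j : ℕ} (hi : i ≤ w.length) (hj : j ≤ w.length) (l : Fin n) :
    U (e l) ((nbr_val e w i)⁻¹ * nbr_val e w j) := by
  refine U.symm fun t hc => ?_
  have hc2 := PU_tr hc
  obtain ⟨⟨a, ha, hxa⟩, ⟨b, hb, hxb⟩⟩ := h.vert hi hj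
    (fun l' => h.ub.sys _ ⟨l', rfl⟩ _ ⟨l, rfl⟩) hc2
  rw [hxb, hxa] at hc2
  have h1 : e l = (nbr_val e w a)⁻¹ * nbr_val e w b := by
    rw [← hxb, hxa, inv_mul_cancel_left]
  rcases PU_far h hi hj ha hb hc2 with h2 | h2
  · exact PU_letter h h2 hb (l, true) h1.symm
  · apply PU_letter h h2 ha (l, false)
    have h3 : ev e (l, false) = (e l)⁻¹ := rfl
    rw [h3, h1, mul_inv_rev, _root_.inv_inv]

theorem PU_val_inv (u : List (Fin n × Bool)) :
    (bdwV e u)⁻¹ = FreeGroup.lift e (FreeGroup.mk (FreeGroup.invRev u)) := by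
  unfold bdwV
  rw [← lift_mk_eq, ← map_inv, FreeGroup.inv_mk]

/-- the key step: equal values of subwords -/
theorem PU_key (h : Pol e w) {a b r s : ℕ} (hab : a + 2 ≤ b) (hb : b ≤ w.length)
    (hr : r ≤ w.length) (hs : s ≤ w.length)
    (heq : (nbr_val e w a)⁻¹ * nbr_val e w b = (nbr_val e w r)⁻¹ * nbr_val e w s) :
    a = r ∧ b = s := by
  rcases lt_trichotomy r s with hrs | hrs | hrs
  · rw [h.sub_val (by omega) hb, h.sub_val hrs.le hs] at heq
    have h1 := bdw_inj h.ub (PU_red h a b) (PU_red h r s) heq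
    have h2 := congrArg List.length h1
    rw [PU_len hb, PU_len hs] at h2
    have h3 := congrArg (fun u : List (Fin n × Bool) => u[0]?) h1
    simp only [List.getElem?_take, List.getElem?_drop, add_zero] at h3
    rw [if_pos (by omega), if_pos (by omega), List.getElem?_eq_getElem (by omega),
      List.getElem?_eq_getElem (by omega), Option.some.injEq] at h3
    have h4 : a = r := by
      rcases lt_trichotomy a r with h5 | h5 | h5
      · exact absurd h3 (PU_nodup_aux h a r h5 (by omega))
      · exact h5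
      · exact absurd h3.symm (PU_nodup_aux h r a h5 (by omega))
    omega
  · subst hrs
    rw [inv_mul_cancel, inv_mul_eq_one] at heq
    have := h.inj (by omega) hb heq
    omega
  · exfalso
    have heq2 : (nbr_val e w s)⁻¹ * nbr_val e w r = ((nbr_val e w a)⁻¹ * nbr_val e w b)⁻¹ := by
      rw [heq, mul_inv_rev, _root_.inv_inv]
    rw [h.sub_val hrs.le hr, h.sub_val (by omega) hb, PU_val_inv] at heq2
    have h0 : bdwV e ((w.drop s).take (r - s)) =
        FreeGroup.lift e (FreeGroup.mk ((w.drop s).take (r - s))) := by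
      rw [lift_mk_eq]
      rfl
    rw [h0] at heq2
    have h1 := congrArg FreeGroup.toWord (h.ub.bij.1 heq2)
    rw [FreeGroup.toWord_mk, FreeGroup.toWord_mk, (PU_red h s r).reduce_eq,
      FreeGroup.reduce_invRev, (PU_red h a b).reduce_eq] at h1
    have h2 := congrArg List.length h1
    rw [FreeGroup.invRev_length, PU_len hb, PU_len hr] at h2
    have hg : ∀ t, t < r - s → w[s + t]? =
        (w[b - 1 - t]?).map bdwInv := by
      intro t ht
      have h3 := congrArg (fun u : List (Fin n × Bool) => u[t]?) h1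
      simp only [List.getElem?_take, List.getElem?_drop, FreeGroup.invRev] at h3
      rw [if_pos ht, List.getElem?_reverse (by
        rw [List.length_map, PU_len hb]
        omega), List.length_map, PU_len hb, List.getElem?_map, List.getElem?_take,
        if_pos (by omega), List.getElem?_drop] at h3
      rw [h3]
      have e1 : a + (b - a - 1 - t) = b - 1 - t := by omega
      rw [e1]
      rfl
    obtain ⟨r', rfl⟩ : ∃ r', r = r' + 2 := ⟨r - 2, by omega⟩
    have g1 := hg (r' + 1 - s) (by omega)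
    have g2 := hg (r' - s) (by omega)
    have e1 : s + (r' + 1 - s) = r' + 1 := by omega
    have e2 : b - 1 - (r' + 1 - s) = a := by omega
    have e3 : s + (r' - s) = r' := by omega
    have e4 : b - 1 - (r' - s) = a + 1 := by omega
    rw [e1, e2, List.getElem?_eq_getElem (by omega), List.getElem?_eq_getElem (by omega),
      Option.map_some, Option.some.injEq] at g1
    rw [e3, e4, List.getElem?_eq_getElem (by omega), List.getElem?_eq_getElem (by omega),
      Option.map_some, Option.some.injEq] at g2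
    have k1 := (PU_next h (by omega : a + 1 < w.length)).1
    have k2 := (PU_next h (by omega : r' + 1 < w.length)).1
    rw [g1, g2, bdw_ev_inv, bdw_ev_inv, _root_.inv_inv] at k2
    exact absurd k1 (not_lt.mpr k2.le)

theorem Pol.diag_U2 (h : Pol e w) {i j r s : ℕ} (hi : i ≤ w.length) (hj : j ≤ w.length)
    (hr : r ≤ w.length) (hs : s ≤ w.length)
    (hn : ¬ Cr (nbr_val e w i) (nbr_val e w j) (nbr_val e w r) (nbr_val e w s)) :
    U ((nbr_val e w i)⁻¹ * nbr_val e w j) ((nbr_val e w r)⁻¹ * nbr_val e w s) := by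
  intro t hc
  have hc2 := PU_tr hc
  obtain ⟨⟨a, ha, hxa⟩, ⟨b, hb, hxb⟩⟩ := h.vert hi hj
    (fun l' => h.diag_U hr hs l') hc2
  rw [hxb, hxa] at hc2
  have h1 : (nbr_val e w a)⁻¹ * nbr_val e w b = (nbr_val e w r)⁻¹ * nbr_val e w s := by
    rw [← hxb, hxa, inv_mul_cancel_left]
  rcases PU_far h hi hj ha hb hc2 with h2 | h2
  · obtain ⟨rfl, rfl⟩ := PU_key h h2 hb hr hs h1
    exact hn hc2
  · have h3 : (nbr_val e w b)⁻¹ * nbr_val e w a = (nbr_val e w s)⁻¹ * nbr_val e w r := by
      have h4 := congrArg (fun z => z⁻¹) h1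
      simpa only [mul_inv_rev, _root_.inv_inv] using h4
    obtain ⟨rfl, rfl⟩ := PU_key h h2 ha hs hr h3
    exact hn hc2

theorem Pol.diag_self (h : Pol e w) {i j : ℕ} (hi : i ≤ w.length) (hj : j ≤ w.length) :
    U ((nbr_val e w i)⁻¹ * nbr_val e w j) ((nbr_val e w i)⁻¹ * nbr_val e w j) := by
  exact h.diag_U2 hi hj hi hj not_cr_left

theorem Pol.tri_sys (h : Pol e w) {a b c : ℕ} (ha : a ≤ w.length) (hb : b ≤ w.length)
    (hc : c ≤ w.length) :
    U ((nbr_val e w a)⁻¹ * nbr_val e w b) ((nbr_val e w b)⁻¹ * nbr_val e w c) ∧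
      U ((nbr_val e w a)⁻¹ * nbr_val e w b) ((nbr_val e w a)⁻¹ * nbr_val e w c) ∧
      U ((nbr_val e w b)⁻¹ * nbr_val e w c) ((nbr_val e w a)⁻¹ * nbr_val e w c) := by
  refine ⟨h.diag_U2 ha hb hb hc ?_, h.diag_U2 ha hb ha hc not_cr_left,
    h.diag_U2 hb hc ha hc ?_⟩
  · rw [← cr_swap1]
    exact not_cr_left
  · rw [← cr_swap1, ← cr_swap2]
    exact not_cr_left

end TorP
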