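import Pool.Agent.Lib.MP_05cdf2_gt.P.PR
import Pool.Agent.Lib.MP_05cdf2_gt.P.PU

/-! MP_05cdf2_gt, job P.PK. The group generated by the pushes along the standard generators contains all pushes.

`exists_ubB0`: `e i = FreeGroup.of (σ i)` for a bijection `σ : Fin (2 * g) ≃ Gen g`; `FreeGroup.lift e` is the
isomorphism induced by `σ` (`FreeGroup.map`/`freeGroupCongr`); `sys_B0`.
`pol_K0`: let `X j` be the vertices of the polygon of this basis. `PuG (X j) ∈ K0` for `1 ≤ j ≤ k`, by induction: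
`X 1 = ev e w[0]` is a letter (a generator or the inverse of a generator: `PuG_inv`); `X (j+1) = X j * ev e w[j]`
(`nbr_val_succ`), and `tri_rel` with `x = X j = (X 0)⁻¹ * X j`, `y = ev e w[j] = (X j)⁻¹ * X (j+1)`, `z = X (j+1)`
(`Pol.tri_sys`, `Pol.diag_self`, `nbr_val_zero`). Then for `1 ≤ a, b ≤ k`, `a ≠ b`: `tri_rel` with `x = X a`,
`y = (X a)⁻¹ * X b`, `z = X b` gives `PuG ((X a)⁻¹ * X b) ∈ K0`; for `a = 0` or `b = 0` it is `PuG (X b)` or
`PuG (X a)⁻¹`.
`PuG_base`: a simple `y` unlinked with `B0 g` is `(X j)⁻¹ * X i` (`Pol.mem`).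
`PuG_mem`: strong induction on `I B y`, `B = (B0 g).toList` (`{τ | τ ∈ B} = B0 g`). Let `s = {y}`. If `pr B s = ⊤`:
`U_of_pr_top` and `PuG_base`. Otherwise take the first crossing `(k, u, w)` (`exists_first`); `Ch {y} u w`, so
`u⁻¹ * w = y` or `y⁻¹`; `IsFirst {y} B[k] u w` by `isFirst_of_le` (with `s' = s`); `surgery`: `u`, `w`, `y` are
pairwise unlinked and simple; `1 < u < w`; `I_surg`: `I B u + I B w < I B (u⁻¹ * w) = I B y` (`I_inv`). By induction
`PuG u ∈ K0`, `PuG w ∈ K0`, and `tri_rel` with `x = u`, `y = u⁻¹ * w`, `z = w`. -/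

set_option autoImplicit false

namespace TorP
open TorM TorG

variable {g : ℕ}

/-- the group generated by the boundary twist and the pushes along the standard generators -/
noncomputable def K0 (g : ℕ) : Subgroup (Gam g) :=
  Subgroup.closure ({cz g} ∪ Set.range fun i : Gen g => PuG (FreeGroup.of i))

theorem cz_mem_K0 : cz g ∈ K0 g := Subgroup.subset_closure (Or.inl rfl)

theorem gen_mem_K0 (i : Gen g) : PuG (FreeGroup.of i : F g) ∈ K0 g :=
  Subgroup.subset_closure (Or.inr ⟨i, rfl⟩)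

theorem smp_of (i : Gen g) : Smp (FreeGroup.of i : F g) :=
  ⟨FreeGroup.of_ne_one i, U_letter (i, true) (i, true)⟩

theorem exists_ubB0 (g : ℕ) : ∃ e : Fin (2 * g) → F g, UB e ∧ (∀ i, ∃ j : Gen g, e i = FreeGroup.of j) ∧
    ∀ j : Gen g, ∃ i, e i = FreeGroup.of j := by
  have h1 : ∀ a : (B0 g : Finset (F g)), ∃ j : Gen g, (FreeGroup.of j : F g) = a := by
    rintro ⟨a, ha⟩
    obtain ⟨j, -, hj⟩ := Finset.mem_image.1 ha
    exact ⟨j, hj⟩
  choose f hf using h1
  have hfi : Function.Injective f := by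
    intro a b hab
    apply Subtype.ext
    rw [← hf a, ← hf b, hab]
  have hlift : (FreeGroup.lift fun a : (B0 g : Finset (F g)) => (a : F g)) = FreeGroup.map f := by
    apply FreeGroup.ext_hom
    intro a
    rw [FreeGroup.lift_apply_of, FreeGroup.map.of, hf a]
  obtain ⟨e, he, hr⟩ := ub_of_basis (t := B0 g) sys_B0 closure_B0 (by
    rw [hlift]
    exact FreeGroup.map_injective hfi)
  refine ⟨e, he, ?_, ?_⟩
  · intro i
    have h2 : e i ∈ (B0 g : Set (F g)) := by
      rw [← hr]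
      exact ⟨i, rfl⟩
    obtain ⟨j, -, hj⟩ := Finset.mem_image.1 (Finset.mem_coe.1 h2)
    exact ⟨j, hj.symm⟩
  · intro j
    have h2 : (FreeGroup.of j : F g) ∈ Set.range e := by
      rw [hr]
      exact Finset.mem_coe.2 (Finset.mem_image.2 ⟨j, Finset.mem_univ _, rfl⟩)
    exact h2

theorem PK_ev {n : ℕ} {e : Fin n → F g} (he : ∀ i, ∃ j : Gen g, e i = FreeGroup.of j)
    (l : Fin n × Bool) : PuG (ev e l) ∈ K0 g := by
  obtain ⟨i, b⟩ := l
  obtain ⟨j, hj⟩ := he i
  cases b
  · have h1 : ev e (i, false) = (FreeGroup.of j : F g)⁻¹ := by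
      unfold ev
      rw [if_neg (by simp), hj]
    rw [h1, PuG_inv (smp_of j)]
    exact Subgroup.inv_mem _ (gen_mem_K0 j)
  · have h1 : ev e (i, true) = (FreeGroup.of j : F g) := by
      unfold ev
      rw [if_pos rfl, hj]
    rw [h1]
    exact gen_mem_K0 j

theorem PK_zpow (k : ℤ) : cz g ^ k ∈ K0 g := Subgroup.zpow_mem _ cz_mem_K0 k

/-- two sides of a triangle give the third side -/
theorem PK_tri {x y : F g} (hx : Smp x) (hy : Smp y) (hz : Smp (x * y)) (h1 : U x y)
    (h2 : U x (x * y)) (h3 : U y (x * y)) (kx : PuG x ∈ K0 g) (ky : PuG y ∈ K0 g) :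
    PuG (x * y) ∈ K0 g := by
  obtain ⟨k, hk⟩ := tri_rel hx hy hz h1 h2 h3
  have h4 : PuG (x * y) = PuG x * PuG y * (cz g ^ k)⁻¹ := by
    rw [hk, mul_inv_cancel_right]
  rw [h4]
  exact Subgroup.mul_mem _ (Subgroup.mul_mem _ kx ky) (Subgroup.inv_mem _ (PK_zpow k))

theorem PK_tri2 {x y : F g} (hx : Smp x) (hy : Smp y) (hz : Smp (x * y)) (h1 : U x y)
    (h2 : U x (x * y)) (h3 : U y (x * y)) (kx : PuG x ∈ K0 g) (kz : PuG (x * y) ∈ K0 g) :
    PuG y ∈ K0 g := by
  obtain ⟨k, hk⟩ := tri_rel hx hy hz h1 h2 h3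
  have h4 : PuG y = (PuG x)⁻¹ * (PuG (x * y) * cz g ^ k) := by
    rw [← hk, inv_mul_cancel_left]
  rw [h4]
  exact Subgroup.mul_mem _ (Subgroup.inv_mem _ kx) (Subgroup.mul_mem _ kz (PK_zpow k))

theorem PK_smp {n : ℕ} {e : Fin n → F g} {w : List (Fin n × Bool)} (h : Pol e w) {a b : ℕ}
    (ha : a ≤ w.length) (hb : b ≤ w.length) (hab : a ≠ b) :
    Smp ((nbr_val e w a)⁻¹ * nbr_val e w b) := by
  refine ⟨?_, h.diag_self ha hb⟩
  intro h1
  exact hab (h.inj ha hb (inv_mul_eq_one.1 h1))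

theorem PK_lt {n : ℕ} {e : Fin n → F g} {w : List (Fin n × Bool)} (h : Pol e w)
    (he : ∀ i, ∃ j : Gen g, e i = FreeGroup.of j) (a m : ℕ) : a + m + 1 ≤ w.length →
    PuG ((nbr_val e w a)⁻¹ * nbr_val e w (a + m + 1)) ∈ K0 g := by
  induction m with
  | zero =>
    intro hm
    have h1 : (nbr_val e w a)⁻¹ * nbr_val e w (a + 0 + 1) = ev e (w[a]'(by omega)) := by
      rw [add_zero, nbr_val_succ e w (by omega : a < w.length), inv_mul_cancel_left]
    rw [h1]
    exact PK_ev he _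
  | succ m ih =>
    intro hm
    have h1 := ih (by omega)
    have h2 : (nbr_val e w (a + m + 1))⁻¹ * nbr_val e w (a + (m + 1) + 1) =
        ev e (w[a + m + 1]'(by omega)) := by
      have e1 : a + (m + 1) + 1 = (a + m + 1) + 1 := by omega
      rw [e1, nbr_val_succ e w (by omega : a + m + 1 < w.length), inv_mul_cancel_left]
    have h3 : PuG ((nbr_val e w (a + m + 1))⁻¹ * nbr_val e w (a + (m + 1) + 1)) ∈ K0 g := by
      rw [h2]
      exact PK_ev he _
    have h4 : (nbr_val e w a)⁻¹ * nbr_val e w (a + (m + 1) + 1) =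
        ((nbr_val e w a)⁻¹ * nbr_val e w (a + m + 1)) *
          ((nbr_val e w (a + m + 1))⁻¹ * nbr_val e w (a + (m + 1) + 1)) := by
      rw [mul_assoc, mul_inv_cancel_left]
    obtain ⟨t1, t2, t3⟩ := h.tri_sys (a := a) (b := a + m + 1) (c := a + (m + 1) + 1)
      (by omega) (by omega) hm
    have s1 := PK_smp h (a := a) (b := a + m + 1) (by omega) (by omega) (by omega)
    have s2 := PK_smp h (a := a + m + 1) (b := a + (m + 1) + 1) (by omega) hm (by omega)
    have s3 := PK_smp h (a := a) (b := a + (m + 1) + 1) (by omega) hm (by omega)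
    rw [h4] at t2 t3 s3 ⊢
    exact PK_tri s1 s2 s3 t1 t2 t3 h1 h3

theorem pol_K0 {e : Fin (2 * g) → F g} {w : List (Fin (2 * g) × Bool)} (h : Pol e w)
    (he : ∀ i, ∃ j : Gen g, e i = FreeGroup.of j) {i j : ℕ} (hi : i ≤ w.length) (hj : j ≤ w.length)
    (hij : i ≠ j) : PuG ((nbr_val e w i)⁻¹ * nbr_val e w j) ∈ K0 g := by
  rcases lt_or_gt_of_ne hij with hlt | hlt
  · obtain ⟨m, rfl⟩ : ∃ m, j = i + m + 1 := ⟨j - i - 1, by omega⟩
    exact PK_lt h he i m hj
  · obtain ⟨m, rfl⟩ : ∃ m, i = j + m + 1 := ⟨i - j - 1, by omega⟩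
    have h1 : (nbr_val e w (j + m + 1))⁻¹ * nbr_val e w j =
        ((nbr_val e w j)⁻¹ * nbr_val e w (j + m + 1))⁻¹ := by
      rw [mul_inv_rev, _root_.inv_inv]
    rw [h1, PuG_inv (PK_smp h hj hi (by omega))]
    exact Subgroup.inv_mem _ (PK_lt h he j m hi)

theorem PK_pos {y : F g} (hy : y ≠ 1) : 0 < g := by
  by_contra h
  have h0 : g = 0 := by omega
  subst h0
  apply hy
  have : IsEmpty (Gen 0) := by
    constructor
    rintro (i | i)
    · exact i.elim0
    · exact i.elim0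
  exact Subsingleton.elim _ _

theorem PuG_base {y : F g} (hy : Smp y) (h : ∀ τ ∈ B0 g, U τ y) : PuG y ∈ K0 g := by
  obtain ⟨e, he, h1, h2⟩ := exists_ubB0 g
  obtain ⟨w, hw⟩ := exists_pol (PK_pos hy.ne) he
  have h3 : ∀ l, U (e l) y := by
    intro l
    obtain ⟨j, hj⟩ := h1 l
    rw [hj]
    exact h _ (Finset.mem_image.2 ⟨j, Finset.mem_univ _, rfl⟩)
  obtain ⟨i, j, hi, hj, hij⟩ := hw.mem h3
  have h4 : y = (nbr_val e w j)⁻¹ * nbr_val e w i := by
    rw [← hij, inv_mul_cancel_left]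
  have h5 : j ≠ i := by
    rintro rfl
    apply hy.ne
    rw [h4, inv_mul_cancel]
  rw [h4]
  exact pol_K0 hw h1 hj hi h5

theorem PuG_mem {y : F g} (hy : Smp y) : PuG y ∈ K0 g := by
  obtain ⟨B, hBdef⟩ : ∃ B : List (F g), B = (B0 g).toList := ⟨_, rfl⟩
  have hmem : ∀ τ : F g, τ ∈ B ↔ τ ∈ B0 g := by
    intro τ
    rw [hBdef, Finset.mem_toList]
  have hB : Sys {τ | τ ∈ B} := by
    intro a ha b hb
    exact sys_B0 a (Finset.mem_coe.2 ((hmem a).1 ha)) b (Finset.mem_coe.2 ((hmem b).1 hb))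
  obtain ⟨n, hn⟩ : ∃ n, n = I B y := ⟨_, rfl⟩
  induction n using Nat.strong_induction_on generalizing y with
  | _ n ih =>
    by_cases htop : pr B ({y} : Finset (F g)) = ⊤
    · exact PuG_base hy fun τ hτ =>
        U_of_pr_top htop τ ((hmem τ).2 hτ) y (Finset.mem_singleton_self y)
    · obtain ⟨k, u, w, hk, hp, h1, h2, h3, h4⟩ := exists_first htop
      have hX : Sys (({y} : Finset (F g)) : Set (F g)) := by
        intro a ha b hb
        rw [Finset.mem_coe, Finset.mem_singleton] at ha hb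
        rw [ha, hb]
        exact hy.un
      have hfirst : IsFirst (({y} : Finset (F g)) : Set (F g)) B[k] u w :=
        isFirst_of_le hk hp (fun u' w' hc => ⟨{y}, hc, le_rfl⟩) (fun _ h => h) h1 h2 h3 h4
      have hτm : B[k] ∈ B := List.getElem_mem hk
      have hS := surgery hX (hB _ hτm _ hτm) hfirst
      have hI := I_surg hB hτm h1 h2 h3
      have mu : u ∈ insert u (insert w (({y} : Finset (F g)) : Set (F g))) := Set.mem_insert _ _
      have mw : w ∈ insert u (insert w (({y} : Finset (F g)) : Set (F g))) :=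
        Set.mem_insert_of_mem _ (Set.mem_insert _ _)
      have my : y ∈ insert u (insert w (({y} : Finset (F g)) : Set (F g))) :=
        Set.mem_insert_of_mem _ (Set.mem_insert_of_mem _
          (Finset.mem_coe.2 (Finset.mem_singleton_self y)))
      have su : Smp u := ⟨ne_of_gt h1, hS u mu u mu⟩
      have sw : Smp w := ⟨ne_of_gt (h1.trans (h2.trans h3)), hS w mw w mw⟩
      have huw : u * (u⁻¹ * w) = w := mul_inv_cancel_left u w
      have main : ∀ v : F g, v = u⁻¹ * w → Smp v → U u v → U v w → I B v = n → PuG v ∈ K0 g := by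
        intro v hv sv huv hvw hIv
        subst hv
        have ku := ih (I B u) (by omega) su rfl
        have kw := ih (I B w) (by omega) sw rfl
        refine PK_tri2 su sv ?_ huv ?_ ?_ ku ?_
        · rw [huw]
          exact sw
        · rw [huw]
          exact hS u mu w mw
        · rw [huw]
          exact hvw
        · rw [huw]
          exact kw
      rcases h4 with h4 | h4
      · rw [Finset.mem_coe, Finset.mem_singleton] at h4
        exact main y h4.symm hy (hS u mu y my) (hS y my w mw) hn.symm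
      · rw [Finset.mem_coe, Finset.mem_singleton] at h4
        have h5 : y⁻¹ = u⁻¹ * w := by
          rw [← h4, mul_inv_rev, _root_.inv_inv]
        have h6 := main y⁻¹ h5 hy.inv (hS u mu y my).inv_right (hS y my w mw).inv_left (by
          rw [I_inv]
          exact hn.symm)
        rw [PuG_inv hy] at h6
        exact (Subgroup.inv_mem_iff _).1 h6

/-- by `PuG_map`, `cz_comm` and `PuG_mem` -/
theorem K0_normal (g : ℕ) : (K0 g).Normal := by
  refine ⟨fun n hn φ => ?_⟩
  induction hn using Subgroup.closure_induction with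
  | mem x hx =>
    rcases hx with hx | ⟨i, hi⟩
    · rw [Set.mem_singleton_iff] at hx
      subst hx
      rw [cz_comm φ, mul_inv_cancel_right]
      exact cz_mem_K0
    · subst hi
      show φ * PuG (FreeGroup.of i) * φ⁻¹ ∈ K0 g
      rw [← PuG_map φ (smp_of i)]
      exact PuG_mem (smp_map φ (smp_of i))
  | one =>
    rw [mul_one, mul_inv_cancel]
    exact Subgroup.one_mem _
  | mul x y _ _ hx hy =>
    have e1 : φ * (x * y) * φ⁻¹ = (φ * x * φ⁻¹) * (φ * y * φ⁻¹) := by group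
    rw [e1]
    exact Subgroup.mul_mem _ hx hy
  | inv x _ hx =>
    have e1 : φ * x⁻¹ * φ⁻¹ = (φ * x * φ⁻¹)⁻¹ := by group
    rw [e1]
    exact Subgroup.inv_mem _ hx

end TorP
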