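import Pool.Agent.Lib.MP_05cdf2_gt.P.PXd

/-! MP_05cdf2_gt, job P.PMain. The kernel of the action on the closed surface group is generated by the boundary twist.

`F1`: `φ` acts trivially modulo `Rz`. It is in `Tor1` (`mem_Tor1`, `abv_Rz`).
(i) if `φ ∈ K0`: `K0_comm` and `px_core`. (ii) in general: for each generator the commutator of `φ` and the push is in
`K0` and acts trivially modulo `Rz` (`comm_mem`), so it is in `⟨cz⟩` by (i); then `px_core`. -/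

set_option autoImplicit false

namespace TorP
open TorM TorG

variable {g : ℕ}

private theorem PMain_Tor {φ : Gam g} (h : ∀ w, (φ : MulAut (F g)) w * w⁻¹ ∈ Rz g) :
    φ ∈ Tor1 g := by
  rw [mem_Tor1]
  intro x
  have h1 := abv_Rz (h x)
  rw [abv_mul, abv_inv] at h1
  exact add_neg_eq_zero.mp h1

private theorem PMain_K0 (hg : 2 ≤ g) {φ : Gam g} (hK : φ ∈ K0 g)
    (h : ∀ w, (φ : MulAut (F g)) w * w⁻¹ ∈ Rz g) : φ ∈ Subgroup.zpowers (cz g) := by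
  have : NeZero g := ⟨by omega⟩
  exact px_core hg (PMain_Tor h) (fun i => K0_comm hK h i)

theorem F1 (hg : 2 ≤ g) {φ : Gam g} (h : ∀ w, (φ : MulAut (F g)) w * w⁻¹ ∈ Rz g) :
    φ ∈ Subgroup.zpowers (cz g) := by
  have : NeZero g := ⟨by omega⟩
  refine px_core hg (PMain_Tor h) (fun i => ?_)
  obtain ⟨h1, h2⟩ := comm_mem h i
  exact PMain_K0 hg h1 h2

/-- every inner automorphism of `F g ⧸ Rz g` is induced by an element of the Torelli group: closure induction with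
`PuG_Tor`, `PuG_mod` for the generators -/
theorem F2 (u : F g) : ∃ φ : Gam g, φ ∈ Tor1 g ∧ ∀ w, (φ : MulAut (F g)) w * (u * w * u⁻¹)⁻¹ ∈ Rz g := by
  have hmul : ∀ u v : F g, (∃ φ : Gam g, φ ∈ Tor1 g ∧
      ∀ w, (φ : MulAut (F g)) w * (u * w * u⁻¹)⁻¹ ∈ Rz g) →
      (∃ φ : Gam g, φ ∈ Tor1 g ∧ ∀ w, (φ : MulAut (F g)) w * (v * w * v⁻¹)⁻¹ ∈ Rz g) →
      ∃ φ : Gam g, φ ∈ Tor1 g ∧
        ∀ w, (φ : MulAut (F g)) w * ((u * v) * w * (u * v)⁻¹)⁻¹ ∈ Rz g := by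
    rintro u v ⟨φ, h1, h2⟩ ⟨ψ, h3, h4⟩
    refine ⟨φ * ψ, mul_mem h1 h3, fun w => ?_⟩
    have h5 := Gam_Rz φ (h4 w)
    have h6 := h2 (v * w * v⁻¹)
    have h7 := mul_mem h5 h6
    have e : ((φ * ψ : Gam g) : MulAut (F g)) w * ((u * v) * w * (u * v)⁻¹)⁻¹ =
        (φ : MulAut (F g)) ((ψ : MulAut (F g)) w * (v * w * v⁻¹)⁻¹) *
        ((φ : MulAut (F g)) (v * w * v⁻¹) * (u * (v * w * v⁻¹) * u⁻¹)⁻¹) := by
      have e1 : ((φ * ψ : Gam g) : MulAut (F g)) w =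
          (φ : MulAut (F g)) ((ψ : MulAut (F g)) w) := rfl
      rw [e1, map_mul, map_inv]
      group
    rw [e]
    exact h7
  have hinv : ∀ u : F g, (∃ φ : Gam g, φ ∈ Tor1 g ∧
      ∀ w, (φ : MulAut (F g)) w * (u * w * u⁻¹)⁻¹ ∈ Rz g) →
      ∃ φ : Gam g, φ ∈ Tor1 g ∧
        ∀ w, (φ : MulAut (F g)) w * (u⁻¹ * w * u⁻¹⁻¹)⁻¹ ∈ Rz g := by
    rintro u ⟨φ, h1, h2⟩
    refine ⟨φ⁻¹, inv_mem h1, fun w => ?_⟩
    have h3 := h2 (((φ⁻¹ : Gam g) : MulAut (F g)) w)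
    have e1 : (φ : MulAut (F g)) (((φ⁻¹ : Gam g) : MulAut (F g)) w) = w := by
      have e2 : (φ : MulAut (F g)) (((φ⁻¹ : Gam g) : MulAut (F g)) w) =
          ((φ * φ⁻¹ : Gam g) : MulAut (F g)) w := rfl
      rw [e2, mul_inv_cancel]
      rfl
    rw [e1] at h3
    set w' := ((φ⁻¹ : Gam g) : MulAut (F g)) w with hw'
    have h4 := (inferInstance : (Rz g).Normal).conj_mem _ (inv_mem h3) u⁻¹
    have e3 : u⁻¹ * (w * (u * w' * u⁻¹)⁻¹)⁻¹ * u⁻¹⁻¹ = w' * (u⁻¹ * w * u⁻¹⁻¹)⁻¹ := by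
      group
    rw [e3] at h4
    exact h4
  induction u using FreeGroup.induction_on with
  | C1 =>
    refine ⟨1, one_mem _, fun w => ?_⟩
    have e : ((1 : Gam g) : MulAut (F g)) w * (1 * w * 1⁻¹)⁻¹ = 1 := by
      have e1 : ((1 : Gam g) : MulAut (F g)) w = w := rfl
      rw [e1]
      group
    rw [e]
    exact one_mem _
  | of i => exact ⟨PuG (FreeGroup.of i), PuG_Tor (smp_of i), PuG_mod (smp_of i)⟩
  | inv_of i h => exact hinv _ h
  | mul u v hu hv => exact hmul u v hu hv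

end TorP
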