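import Pool.Agent.Lib.MP_05cdf2_gt.P.PK

/-! MP_05cdf2_gt, job P.PN. The homomorphism from the free group to the pushes modulo the boundary twist.

`Th_zeta`: let `X j` be the vertices of the polygon of the standard basis (`exists_ubB0`, `exists_pol`). By induction on
`j ≥ 1`, `Th (X j)` is the class of `PuG (X j)` (as in `pol_K0`: `tri_rel` for `X j`, `ev e w[j]`, `X (j+1)`);
`X k = ζ` and `PuG ζ = cz` (`PuG_zeta`). For `g = 0`: `zeta 0 = 1`.
`Th_Rz`: normal closure.
`Th_surj`: closure induction. `Th_act`: induction on `u` (`FreeGroup.induction_on` or closure induction), with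
`PuG_mod`; `cz` is the conjugation by `ζ ∈ Rz`; every `φ : Gam g` preserves `Rz` (it fixes `ζ`). -/

set_option autoImplicit false

namespace TorP
open TorM TorG

variable {g : ℕ}

instance (g : ℕ) : (Subgroup.zpowers (cz g)).Normal := by
  refine ⟨fun n hn φ => ?_⟩
  obtain ⟨k, rfl⟩ := Subgroup.mem_zpowers_iff.1 hn
  have h : Commute φ (cz g ^ k) := (show Commute φ (cz g) from cz_comm φ).zpow_right k
  rw [h.eq, mul_inv_cancel_right]
  exact hn

theorem Gam_Rz (φ : Gam g) {w : F g} (hw : w ∈ Rz g) : (φ : MulAut (F g)) w ∈ Rz g := by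
  have h : Rz g ≤ (Rz g).comap (φ : MulAut (F g)).toMonoidHom := by
    refine Subgroup.normalClosure_le_normal ?_
    rintro _ rfl
    show (φ : MulAut (F g)) (zeta g) ∈ Rz g
    rw [Gam_zeta]
    exact Subgroup.subset_normalClosure rfl
  exact h hw

private theorem PN_iff (a b : F g) : a * b⁻¹ ∈ Rz g ↔
    (QuotientGroup.mk a : F g ⧸ Rz g) = QuotientGroup.mk b := by
  rw [QuotientGroup.eq_iff_div_mem, div_eq_mul_inv]

private theorem PN_zeta : (QuotientGroup.mk (zeta g) : F g ⧸ Rz g) = 1 :=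
  (QuotientGroup.eq_one_iff _).2 (Subgroup.subset_normalClosure rfl)

private theorem PN_cong (ψ : Gam g) {a b : F g}
    (h : (QuotientGroup.mk a : F g ⧸ Rz g) = QuotientGroup.mk b) :
    (QuotientGroup.mk ((ψ : MulAut (F g)) a) : F g ⧸ Rz g) =
      QuotientGroup.mk ((ψ : MulAut (F g)) b) := by
  rw [← PN_iff] at h ⊢
  have h1 := Gam_Rz ψ h
  rw [map_mul, map_inv] at h1
  exact h1

private theorem PN_rep {φ ψ : Gam g}
    (h : (QuotientGroup.mk φ : Gam g ⧸ Subgroup.zpowers (cz g)) = QuotientGroup.mk ψ) (w : F g) :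
    (QuotientGroup.mk ((φ : MulAut (F g)) w) : F g ⧸ Rz g) =
      QuotientGroup.mk ((ψ : MulAut (F g)) w) := by
  rw [QuotientGroup.eq] at h
  obtain ⟨k, hk⟩ := Subgroup.mem_zpowers_iff.1 h
  have h1 : ψ = φ * cz g ^ k := by
    rw [hk, mul_inv_cancel_left]
  have h2 : ((ψ : Gam g) : MulAut (F g)) w =
      (φ : MulAut (F g)) (((cz g ^ k : Gam g) : MulAut (F g)) w) := by
    rw [h1]
    rfl
  rw [h2]
  apply PN_cong
  rw [cz_zpow_apply, QuotientGroup.mk_mul, QuotientGroup.mk_mul, QuotientGroup.mk_inv,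
    QuotientGroup.mk_zpow, PN_zeta, one_zpow, inv_one, mul_one, one_mul]

/-- `u ↦` push along `u`, modulo the boundary twist -/
noncomputable def Th (g : ℕ) : F g →* Gam g ⧸ Subgroup.zpowers (cz g) :=
  FreeGroup.lift fun i => QuotientGroup.mk (PuG (FreeGroup.of i))

theorem Th_of (i : Gen g) : Th g (FreeGroup.of i) = QuotientGroup.mk (PuG (FreeGroup.of i)) := by
  simp [Th]

private theorem PN_ev {n : ℕ} {e : Fin n → F g} (he : ∀ i, ∃ j : Gen g, e i = FreeGroup.of j)
    (l : Fin n × Bool) : Th g (ev e l) = QuotientGroup.mk (PuG (ev e l)) := by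
  obtain ⟨i, b⟩ := l
  obtain ⟨j, hj⟩ := he i
  cases b
  · have h1 : ev e (i, false) = (FreeGroup.of j)⁻¹ := by
      simp [ev, hj]
    rw [h1, map_inv, Th_of, PuG_inv (smp_of j), QuotientGroup.mk_inv]
  · have h1 : ev e (i, true) = FreeGroup.of j := by
      simp [ev, hj]
    rw [h1, Th_of]

private theorem PN_smp {n : ℕ} {e : Fin n → F g} {w : List (Fin n × Bool)} (h : Pol e w) {i j : ℕ}
    (hi : i ≤ w.length) (hj : j ≤ w.length) (hij : i ≠ j) :
    Smp ((nbr_val e w i)⁻¹ * nbr_val e w j) := by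
  refine ⟨fun h1 => hij ?_, h.diag_self hi hj⟩
  exact h.inj hi hj (inv_mul_eq_one.1 h1)

private theorem PN_vert {n : ℕ} {e : Fin n → F g} {w : List (Fin n × Bool)} (h : Pol e w)
    (he : ∀ i, ∃ j : Gen g, e i = FreeGroup.of j) :
    ∀ j : ℕ, j + 1 ≤ w.length → Th g (nbr_val e w (j + 1)) =
      QuotientGroup.mk (PuG (nbr_val e w (j + 1))) := by
  intro j
  induction j with
  | zero =>
    intro hj
    rw [nbr_val_succ e w (j := 0) (by omega), nbr_val_zero, one_mul]
    exact PN_ev he _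
  | succ j ih =>
    intro hj
    have ih' := ih (by omega)
    have hs := nbr_val_succ e w (j := j + 1) (by omega)
    obtain ⟨t1, t2, t3⟩ := h.tri_sys (a := 0) (b := j + 1) (c := j + 1 + 1) (by omega) (by omega)
      (by omega)
    have s1 := PN_smp h (i := 0) (j := j + 1) (by omega) (by omega) (by omega)
    have s2 := PN_smp h (i := j + 1) (j := j + 1 + 1) (by omega) (by omega) (by omega)
    have s3 := PN_smp h (i := 0) (j := j + 1 + 1) (by omega) (by omega) (by omega)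
    rw [nbr_val_zero, inv_one, one_mul] at t1 t2 t3 s1 s3
    have e1 : (nbr_val e w (j + 1))⁻¹ * nbr_val e w (j + 1 + 1) = ev e w[j + 1] := by
      rw [hs, inv_mul_cancel_left]
    rw [e1] at t1 t3 s2
    rw [one_mul] at t2
    rw [hs] at t2 t3 s3 ⊢
    obtain ⟨k, hk⟩ := tri_rel s1 s2 s3 t1 t2 t3
    rw [map_mul, ih', PN_ev he, ← QuotientGroup.mk_mul, hk, QuotientGroup.mk_mul,
      QuotientGroup.mk_zpow, (QuotientGroup.eq_one_iff (cz g)).2 (Subgroup.mem_zpowers _),
      one_zpow, mul_one]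

theorem Th_zeta (g : ℕ) : Th g (zeta g) = 1 := by
  rcases Nat.eq_zero_or_pos g with rfl | hg
  · have h : zeta 0 = 1 := by
      simp [zeta]
    rw [h, map_one]
  · obtain ⟨e, he, he1, -⟩ := exists_ubB0 g
    obtain ⟨w, hw⟩ := exists_pol hg he
    have hl := hw.len
    have h1 := PN_vert hw he1 (w.length - 1) (by omega)
    have h2 : w.length - 1 + 1 = w.length := by omega
    rw [h2, hw.last, PuG_zeta hg] at h1
    rw [h1]
    exact (QuotientGroup.eq_one_iff (cz g)).2 (Subgroup.mem_zpowers _)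

theorem Th_Rz {u : F g} (hu : u ∈ Rz g) : Th g u = 1 := by
  have h : Rz g ≤ (Th g).ker := by
    refine Subgroup.normalClosure_le_normal ?_
    rintro _ rfl
    exact Th_zeta g
  exact h hu

theorem Th_surj {φ : Gam g} (h : φ ∈ K0 g) : ∃ u : F g, Th g u = QuotientGroup.mk φ := by
  unfold K0 at h
  induction h using Subgroup.closure_induction with
  | mem x hx =>
    rcases hx with hx | ⟨i, rfl⟩
    · have h1 : x = cz g := hx
      refine ⟨1, ?_⟩
      rw [map_one, h1]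
      exact ((QuotientGroup.eq_one_iff (cz g)).2 (Subgroup.mem_zpowers _)).symm
    · exact ⟨FreeGroup.of i, Th_of i⟩
  | one => exact ⟨1, map_one _⟩
  | mul x y _ _ hx hy =>
    obtain ⟨u, hu⟩ := hx
    obtain ⟨v, hv⟩ := hy
    exact ⟨u * v, by rw [map_mul, hu, hv, QuotientGroup.mk_mul]⟩
  | inv x _ hx =>
    obtain ⟨u, hu⟩ := hx
    exact ⟨u⁻¹, by rw [map_inv, hu, QuotientGroup.mk_inv]⟩

private theorem PN_act (u : F g) : ∃ φ : Gam g, Th g u = QuotientGroup.mk φ ∧
    ∀ w, (QuotientGroup.mk ((φ : MulAut (F g)) w) : F g ⧸ Rz g) =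
      QuotientGroup.mk (u * w * u⁻¹) := by
  induction u using FreeGroup.induction_on with
  | C1 =>
    refine ⟨1, map_one _, fun w => ?_⟩
    rw [one_mul, inv_one, mul_one]
    rfl
  | of i =>
    exact ⟨PuG (FreeGroup.of i), Th_of i, fun w => (PN_iff _ _).1 (PuG_mod (smp_of i) w)⟩
  | inv_of i h =>
    refine ⟨PuG (FreeGroup.of i)⁻¹, ?_, fun w => (PN_iff _ _).1 (PuG_mod (smp_of i).inv w)⟩
    rw [map_inv, Th_of, PuG_inv (smp_of i), QuotientGroup.mk_inv]
  | mul x y hx hy =>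
    obtain ⟨φ, h1, h2⟩ := hx
    obtain ⟨ψ, h3, h4⟩ := hy
    refine ⟨φ * ψ, ?_, fun w => ?_⟩
    · rw [map_mul, h1, h3, QuotientGroup.mk_mul]
    · show (QuotientGroup.mk ((φ : MulAut (F g)) ((ψ : MulAut (F g)) w)) : F g ⧸ Rz g) = _
      rw [h2, QuotientGroup.mk_mul, QuotientGroup.mk_mul, h4, ← QuotientGroup.mk_mul,
        ← QuotientGroup.mk_mul, mul_inv_rev]
      simp only [mul_assoc]

theorem Th_act (u : F g) {φ : Gam g} (h : Th g u = QuotientGroup.mk φ) (w : F g) :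
    (φ : MulAut (F g)) w * (u * w * u⁻¹)⁻¹ ∈ Rz g := by
  obtain ⟨ψ, h1, h2⟩ := PN_act u
  rw [PN_iff, ← h2]
  exact PN_rep (h.symm.trans h1) w

/-- an element of `K0` acting trivially modulo `Rz` commutes with the pushes along the generators, modulo the boundary
twist: `φ` is `Th u`, and `u` is central modulo `Rz` by `Th_act`, so `Th u` commutes with `Th (of i)` by `Th_Rz` -/
theorem K0_comm {φ : Gam g} (h : φ ∈ K0 g) (h1 : ∀ w, (φ : MulAut (F g)) w * w⁻¹ ∈ Rz g) (i : Gen g) :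
    φ * PuG (FreeGroup.of i) * φ⁻¹ * (PuG (FreeGroup.of i))⁻¹ ∈ Subgroup.zpowers (cz g) := by
  obtain ⟨u, hu⟩ := Th_surj h
  have h2 := (PN_iff _ _).1 (Th_act u hu (FreeGroup.of i))
  have h3 := (PN_iff _ _).1 (h1 (FreeGroup.of i))
  have h4 : u * FreeGroup.of i * u⁻¹ * (FreeGroup.of i)⁻¹ ∈ Rz g :=
    (PN_iff _ _).2 (h2.symm.trans h3)
  have h5 := Th_Rz h4
  rw [map_mul, map_mul, map_mul, map_inv, map_inv, hu, Th_of] at h5
  rw [← QuotientGroup.eq_one_iff, QuotientGroup.mk_mul, QuotientGroup.mk_mul,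
    QuotientGroup.mk_mul, QuotientGroup.mk_inv, QuotientGroup.mk_inv]
  exact h5

/-- every element of `Gam g` acting trivially modulo `Rz`: the commutator with a push is in `K0` (`K0_normal`) and acts
trivially modulo `Rz` (`PuG_mod`, `Gam_Rz`) -/
theorem comm_mem {φ : Gam g} (h1 : ∀ w, (φ : MulAut (F g)) w * w⁻¹ ∈ Rz g) (i : Gen g) :
    φ * PuG (FreeGroup.of i) * φ⁻¹ * (PuG (FreeGroup.of i))⁻¹ ∈ K0 g ∧
      ∀ w, ((φ * PuG (FreeGroup.of i) * φ⁻¹ * (PuG (FreeGroup.of i))⁻¹ : Gam g) : MulAut (F g)) w * w⁻¹ ∈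
        Rz g := by
  constructor
  · exact (K0 g).mul_mem ((K0_normal g).conj_mem _ (gen_mem_K0 i) φ) ((K0 g).inv_mem (gen_mem_K0 i))
  · intro w
    have a1 : ∀ a : F g, (QuotientGroup.mk ((φ : MulAut (F g)) a) : F g ⧸ Rz g) =
        QuotientGroup.mk a := fun a => (PN_iff _ _).1 (h1 a)
    have a2 : ∀ a : F g, (QuotientGroup.mk (((φ⁻¹ : Gam g) : MulAut (F g)) a) : F g ⧸ Rz g) =
        QuotientGroup.mk a := by
      intro a
      rw [← a1 (((φ⁻¹ : Gam g) : MulAut (F g)) a)]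
      have h2 : (φ : MulAut (F g)) (((φ⁻¹ : Gam g) : MulAut (F g)) a) = a :=
        MulAut.apply_inv_self _ (φ : MulAut (F g)) a
      rw [h2]
    rw [PN_iff]
    show (QuotientGroup.mk ((φ : MulAut (F g)) (((PuG (FreeGroup.of i) : Gam g) : MulAut (F g))
      (((φ⁻¹ : Gam g) : MulAut (F g)) ((((PuG (FreeGroup.of i))⁻¹ : Gam g) : MulAut (F g)) w)))) :
        F g ⧸ Rz g) = _
    rw [a1, PN_cong _ (a2 _)]
    have h3 : ((PuG (FreeGroup.of i) : Gam g) : MulAut (F g))
        ((((PuG (FreeGroup.of i))⁻¹ : Gam g) : MulAut (F g)) w) = w :=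
      MulAut.apply_inv_self _ ((PuG (FreeGroup.of i) : Gam g) : MulAut (F g)) w
    rw [h3]

/-- an element of `Rz` has trivial abelianisation -/
private theorem PN_abv {w : F g} (hw : w ∈ Rz g) : abv w = 0 := by
  have h : Rz g ≤ (ab (g := g)).ker := by
    refine Subgroup.normalClosure_le_normal ?_
    rintro _ rfl
    exact map_zeta ab
  have h1 : ab w = 1 := h hw
  unfold abv
  rw [h1]
  rfl

/-- the pushes act trivially on the abelianisation -/
theorem PuG_Tor {x : F g} (hx : Smp x) : PuG x ∈ Tor1 g := by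
  rw [mem_Tor1]
  intro w
  have h1 := PN_abv (PuG_mod hx w)
  rw [abv_mul, abv_inv, abv_conj, ← sub_eq_add_neg, sub_eq_zero] at h1
  exact h1

theorem cz_Tor (g : ℕ) : cz g ∈ Tor1 g := by
  rw [mem_Tor1]
  intro w
  rw [cz_apply, abv_conj]

/-- an element of `Rz` has trivial abelianisation -/
theorem abv_Rz {w : F g} (hw : w ∈ Rz g) : abv w = 0 := PN_abv hw

end TorP
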