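import Pool.Agent.Lib.MP_05cdf2_gt.P.PZ

/-! MP_05cdf2_gt, job P.PO. The order of the powers of a simple loop.

`x` simple, `x < x⁻¹`, so `Cyc 1 x x⁻¹`; by `cyc_mul`, `Cyc (x^n) (x^(n+1)) (x^(n-1))` for every `n : ℤ`
(better: use `zpow` internally). The chords `{x^i, x^(i+1)}` pairwise do not cross (`U x x`, `U_iff`), and the powers
are distinct (no torsion: `FreeGroup` is torsion free; if Mathlib has no direct instance use
`FreeGroup.infinite_order` or the length of the cyclically reduced form; search `FreeGroup` `norm`/`IsMulTorsionFree`).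

Positive powers, induction on `n`: assume `1 < x < ... < x^n < x⁻¹`. The chord `{x^n, x^(n+1)}` does not cross
`{x^i, x^(i+1)}` for `i + 1 < n`, nor `{x⁻¹, 1}`, so `x^(n+1)` is not in the open arcs `(x^i, x^(i+1))`, and it is in
`(1, x⁻¹)`; `Cyc (x^n) (x^(n+1)) (x^(n-1))` excludes `(x^(n-1), x^n)`. So `x^n < x^(n+1) < x⁻¹`.
Negative powers: `Cyc (x^(-n)) (x^(-n+1)) (x^(-n-1))`. The chord `{x^(-n-1), x^(-n)}` does not cross
`{x^(-i-1), x^(-i)}` for `i + 1 < n` nor any `{x^i, x^(i+1)}`, `i ≥ 0`; starting from `Cyc x⁻¹ 1 x⁻²`, i.e.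
`1 < x⁻² < x⁻¹`, one gets inductively `x^i < x^(-n-1) < x^(-n)` for all `i ≥ 0` (the point `x^(-n-1)` is not in
`(1, x)` by crossing, not in `(x^i, x^(i+1))`, and below `x^(-n)`: it has to be above all `x^i`). A cleaner
organisation: prove first, by induction on `n + m`, that the points `1, x, ..., x^n, x^(-m), ..., x⁻¹` are in
increasing order. -/

set_option autoImplicit false

namespace TorP
open TorM

variable {g : ℕ}

section
variable {α : Type} [LinearOrder α]

private theorem PO_cr_right {x y q z : α} (h1 : x < q) (h2 : q < y) (h3 : y < z) : Cr x y q z :=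
  Or.inl ⟨Or.inl ⟨h1, h2⟩, Or.inr (Or.inr ⟨h1.trans h2, h3⟩)⟩

private theorem PO_cr_left {x y q z : α} (h1 : x < q) (h2 : q < y) (h3 : z < x) : Cr x y q z :=
  Or.inl ⟨Or.inl ⟨h1, h2⟩, Or.inr (Or.inl ⟨h3, h1.trans h2⟩)⟩

private theorem PO_up {a : ℕ → α} {q : α} (h0 : a 0 < q) : ∀ k : ℕ,
    (∀ i, i < k → ¬ (a i < q ∧ q < a (i + 1))) → (∀ i, i ≤ k → q ≠ a i) → a k < q
  | 0, _, _ => h0
  | k + 1, h1, h2 => by
    have h3 := PO_up h0 k (fun i hi => h1 i (by omega)) (fun i hi => h2 i (by omega))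
    rcases lt_trichotomy q (a (k + 1)) with h | h | h
    · exact absurd ⟨h3, h⟩ (h1 k (by omega))
    · exact absurd h (h2 (k + 1) le_rfl)
    · exact h

private theorem PO_down {b : ℕ → α} {q : α} (h0 : q < b 0) : ∀ k : ℕ,
    (∀ i, i < k → ¬ (b (i + 1) < q ∧ q < b i)) → (∀ i, i ≤ k → q ≠ b i) → q < b k
  | 0, _, _ => h0
  | k + 1, h1, h2 => by
    have h3 := PO_down h0 k (fun i hi => h1 i (by omega)) (fun i hi => h2 i (by omega))
    rcases lt_trichotomy q (b (k + 1)) with h | h | h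
    · exact h
    · exact absurd h (h2 (k + 1) le_rfl)
    · exact absurd ⟨h, h3⟩ (h1 k (by omega))

private theorem PO_mono {a : ℕ → α} {n : ℕ} (h : ∀ i, i ≤ n → a i < a (i + 1)) (i : ℕ) :
    ∀ k : ℕ, i + k ≤ n + 1 → a i ≤ a (i + k)
  | 0, _ => le_rfl
  | k + 1, hk => (PO_mono h i k (by omega)).trans (h (i + k) (by omega)).le

private theorem PO_anti {b : ℕ → α} {m : ℕ} (h : ∀ j, j < m → b (j + 1) < b j) (i : ℕ) :
    ∀ k : ℕ, i + k ≤ m → b (i + k) ≤ b i
  | 0, _ => le_rfl
  | k + 1, hk => (h (i + k) (by omega)).le.trans (PO_anti h i k (by omega))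

private theorem PO_abs (a b : ℕ → α)
    (hmin : ∀ z, a 0 ≤ z)
    (haa : ∀ i j, i ≠ j → a i ≠ a j) (hbb : ∀ i j, i ≠ j → b i ≠ b j) (hab : ∀ i j, a i ≠ b j)
    (cAA : ∀ i j, ¬ Cr (a i) (a (i + 1)) (a j) (a (j + 1)))
    (cBB : ∀ i j, ¬ Cr (b (i + 1)) (b i) (b (j + 1)) (b j))
    (cAB : ∀ i j, ¬ Cr (a i) (a (i + 1)) (b (j + 1)) (b j))
    (c0A : ∀ i, ¬ Cr (b 0) (a 0) (a i) (a (i + 1)))
    (c0B : ∀ j, ¬ Cr (b 0) (a 0) (b (j + 1)) (b j))
    (yA : ∀ n, Cyc (a (n + 1)) (a (n + 2)) (a n))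
    (y0 : Cyc (b 0) (a 0) (b 1))
    (yB : ∀ m, Cyc (b (m + 1)) (b m) (b (m + 2)))
    (h01 : a 1 < b 0) :
    ∀ n m : ℕ, (∀ i, i ≤ n → a i < a (i + 1)) ∧ (∀ j, j < m → b (j + 1) < b j) ∧ a (n + 1) < b m := by
  have hlt : ∀ z, z ≠ a 0 → a 0 < z := fun z hz => lt_of_le_of_ne (hmin z) (Ne.symm hz)
  -- step B
  have stepB : ∀ n m : ℕ, ((∀ i, i ≤ n → a i < a (i + 1)) ∧ (∀ j, j < m → b (j + 1) < b j) ∧
      a (n + 1) < b m) → ((∀ i, i ≤ n → a i < a (i + 1)) ∧ (∀ j, j < m + 1 → b (j + 1) < b j) ∧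
      a (n + 1) < b (m + 1)) := by
    rintro n m ⟨hA, hB, hAB⟩
    have hq0 : a 0 < b (m + 1) := hlt _ (Ne.symm (hab 0 (m + 1)))
    have hq1 : b (m + 1) < b 0 := by
      rcases Nat.eq_zero_or_pos m with rfl | hm
      · rcases y0 with h | h | h
        · exact absurd h.1 (not_lt.2 (hmin _))
        · exact h.2
        · exact absurd (h.1.trans h.2) (not_lt.2 (hmin _))
      · rcases lt_trichotomy (b (m + 1)) (b 0) with h | h | h
        · exact h
        · exact absurd h (hbb _ _ (by omega))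
        · exfalso
          have h1 : b m < b 0 := by
            have h2 := PO_anti hB 1 (m - 1) (by omega)
            rw [show 1 + (m - 1) = m by omega] at h2
            exact lt_of_le_of_lt h2 (hB 0 hm)
          exact c0B m (cr_swap1.1 (cr_swap2.1 (PO_cr_right (hlt _ (Ne.symm (hab 0 m))) h1 h)))
    have hq2 : b (m + 1) < b m := by
      rcases Nat.eq_zero_or_pos m with rfl | hm
      · exact hq1
      · obtain ⟨k, rfl⟩ : ∃ k, m = k + 1 := ⟨m - 1, by omega⟩
        have h1 : b (k + 1 + 1) < b k := by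
          refine PO_down hq1 k (fun i hi hc => ?_) (fun i hi => hbb _ _ (by omega))
          have h2 : b (k + 1) < b (i + 1) := by
            have h3 := PO_anti hB (i + 1) (k - (i + 1)) (by omega)
            rw [show i + 1 + (k - (i + 1)) = k by omega] at h3
            exact lt_of_lt_of_le (hB k (by omega)) h3
          exact cBB i (k + 1) (PO_cr_left hc.1 hc.2 h2)
        rcases yB k with h | h | h
        · exact absurd h.2 (not_lt.2 h1.le)
        · exact absurd (h.1.trans h.2) (not_lt.2 (hB k (by omega)).le)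
        · exact h.1
    have hq3 : a (n + 1) < b (m + 1) := by
      refine PO_up hq0 (n + 1) (fun i hi hc => ?_) (fun i hi => Ne.symm (hab _ _))
      have h2 : a (i + 1) < b m := by
        have h3 := PO_mono hA (i + 1) (n + 1 - (i + 1)) (by omega)
        rw [show i + 1 + (n + 1 - (i + 1)) = n + 1 by omega] at h3
        exact lt_of_le_of_lt h3 hAB
      exact cAB i m (PO_cr_right hc.1 hc.2 h2)
    refine ⟨hA, fun j hj => ?_, hq3⟩
    rcases Nat.lt_or_ge j m with h | h
    · exact hB j h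
    · have : j = m := by omega
      subst this
      exact hq2
  -- step A
  have stepA : ∀ n m : ℕ, ((∀ i, i ≤ n → a i < a (i + 1)) ∧ (∀ j, j < m → b (j + 1) < b j) ∧
      a (n + 1) < b m) → ((∀ i, i ≤ n + 1 → a i < a (i + 1)) ∧ (∀ j, j < m → b (j + 1) < b j) ∧
      a (n + 1 + 1) < b m) := by
    rintro n m ⟨hA, hB, hAB⟩
    have hq0 : a 0 < a (n + 2) := hlt _ (haa _ _ (by omega))
    have hq1 : a n < a (n + 2) := by
      refine PO_up hq0 n (fun i hi hc => ?_) (fun i hi => haa _ _ (by omega))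
      have h2 : a (i + 1) < a (n + 1) := by
        have h3 := PO_mono hA (i + 1) (n - (i + 1)) (by omega)
        rw [show i + 1 + (n - (i + 1)) = n by omega] at h3
        exact lt_of_le_of_lt h3 (hA n le_rfl)
      exact cAA i (n + 1) (cr_swap2.1 (PO_cr_right hc.1 hc.2 h2))
    have hq2 : a (n + 1) < a (n + 2) := by
      rcases yA n with h | h | h
      · exact h.1
      · exact absurd h.1 (not_lt.2 hq1.le)
      · exact h.2
    have hbm : ∀ j, j ≤ m → b m ≤ b j := by
      intro j hj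
      have h3 := PO_anti hB j (m - j) (by omega)
      rw [show j + (m - j) = m by omega] at h3
      exact h3
    have hq3 : a (n + 2) < b 0 := by
      rcases lt_trichotomy (a (n + 2)) (b 0) with h | h | h
      · exact h
      · exact absurd h (hab _ _)
      · exfalso
        have h1 : a (n + 1) < b 0 := lt_of_lt_of_le hAB (hbm 0 (by omega))
        exact c0A (n + 1) (cr_swap1.1 (PO_cr_right (hlt _ (haa _ _ (by omega))) h1 h))
    have hq4 : a (n + 2) < b m := by
      refine PO_down hq3 m (fun i hi hc => ?_) (fun i hi => hab _ _)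
      have h2 : a (n + 1) < b (i + 1) := lt_of_lt_of_le hAB (hbm (i + 1) (by omega))
      have h4 : Cr (b (i + 1)) (b i) (a (n + 2)) (a (n + 1)) := PO_cr_left hc.1 hc.2 h2
      exact cAB (n + 1) i (cr_comm.1 (cr_swap2.1 h4))
    refine ⟨fun i hi => ?_, hB, hq4⟩
    rcases Nat.lt_or_ge n i with h | h
    · have : i = n + 1 := by omega
      subst this
      exact hq2
    · exact hA i h
  have base : (∀ i, i ≤ 0 → a i < a (i + 1)) ∧ (∀ j, j < 0 → b (j + 1) < b j) ∧ a (0 + 1) < b 0 := by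
    refine ⟨fun i hi => ?_, fun j hj => absurd hj (Nat.not_lt_zero j), h01⟩
    have : i = 0 := by omega
    subst this
    exact hlt _ (haa _ _ (by omega))
  have colB : ∀ m : ℕ, (∀ i, i ≤ 0 → a i < a (i + 1)) ∧ (∀ j, j < m → b (j + 1) < b j) ∧
      a (0 + 1) < b m := by
    intro m
    induction m with
    | zero => exact base
    | succ m ih => exact stepB 0 m ih
  intro n m
  induction n with
  | zero => exact colB m
  | succ n ih => exact stepA n m ih

end

private theorem PO_pow_inj {x : F g} (hx : x ≠ 1) {i j : ℕ} (h : x ^ i = x ^ j) : i = j := by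
  have key : ∀ i j : ℕ, i ≤ j → x ^ i = x ^ j → i = j := by
    intro i j hij h
    obtain ⟨k, rfl⟩ := Nat.exists_eq_add_of_le hij
    rw [pow_add] at h
    have h1 : x ^ k = 1 := by
      have h2 := congrArg (fun z => (x ^ i)⁻¹ * z) h
      simp only [inv_mul_cancel, inv_mul_cancel_left] at h2
      exact h2.symm
    have h3 := (pow_eq_one_iff_right hx).1 h1
    omega
  rcases le_total i j with hij | hij
  · exact key i j hij h
  · exact (key j i hij h.symm).symm

private theorem PO_pow_inv {x : F g} (hx : x ≠ 1) (i j : ℕ) : x ^ i ≠ (x ^ (j + 1))⁻¹ := by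
  intro h
  have h1 : x ^ (i + (j + 1)) = 1 := by
    rw [pow_add, h, inv_mul_cancel]
  have h3 := (pow_eq_one_iff_right hx).1 h1
  omega

theorem pow_ord {x : F g} (hx : Smp x) (h : x < x⁻¹) :
    (∀ n : ℕ, x ^ n < x ^ (n + 1)) ∧ (∀ m : ℕ, (x ^ (m + 2))⁻¹ < (x ^ (m + 1))⁻¹) ∧
      ∀ n m : ℕ, x ^ n < (x ^ (m + 1))⁻¹ := by
  have hne := hx.ne
  have hU := U_iff.mp hx.un
  have h1x : (1 : F g) < x := one_lt hne
  have hc0 : Cyc (1 : F g) x x⁻¹ := Or.inl ⟨h1x, h⟩
  have hcyc : ∀ y : F g, Cyc y (y * x) (y * x⁻¹) := by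
    intro y
    have h1 := (cyc_mul y 1 x x⁻¹).2 hc0
    rwa [mul_one] at h1
  have eb : ∀ j : ℕ, (x ^ (j + 2))⁻¹ * x = (x ^ (j + 1))⁻¹ := by
    intro j
    rw [show j + 2 = (j + 1) + 1 by ring, pow_succ' x (j + 1), mul_inv_rev, inv_mul_cancel_right]
  have eb' : ∀ j : ℕ, (x ^ (j + 1))⁻¹ * x⁻¹ = (x ^ (j + 2))⁻¹ := by
    intro j
    rw [← mul_inv_rev, ← pow_succ']
  have e0 : (x ^ (0 + 1))⁻¹ * x = x ^ 0 := by
    rw [zero_add, pow_one, inv_mul_cancel, pow_zero]
  have key := PO_abs (fun i : ℕ => x ^ i) (fun j : ℕ => (x ^ (j + 1))⁻¹)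
    (fun z => by
      show x ^ 0 ≤ z
      rw [pow_zero]
      exact one_le z)
    (fun i j hij hc => hij (PO_pow_inj hne hc))
    (fun i j hij hc => hij (by
      have h2 := PO_pow_inj hne (inv_injective hc)
      omega))
    (fun i j => PO_pow_inv hne i j)
    (fun i j hc => by
      have h2 := hU (x ^ i) (x ^ j)
      rw [← pow_succ, ← pow_succ] at h2
      exact h2 hc)
    (fun i j hc => by
      have h2 := hU ((x ^ (i + 2))⁻¹) ((x ^ (j + 2))⁻¹)
      rw [eb, eb] at h2
      exact h2 hc)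
    (fun i j hc => by
      have h2 := hU (x ^ i) ((x ^ (j + 2))⁻¹)
      rw [← pow_succ, eb] at h2
      exact h2 hc)
    (fun i hc => by
      have h2 := hU ((x ^ (0 + 1))⁻¹) (x ^ i)
      rw [← pow_succ, e0] at h2
      exact h2 hc)
    (fun j hc => by
      have h2 := hU ((x ^ (0 + 1))⁻¹) ((x ^ (j + 2))⁻¹)
      rw [e0, eb] at h2
      exact h2 hc)
    (fun n => by
      have h2 := hcyc (x ^ (n + 1))
      rw [← pow_succ] at h2
      have h3 : x ^ (n + 1) * x⁻¹ = x ^ n := by rw [pow_succ, mul_inv_cancel_right]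
      rw [h3] at h2
      exact h2)
    (by
      have h2 := hcyc ((x ^ (0 + 1))⁻¹)
      rw [e0, eb'] at h2
      exact h2)
    (fun m => by
      have h2 := hcyc ((x ^ (m + 2))⁻¹)
      rw [eb] at h2
      have h3 : (x ^ (m + 2))⁻¹ * x⁻¹ = (x ^ (m + 2 + 1))⁻¹ := eb' (m + 1)
      rw [h3] at h2
      exact h2)
    (by
      show x ^ 1 < (x ^ (0 + 1))⁻¹
      rw [zero_add, pow_one]
      exact h)
  refine ⟨fun n => (key n 0).1 n le_rfl, fun m => (key 0 (m + 1)).2.1 m (by omega), fun n m => ?_⟩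
  exact ((key n m).1 n le_rfl).trans (key n m).2.2

/-- the square of a simple loop is not simple: if `x < x⁻¹` then `1 < x < x^2 < x^3`, so `{x, x^3}` crosses
`{1, x^2}`; if `x⁻¹ < x` apply this to `x⁻¹` -/
theorem no_sq {x : F g} (hx : Smp x) : ¬ U (x * x) (x * x) := by
  have main : ∀ y : F g, Smp y → y < y⁻¹ → ¬ U (y * y) (y * y) := by
    intro y hy h hU
    have h1 := (pow_ord hy h).1
    have h2 : (1 : F g) < y := one_lt hy.ne
    have h3 : y < y * y := by
      have := h1 1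
      rw [pow_one, show (1 : ℕ) + 1 = 2 by norm_num, pow_two] at this
      exact this
    have h4 : y * y < y * (y * y) := by
      have := h1 2
      rw [pow_two, pow_succ, pow_two, mul_assoc] at this
      exact this
    exact hU y (PO_cr_right h2 h3 h4)
  rcases lt_or_inv hx.ne with h | h
  · exact main x hx h
  · intro hU
    have h1 := hU.inv_left.inv_right
    rw [mul_inv_rev] at h1
    refine main x⁻¹ hx.inv ?_ h1
    rw [_root_.inv_inv]
    exact h

/-- `x < x⁻¹`: `x ζ⁻¹` is simple (if `x ≠ ζ`). Suppose that `{p, p x ζ⁻¹}` crosses `{1, x ζ⁻¹}`. Replacing the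
end points `x ζ⁻¹`, `p x ζ⁻¹` by their immediate successors `x`, `p x` one gets a crossing of `{1, x}` and
`{p, p x}`, unless `p = x` or `p x = 1`. If `p = x`: `x` and `x^2 ζ⁻¹` are both `> x ζ⁻¹` (as `x < x^2`). If
`p = x⁻¹`: `x⁻¹` and `ζ⁻¹` are both `> x ζ⁻¹`. -/
theorem smp_pred {x : F g} (hx : Smp x) (h : x < x⁻¹) (hz : x ≠ zeta g) : Smp (x * (zeta g)⁻¹) := by
  have hne := hx.ne
  have hzx : x * (zeta g)⁻¹ * zeta g = x := inv_mul_cancel_right _ _
  have hu1 : x * (zeta g)⁻¹ ≠ 1 := by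
    intro hc
    exact hz (mul_inv_eq_one.1 hc)
  have hux : x * (zeta g)⁻¹ < x := pred_lt hne
  have h1u : (1 : F g) < x * (zeta g)⁻¹ := one_lt hu1
  refine ⟨hu1, fun p hc => ?_⟩
  set u := x * (zeta g)⁻¹ with hu
  have hU := hx.un
  have hvz : p * u * zeta g = p * x := by rw [mul_assoc, hzx]
  -- the two cases
  have hcases : (1 < p ∧ p < u ∧ u < p * u) ∨ (1 < p * u ∧ p * u < u ∧ u < p) := by
    have hp := one_le p
    have hv := one_le (p * u)
    rcases hc with ⟨h1, h2⟩ | ⟨h1, h2⟩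
    · left
      rcases h1 with h1 | h1 | h1
      · refine ⟨h1.1, h1.2, ?_⟩
        rcases h2 with h2 | h2 | h2
        · exact h2.1
        · exact absurd h2.1 (not_lt.2 hv)
        · exact h2.2
      · exact absurd h1.2 (not_lt.2 h1u.le)
      · exact absurd h1.1 (not_lt.2 h1u.le)
    · right
      rcases h1 with h1 | h1 | h1
      · refine ⟨h1.1, h1.2, ?_⟩
        rcases h2 with h2 | h2 | h2
        · exact h2.1
        · exact absurd h2.1 (not_lt.2 hp)
        · exact h2.2
      · exact absurd h1.2 (not_lt.2 h1u.le)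
      · exact absurd h1.1 (not_lt.2 h1u.le)
  rcases hcases with ⟨h1, h2, h3⟩ | ⟨h1, h2, h3⟩
  · -- `p` in the interval
    have h4 : x ≤ p * u := by
      have := (succ_le h3).2
      rwa [hzx] at this
    by_cases hpx : p * x = 1
    · have hp : p = x⁻¹ := eq_inv_of_mul_eq_one_left hpx
      have h5 : x⁻¹ < x := by
        rw [← hp]
        exact h2.trans hux
      exact absurd h (not_lt.2 h5.le)
    · have h5 : p * u < p * x := by
        have h6 := pred_lt hpx
        rw [mul_assoc] at h6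
        exact h6
      exact hU p (PO_cr_right h1 (h2.trans hux) (lt_of_le_of_lt h4 h5))
  · -- the other end in the interval
    have h4 : x ≤ p := by
      have := (succ_le h3).2
      rwa [hzx] at this
    by_cases hpx : p * x = 1
    · have h5 : p * u = (zeta g)⁻¹ := by
        rw [hu, ← mul_assoc, hpx, one_mul]
      rw [h5] at h2
      exact absurd h2 (not_lt.2 (le_zeta_inv _))
    · have h5 : p * x ≤ u := by
        have := (succ_le h2).2
        rwa [hvz] at this
      have h6 : (1 : F g) < p * x := one_lt hpx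
      have h7 : p * x < x := lt_of_le_of_lt h5 hux
      rcases eq_or_lt_of_le h4 with h8 | h8
      · rw [← h8] at h7
        have h9 := (pow_ord hx h).1 1
        rw [pow_one, show (1 : ℕ) + 1 = 2 by norm_num, pow_two] at h9
        exact absurd h9 (not_lt.2 h7.le)
      · exact hU p (cr_swap2.1 (PO_cr_right h6 h7 h8))

end TorP
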