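import Pool.Agent.Lib.MP_05cdf2_gt.P.PPa

/-! MP_05cdf2_gt, job P.PP. The push along a simple loop, as an element of `Gam g`.

`Pu x` is a push along `x` (by choice, `exists_push`). `P x = x` by `fm_self`, `P ζ = ζ` by `fm_zeta` (`ζ` is simple and
unlinked with everything).
`Pu x⁻¹` and `Pu x` are inverse to each other: on an unlinked basis unlinked with `x` (`exists_ub` with `Y = {x}`; its
elements are simple and non trivial):
`Pu x⁻¹ (zn x b * b * (zn x b⁻¹)⁻¹) = zn x b * (Pu x⁻¹ b) * (zn x b⁻¹)⁻¹` by `zn_fix`, and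
`Pu x⁻¹ b = (zn x b)⁻¹ * b * zn x b⁻¹` by `zn_inv`.
(In these files `inv_inv` is the lemma `TorM.inv_inv`: write `_root_.inv_inv`.) -/

set_option autoImplicit false

namespace TorP
open TorM TorG

variable {g : ℕ}

/-- two homomorphisms which agree on an unlinked basis are equal -/
theorem PP_hom_ext {n : ℕ} {e : Fin n → F g} (he : UB e) {H : Type} [Group H] {P Q : F g →* H}
    (h : ∀ i, P (e i) = Q (e i)) : P = Q := by
  have h1 : P.comp (FreeGroup.lift e) = Q.comp (FreeGroup.lift e) := by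
    refine FreeGroup.ext_hom _ _ fun i => ?_
    rw [MonoidHom.comp_apply, MonoidHom.comp_apply, FreeGroup.lift_apply_of]
    exact h i
  refine MonoidHom.ext fun w => ?_
  obtain ⟨v, rfl⟩ := he.bij.2 w
  exact DFunLike.congr_fun h1 v

theorem PP_ub_ne {n : ℕ} {e : Fin n → F g} (he : UB e) (i : Fin n) : e i ≠ 1 := by
  intro h
  have h1 : FreeGroup.lift e (FreeGroup.of i) = FreeGroup.lift e 1 := by
    rw [FreeGroup.lift_apply_of, map_one]
    exact h
  exact FreeGroup.of_ne_one i (he.bij.1 h1)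

theorem PP_smp_ub {n : ℕ} {e : Fin n → F g} (he : UB e) (i : Fin n) : Smp (e i) :=
  ⟨PP_ub_ne he i, he.sys _ ⟨i, rfl⟩ _ ⟨i, rfl⟩⟩

theorem PP_exists_ub {x : F g} (hx : Smp x) : ∃ e : Fin (2 * g) → F g, UB e ∧ ∀ i, U x (e i) := by
  obtain ⟨e, he, h⟩ := exists_ub ({x} : Finset (F g)) (by
    intro a ha b hb
    rw [Finset.coe_singleton, Set.mem_singleton_iff] at ha hb
    rw [ha, hb]
    exact hx.un)
  exact ⟨e, he, fun i => h x (Finset.mem_singleton_self x) i⟩

open Classical in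
/-- the push along `x` -/
noncomputable def Pu (x : F g) : F g →* F g :=
  if h : ∃ P : F g →* F g, PushOf x P then h.choose else MonoidHom.id _

theorem Pu_spec {x : F g} (hx : Smp x) : PushOf x (Pu x) := by
  unfold Pu
  rw [dif_pos (exists_push hx)]
  exact (exists_push hx).choose_spec

theorem Pu_self {x : F g} (hx : Smp x) : Pu x x = x :=
  (Pu_spec hx x hx hx.un).trans (fm_self x)

theorem Pu_zeta {x : F g} (hx : Smp x) : Pu x (zeta g) = zeta g :=
  (Pu_spec hx (zeta g) (smp_zeta (pos_g hx.ne)) (U_zeta' x)).trans (fm_zeta hx.ne)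

theorem Pu_inv_comp {x : F g} (hx : Smp x) : (Pu x⁻¹).comp (Pu x) = MonoidHom.id _ := by
  obtain ⟨e, he, hex⟩ := PP_exists_ub hx
  refine PP_hom_ext he fun i => ?_
  have hb := PP_smp_ub he i
  have h1 : Pu x (e i) = zn x (e i) * e i * (zn x (e i)⁻¹)⁻¹ := Pu_spec hx (e i) hb (hex i)
  have h2 : Pu x⁻¹ (e i) = zn x⁻¹ (e i) * e i * (zn x⁻¹ (e i)⁻¹)⁻¹ :=
    Pu_spec hx.inv (e i) hb (hex i).inv_left
  rw [zn_inv hx.ne, zn_inv hx.ne] at h2
  have h3 : Pu x⁻¹ x = x := by
    have h4 := Pu_self hx.inv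
    rw [map_inv] at h4
    exact inv_injective h4
  have h5 := Pu_zeta hx.inv
  rw [MonoidHom.comp_apply, MonoidHom.id_apply, h1, map_mul, map_mul, map_inv, zn_fix x (e i) h3 h5,
    zn_fix x (e i)⁻¹ h3 h5, h2]
  group

open Classical in
/-- the push along `x`, as an element of `Gam g` -/
noncomputable def PuG (x : F g) : Gam g :=
  if h : Smp x then
    ⟨mkAut (Pu x) (Pu x⁻¹) (Pu_inv_comp h) (by
      have := Pu_inv_comp h.inv
      rwa [_root_.inv_inv] at this), by
      show Pu x (zeta g) = zeta g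
      exact Pu_zeta h⟩
  else 1

theorem PuG_apply {x : F g} (hx : Smp x) (w : F g) : ((PuG x : Gam g) : MulAut (F g)) w = Pu x w := by
  unfold PuG
  rw [dif_pos hx]
  rfl

/-- the value at a simple loop unlinked with `x` -/
theorem PuG_val {x b : F g} (hx : Smp x) (hb : Smp b) (h : U x b) :
    ((PuG x : Gam g) : MulAut (F g)) b = fm x b :=
  (PuG_apply hx b).trans (Pu_spec hx b hb h)

theorem PuG_self {x : F g} (hx : Smp x) : ((PuG x : Gam g) : MulAut (F g)) x = x :=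
  (PuG_apply hx x).trans (Pu_self hx)

theorem Gam_zeta (φ : Gam g) : (φ : MulAut (F g)) (zeta g) = zeta g := φ.2

theorem PuG_inv {x : F g} (hx : Smp x) : PuG x⁻¹ = (PuG x)⁻¹ := by
  refine eq_inv_of_mul_eq_one_left ?_
  refine Subtype.ext (MulEquiv.ext fun w => ?_)
  show ((PuG x⁻¹ : Gam g) : MulAut (F g)) (((PuG x : Gam g) : MulAut (F g)) w) = w
  rw [PuG_apply hx, PuG_apply hx.inv]
  exact DFunLike.congr_fun (Pu_inv_comp hx) w

theorem smp_map (φ : Gam g) {x : F g} (hx : Smp x) : Smp ((φ : MulAut (F g)) x) := by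
  refine ⟨fun h => hx.ne ?_, (aut_U (φ : MulAut (F g)) φ.2).mpr hx.un⟩
  have h1 : (φ : MulAut (F g)) x = (φ : MulAut (F g)) 1 := by
    rw [h, map_one]
  exact (φ : MulAut (F g)).injective h1

/-- equivariance: `φ ∘ Pu x ∘ φ⁻¹` is a push along `φ x` (`fm_map`, `aut_U`), and `push_ext` -/
theorem PuG_map (φ : Gam g) {x : F g} (hx : Smp x) : PuG ((φ : MulAut (F g)) x) = φ * PuG x * φ⁻¹ := by
  have hQ : PushOf ((φ : MulAut (F g)) x)
      (((φ : MulAut (F g)).toMonoidHom.comp (Pu x)).comp ((φ⁻¹ : Gam g) : MulAut (F g)).toMonoidHom) := by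
    intro b hb hU
    have hb' : Smp (((φ⁻¹ : Gam g) : MulAut (F g)) b) := smp_map φ⁻¹ hb
    have hbb : (φ : MulAut (F g)) (((φ⁻¹ : Gam g) : MulAut (F g)) b) = b := by
      show ((φ * φ⁻¹ : Gam g) : MulAut (F g)) b = b
      rw [mul_inv_cancel]
      rfl
    have hU' : U x (((φ⁻¹ : Gam g) : MulAut (F g)) b) := by
      rw [← aut_U (φ : MulAut (F g)) φ.2, hbb]
      exact hU
    have h1 : Pu x (((φ⁻¹ : Gam g) : MulAut (F g)) b) = fm x (((φ⁻¹ : Gam g) : MulAut (F g)) b) :=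
      Pu_spec hx _ hb' hU'
    show (φ : MulAut (F g)) (Pu x (((φ⁻¹ : Gam g) : MulAut (F g)) b)) = fm ((φ : MulAut (F g)) x) b
    rw [h1, ← fm_map, hbb]
  have hE := push_ext (smp_map φ hx) (Pu_spec (smp_map φ hx)) hQ
  refine Subtype.ext (MulEquiv.ext fun w => ?_)
  rw [PuG_apply (smp_map φ hx), hE]
  show (φ : MulAut (F g)) (Pu x (((φ⁻¹ : Gam g) : MulAut (F g)) w)) =
    (φ : MulAut (F g)) (((PuG x : Gam g) : MulAut (F g)) (((φ⁻¹ : Gam g) : MulAut (F g)) w))
  rw [PuG_apply hx]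

/-- `zn_zeta`: the push along `ζ` is the boundary twist -/
theorem PuG_zeta (hg : 0 < g) : PuG (zeta g) = cz g := by
  have hz := smp_zeta hg
  obtain ⟨e, he, hex⟩ := PP_exists_ub hz
  have h1 : Pu (zeta g) = (MulAut.conj (zeta g)).toMonoidHom := by
    refine PP_hom_ext he fun i => ?_
    have hb := PP_smp_ub he i
    have h2 : Pu (zeta g) (e i) = zn (zeta g) (e i) * e i * (zn (zeta g) (e i)⁻¹)⁻¹ :=
      Pu_spec hz (e i) hb (hex i)
    rw [h2, zn_zeta hb.ne, zn_zeta (inv_ne_one.mpr hb.ne)]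
    rfl
  refine Subtype.ext (MulEquiv.ext fun w => ?_)
  rw [PuG_apply hz, h1]
  rfl

/-- modulo `Rz`, the push along `x` is the conjugation by `x`: true on an unlinked basis unlinked with `x`, by
`zn_mod` -/
theorem PuG_mod {x : F g} (hx : Smp x) (w : F g) :
    ((PuG x : Gam g) : MulAut (F g)) w * (x * w * x⁻¹)⁻¹ ∈ Rz g := by
  obtain ⟨e, he, hex⟩ := PP_exists_ub hx
  have hzn : ∀ v : F g, QuotientGroup.mk' (Rz g) (zn x v) = QuotientGroup.mk' (Rz g) x := by
    intro v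
    have h2 := zn_mod x v
    rw [← div_eq_mul_inv] at h2
    exact QuotientGroup.eq_iff_div_mem.mpr h2
  have h1 : (QuotientGroup.mk' (Rz g)).comp (Pu x) =
      (QuotientGroup.mk' (Rz g)).comp (MulAut.conj x).toMonoidHom := by
    refine PP_hom_ext he fun i => ?_
    have hb := PP_smp_ub he i
    have h2 : Pu x (e i) = zn x (e i) * e i * (zn x (e i)⁻¹)⁻¹ := Pu_spec hx (e i) hb (hex i)
    rw [MonoidHom.comp_apply, h2, map_mul, map_mul, map_inv, hzn, hzn]
    rfl
  rw [PuG_apply hx, ← div_eq_mul_inv]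
  exact QuotientGroup.eq_iff_div_mem.mp (DFunLike.congr_fun h1 w)

theorem cz_comm (φ : Gam g) : φ * cz g = cz g * φ := by
  refine Subtype.ext (MulEquiv.ext fun w => ?_)
  show (φ : MulAut (F g)) (((cz g : Gam g) : MulAut (F g)) w) =
    ((cz g : Gam g) : MulAut (F g)) ((φ : MulAut (F g)) w)
  rw [cz_apply, cz_apply, map_mul, map_mul, map_inv, Gam_zeta]

theorem cz_zpow_apply (k : ℤ) (w : F g) :
    ((cz g ^ k : Gam g) : MulAut (F g)) w = zeta g ^ k * w * (zeta g ^ k)⁻¹ := by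
  have h1 : ((cz g ^ k : Gam g) : MulAut (F g)) = MulAut.conj (zeta g ^ k) := by
    rw [Subgroup.coe_zpow, map_zpow]
    rfl
  rw [h1]
  rfl

/-- two elements of `Gam g` which agree on an unlinked basis are equal -/
theorem Gam_ext_ub {n : ℕ} {e : Fin n → F g} (he : UB e) {φ ψ : Gam g}
    (h : ∀ i, (φ : MulAut (F g)) (e i) = (ψ : MulAut (F g)) (e i)) : φ = ψ := by
  have h1 : (φ : MulAut (F g)).toMonoidHom = (ψ : MulAut (F g)).toMonoidHom :=
    PP_hom_ext he fun i => h i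
  exact Subtype.ext (MulEquiv.ext fun w => DFunLike.congr_fun h1 w)

theorem smp_ub {n : ℕ} {e : Fin n → F g} (he : UB e) (i : Fin n) : Smp (e i) :=
  PP_smp_ub he i

end TorP
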