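import Pool.Agent.Lib.MP_05cdf2_gt.P.PG
import Pool.Agent.Lib.MP_05cdf2_gt.P.PF

/-! MP_05cdf2_gt, job P.PPa. Existence and uniqueness of the push along a simple loop.

`exists_push`: let `e` be an unlinked basis unlinked with `x` (`exists_ub` with `Y = {x}`), and let `P` be the
endomorphism with `P (e i) = fm x (e i)` (through the isomorphism `FreeGroup.lift e`: `he.bij`; e.g.
`P = (FreeGroup.lift fun i => fm x (e i)).comp (MulEquiv.ofBijective _ he.bij).symm.toMonoidHom`). Let `b` be simple,
unlinked with `x`. Let `Q s` be: `∀ a ∈ s, a ≠ 1 → Good x P a`. It is preserved from `s` to `s'` if both are filling and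
`Sys (s ∪ s' ∪ {x})`: `s` contains an unlinked basis (`exists_ub_of`), on which `P` is good, and `poly_good` gives
`Good` on the elements of `s'`. Apply `flow_to` with `Y = {x}`, `B = [b]` and `s = image e` (`fil_of_ub`):
one gets a filling system `s'`, unlinked with `x` and `b`, on which `P` is good; `exists_ub_of`
and `poly_good` give `Good x P b`.
`push_ext`: two endomorphisms with `PushOf x` agree on an unlinked basis unlinked with `x`, whose elements are simple
and non trivial. -/

set_option autoImplicit false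

namespace TorP
open TorM TorG

variable {g : ℕ}

/-- `P` is a push along `x` -/
def PushOf (x : F g) (P : F g →* F g) : Prop := ∀ b : F g, Smp b → U x b → Good x P b

private theorem PPa_ne {n : ℕ} {e : Fin n → F g} (he : UB e) (l : Fin n) : e l ≠ 1 := by
  intro h
  have h1 : FreeGroup.lift e (FreeGroup.of l) = FreeGroup.lift e 1 := by
    rw [FreeGroup.lift_apply_of, map_one, h]
  exact FreeGroup.of_ne_one l (he.bij.1 h1)

private theorem PPa_sys {x : F g} (hx : Smp x) : Sys (((({x} : Finset (F g)) : Set (F g)))) := by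
  intro a ha b hb
  rw [Finset.coe_singleton, Set.mem_singleton_iff] at ha hb
  rw [ha, hb]
  exact hx.un

theorem exists_push {x : F g} (hx : Smp x) : ∃ P : F g →* F g, PushOf x P := by
  classical
  obtain ⟨e, he, heY⟩ := exists_ub ({x} : Finset (F g)) (PPa_sys hx)
  have hxe : ∀ i, U x (e i) := fun i => heY x (Finset.mem_singleton_self x) i
  set eq : FreeGroup (Fin (2 * g)) ≃* F g := MulEquiv.ofBijective (FreeGroup.lift e) he.bij with heq
  set P : F g →* F g := (FreeGroup.lift fun i => fm x (e i)).comp eq.symm.toMonoidHom with hP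
  have hPe : ∀ i, Good x P (e i) := by
    intro i
    show (FreeGroup.lift fun i => fm x (e i)) (eq.symm (e i)) = fm x (e i)
    have h1 : eq (FreeGroup.of i) = e i := by
      show FreeGroup.lift e (FreeGroup.of i) = e i
      rw [FreeGroup.lift_apply_of]
    rw [← h1, MulEquiv.symm_apply_apply, FreeGroup.lift_apply_of, h1]
  refine ⟨P, fun b hb hxb => ?_⟩
  obtain ⟨s', hs', hsys', hQ', hbs'⟩ := flow_to ({x} : Finset (F g)) [b]
    (by
      intro a ha c hc
      have ha' : a = b := by simpa using ha
      have hc' : c = b := by simpa using hc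
      rw [ha', hc']
      exact hb.un)
    (by
      intro y hy τ hτ
      rw [Finset.mem_singleton] at hy
      rw [List.mem_singleton] at hτ
      rw [hy, hτ]
      exact hxb)
    (fun s => ∀ a ∈ s, a ≠ 1 → Good x P a)
    (by
      intro s s' hs hs' hsys hQ a ha ha1
      have hsys1 : Sys (s : Set (F g)) := fun c hc d hd =>
        hsys c (Or.inl (Or.inl hc)) d (Or.inl (Or.inl hd))
      obtain ⟨e', he', hin⟩ := exists_ub_of hs hsys1
      have hxm : x ∈ ((s : Set (F g)) ∪ s' ∪ (({x} : Finset (F g)) : Set (F g))) :=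
        Or.inr (Finset.mem_coe.2 (Finset.mem_singleton_self x))
      have ham : a ∈ ((s : Set (F g)) ∪ s' ∪ (({x} : Finset (F g)) : Set (F g))) :=
        Or.inl (Or.inr (Finset.mem_coe.2 ha))
      have hem : ∀ l, e' l ∈ ((s : Set (F g)) ∪ s' ∪ (({x} : Finset (F g)) : Set (F g))) :=
        fun l => Or.inl (Or.inl (Finset.mem_coe.2 (hin l)))
      exact poly_good he' hx (fun l => hsys _ (hem l) _ hxm)
        (fun l => hQ _ (hin l) (PPa_ne he' l)) ha1 (fun l => hsys _ (hem l) _ ham)
        (hsys _ hxm _ ham))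
    (Finset.univ.image e) (fil_of_ub he)
    (by
      intro a ha c hc
      have hcase : ∀ d : F g, d ∈ (((Finset.univ.image e : Finset (F g)) : Set (F g)) ∪
          (({x} : Finset (F g)) : Set (F g))) → (∃ i, e i = d) ∨ d = x := by
        intro d hd
        rcases hd with hd | hd
        · obtain ⟨i, -, hi⟩ := Finset.mem_image.1 (Finset.mem_coe.1 hd)
          exact Or.inl ⟨i, hi⟩
        · exact Or.inr (Finset.mem_singleton.1 (Finset.mem_coe.1 hd))
      rcases hcase a ha with ⟨i, rfl⟩ | rfl
      · rcases hcase c hc with ⟨j, rfl⟩ | rfl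
        · exact he.sys _ ⟨i, rfl⟩ _ ⟨j, rfl⟩
        · exact (hxe i).symm
      · rcases hcase c hc with ⟨j, rfl⟩ | rfl
        · exact hxe j
        · exact hx.un)
    (by
      intro a ha _
      obtain ⟨i, -, rfl⟩ := Finset.mem_image.1 ha
      exact hPe i)
  have hsys1 : Sys (s' : Set (F g)) := fun c hc d hd => hsys' c (Or.inl hc) d (Or.inl hd)
  obtain ⟨e', he', hin⟩ := exists_ub_of hs' hsys1
  exact poly_good he' hx
    (fun l => hsys' _ (Or.inl (Finset.mem_coe.2 (hin l))) _
      (Or.inr (Finset.mem_coe.2 (Finset.mem_singleton_self x))))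
    (fun l => hQ' _ (hin l) (PPa_ne he' l)) hb.ne
    (fun l => (hbs' b (List.mem_singleton.2 rfl) _ (hin l)).symm) hxb

theorem push_ext {x : F g} (hx : Smp x) {P Q : F g →* F g} (hP : PushOf x P) (hQ : PushOf x Q) : P = Q := by
  obtain ⟨e, he, heY⟩ := exists_ub ({x} : Finset (F g)) (PPa_sys hx)
  have hxe : ∀ i, U x (e i) := fun i => heY x (Finset.mem_singleton_self x) i
  have hsm : ∀ i, Smp (e i) := fun i => ⟨PPa_ne he i, he.sys _ ⟨i, rfl⟩ _ ⟨i, rfl⟩⟩
  have h1 : P.comp (FreeGroup.lift e) = Q.comp (FreeGroup.lift e) := by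
    apply FreeGroup.ext_hom
    intro i
    rw [MonoidHom.comp_apply, MonoidHom.comp_apply, FreeGroup.lift_apply_of]
    exact (hP _ (hsm i) (hxe i)).trans (hQ _ (hsm i) (hxe i)).symm
  apply MonoidHom.ext
  intro y
  obtain ⟨z, rfl⟩ := he.bij.2 y
  exact congrArg (fun φ : FreeGroup (Fin (2 * g)) →* F g => φ z) h1

end TorP
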