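import Pool.Agent.Lib.MP_05cdf2_gt.P.PRa
import Pool.Agent.Lib.MP_05cdf2_gt.P.PO
import Pool.Agent.Lib.MP_05cdf2_gt.P.PP

/-! MP_05cdf2_gt, job P.PR. The triangle relation of pushes.

`z = x * y`.
(1) `tri_rel_ccw`: assume `x < z`. Then `Cyc 1 x z`, so by `cyc_mul`: `y < x⁻¹` (multiply by `x⁻¹`: `Cyc x⁻¹ 1 y`) and
`z⁻¹ < y⁻¹` (multiply by `z⁻¹`: `Cyc z⁻¹ y⁻¹ 1`). If `s` is unlinked with `x, y, z` then `Out x y z s`:
`x < s < z` would be a crossing of `{1, s}` with `{x, z} = {x, x * y}`; `y < s < x⁻¹` with `{x⁻¹, y} = {x⁻¹, x⁻¹ * z}`;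
`z⁻¹ < s < y⁻¹` with `{z⁻¹, y⁻¹} = {z⁻¹, z⁻¹ * x}`. The germs are distinct: `x = y` gives `z = x * x`, against `no_sq`;
`x = y⁻¹` gives `z = 1`; `x = z⁻¹` gives `y = x⁻¹ * x⁻¹`, against `no_sq` for `x⁻¹`; `y = z` gives `x = 1`;
`y = z⁻¹` gives `x = y⁻¹ * y⁻¹`, against `no_sq` for `y⁻¹`; `ne_inv`. Take `k` from `tri_id`, and an unlinked basis `e`
unlinked with `x, y, z` (`exists_ub` with `Y = {x, y, z}`). By `Gam_ext_ub` it is enough to compare at `d = e i`,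
which is simple and unlinked with `x, y, z`, as `d⁻¹`.
`(PuG x * PuG y) d = Pu x (fm y d)` and `(PuG z * cz ^ k) d = ζ^k * fm z d * ζ^(-k)` (`PuG_val`, `cz_zpow_apply`,
`Gam_zeta`). If `d` is not one of the six germs: `Pu x (fm y d) = Pu x (zn y d) * fm x d * (Pu x (zn y d⁻¹))⁻¹` and
`Pu x (zn y d) * zn x d = ζ^k * zn z d` (`map_zn`, `tri_id`), and the same with `d⁻¹`.
If `d = x` (or `x⁻¹`): `Pu x (fm y x) = zf y (fm x y) x * x * (zf y (fm x y) x⁻¹)⁻¹`, second identity of `tri_id`.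
If `d = y` (or `y⁻¹`): `fm y y = y` (`fm_self`), `Pu x y = fm x y`, third identity. If `d = z^{±1}`: `z = x * y`, both
sides are homomorphisms, and they agree at `x` and `y` (the same computations are valid for `x` and `y` although they
need not be in the basis).
(2) `tri_rel`: `x ≠ z`; if `z < x`, apply (1) to `(y⁻¹, x⁻¹)`, whose product is `z⁻¹`: `Cyc 1 z x`, so (multiply by
`z⁻¹`) `Cyc z⁻¹ 1 y⁻¹`, i.e. `y⁻¹ < z⁻¹`. It gives `PuG y⁻¹ * PuG x⁻¹ = PuG z⁻¹ * cz ^ k`; take inverses (`PuG_inv`,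
`cz` is central: `cz_comm`). -/

set_option autoImplicit false

namespace TorP
open TorM TorG

variable {g : ℕ}

theorem out_of_U {x y s : F g} (hx1 : x ≠ 1) (h : x < x * y) (h1 : U s x) (h2 : U s y) (h3 : U s (x * y)) :
    Out x y (x * y) s := by
  have hy1 : y ≠ 1 := by
    rintro rfl
    rw [mul_one] at h
    exact lt_irrefl _ h
  have hx0 := one_lt hx1
  have hy0 := one_lt hy1
  have hz0 : 1 < (x * y)⁻¹ := one_lt (inv_ne_one.mpr (ne_of_gt (hx0.trans h)))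
  refine ⟨?_, ?_, ?_⟩
  · rintro ⟨k1, k2⟩
    refine h2 x (Or.inl ⟨Or.inl ⟨hx0, k1⟩, Or.inr (Or.inr ⟨hx0.trans k1, k2⟩)⟩)
  · rintro ⟨k1, k2⟩
    have h4 := h3 x⁻¹
    rw [inv_mul_cancel_left] at h4
    exact h4 (Or.inr ⟨Or.inl ⟨hy0, k1⟩, Or.inr (Or.inr ⟨hy0.trans k1, k2⟩)⟩)
  · rintro ⟨k1, k2⟩
    have h4 := h1 (x * y)⁻¹
    have e1 : (x * y)⁻¹ * x = y⁻¹ := by group
    rw [e1] at h4
    exact h4 (Or.inl ⟨Or.inl ⟨hz0, k1⟩, Or.inr (Or.inr ⟨hz0.trans k1, k2⟩)⟩)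

theorem tri_rel_ccw {x y : F g} (hx : Smp x) (hy : Smp y) (hz : Smp (x * y)) (h1 : U x y)
    (h2 : U x (x * y)) (h3 : U y (x * y)) (h : x < x * y) :
    ∃ k : ℤ, PuG x * PuG y = PuG (x * y) * cz g ^ k := by
  obtain ⟨z, hzd⟩ : ∃ z, z = x * y := ⟨_, rfl⟩
  rw [← hzd] at hz h2 h3 h ⊢
  have hout : ∀ s : F g, U s x → U s y → U s z → Out x y z s := by
    intro s k1 k2 k3
    rw [hzd] at k3 h ⊢
    exact out_of_U hx.ne h k1 k2 k3
  have hx0 := one_lt hx.ne
  have hcyc : Cyc 1 x z := Or.inl ⟨hx0, h⟩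
  have hB : y < x⁻¹ := by
    have k1 := (cyc_mul x⁻¹ 1 x z).mpr hcyc
    rw [mul_one, inv_mul_cancel, hzd, inv_mul_cancel_left] at k1
    have k2 := not_lt.mpr (one_le x⁻¹)
    unfold Cyc at k1
    tauto
  have hC : z⁻¹ < y⁻¹ := by
    have k1 := (cyc_mul z⁻¹ 1 x z).mpr hcyc
    have e1 : z⁻¹ * x = y⁻¹ := by rw [hzd]; group
    rw [mul_one, inv_mul_cancel, e1] at k1
    have k2 := not_lt.mpr (one_le y⁻¹)
    unfold Cyc at k1
    tauto
  have d4 : x ≠ y := by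
    rintro rfl
    rw [hzd] at hz
    exact no_sq hx hz.un
  have d5 : x ≠ y⁻¹ := by
    rintro rfl
    rw [inv_mul_cancel] at hzd
    exact hz.ne hzd
  have d6 : x ≠ z⁻¹ := by
    intro k
    have k' : x * z = 1 := by rw [k, inv_mul_cancel]
    rw [hzd] at k'
    have e1 : y = x⁻¹ * x⁻¹ := by
      calc y = x⁻¹ * x⁻¹ * (x * (x * y)) := by group
        _ = x⁻¹ * x⁻¹ := by rw [k', mul_one]
    have k2 := hy.un
    rw [e1] at k2
    exact no_sq hx.inv k2
  have d7 : y ≠ z := by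
    intro k
    rw [hzd] at k
    exact hx.ne (right_eq_mul.mp k)
  have d8 : y ≠ z⁻¹ := by
    intro k
    have k' : z * y = 1 := by rw [k, mul_inv_cancel]
    rw [hzd] at k'
    have e1 : x = y⁻¹ * y⁻¹ := by
      calc x = (x * y * y) * (y⁻¹ * y⁻¹) := by group
        _ = y⁻¹ * y⁻¹ := by rw [k', one_mul]
    have k2 := hx.un
    rw [e1] at k2
    exact no_sq hy.inv k2
  obtain ⟨k, hk1, hk2, hk3⟩ := tri_id hzd.symm h hB hC (ne_inv hx.ne) (ne_inv hy.ne)
    (ne_inv hz.ne) d4 d5 d6 d7 d8 (hout x hx.un h1 h2) (hout x⁻¹ hx.un.inv_left h1.inv_left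
    h2.inv_left) (hout y h1.symm hy.un h3) (hout y⁻¹ h1.symm.inv_left hy.un.inv_left h3.inv_left)
    (hout z h2.symm h3.symm hz.un) (hout z⁻¹ h2.symm.inv_left h3.symm.inv_left hz.un.inv_left)
  refine ⟨k, ?_⟩
  -- the values of the two sides
  set P : MulAut (F g) := ((PuG x : Gam g) : MulAut (F g)) with hP
  have hPz : P (zeta g) = zeta g := Gam_zeta _
  have hPx : P x = x := PuG_self hx
  have hPy : P y = fm x y := PuG_val hx hy h1
  have hPzn : ∀ d, P (zn y d) = zf y (fm x y) d := by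
    intro d
    have k1 := map_zn (P := P.toMonoidHom) hPz y d
    have k2 : P.toMonoidHom (zn y d) = P (zn y d) := rfl
    have k3 : P.toMonoidHom y = P y := rfl
    rw [k2, k3, hPy] at k1
    exact k1
  have hL : ∀ d, Smp d → U y d → (((PuG x * PuG y : Gam g) : MulAut (F g)) d) =
      zf y (fm x y) d * P d * (zf y (fm x y) d⁻¹)⁻¹ := by
    intro d k1 k2
    have k3 : (((PuG x * PuG y : Gam g) : MulAut (F g)) d) =
        P (((PuG y : Gam g) : MulAut (F g)) d) := rfl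
    rw [k3, PuG_val hy k1 k2]
    unfold fm
    rw [map_mul, map_mul, map_inv, hPzn, hPzn]
    rfl
  have hR : ∀ d, Smp d → U z d → (((PuG z * cz g ^ k : Gam g) : MulAut (F g)) d) =
      zeta g ^ k * fm z d * (zeta g ^ k)⁻¹ := by
    intro d k1 k2
    have k3 : (((PuG z * cz g ^ k : Gam g) : MulAut (F g)) d) =
        ((PuG z : Gam g) : MulAut (F g)) (((cz g ^ k : Gam g) : MulAut (F g)) d) := rfl
    rw [k3, cz_zpow_apply, map_mul, map_mul, map_inv, map_zpow, Gam_zeta, PuG_val hz k1 k2]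
  have hEx : (((PuG x * PuG y : Gam g) : MulAut (F g)) x) =
      (((PuG z * cz g ^ k : Gam g) : MulAut (F g)) x) := by
    rw [hL x hx h1.symm, hR x hx h2.symm, hPx]
    exact hk2
  have hEy : (((PuG x * PuG y : Gam g) : MulAut (F g)) y) =
      (((PuG z * cz g ^ k : Gam g) : MulAut (F g)) y) := by
    have k3 : (((PuG x * PuG y : Gam g) : MulAut (F g)) y) =
        P (((PuG y : Gam g) : MulAut (F g)) y) := rfl
    rw [hR y hy h3.symm, k3, PuG_self hy, hPy]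
    exact hk3
  have hEz : (((PuG x * PuG y : Gam g) : MulAut (F g)) z) =
      (((PuG z * cz g ^ k : Gam g) : MulAut (F g)) z) := by
    rw [hzd, map_mul, map_mul, ← hzd, hEx, hEy]
  have hsys : Sys ((({x, y, z} : Finset (F g))) : Set (F g)) := by
    intro a ha b hb
    simp only [Finset.coe_insert, Finset.coe_singleton, Set.mem_insert_iff,
      Set.mem_singleton_iff] at ha hb
    rcases ha with rfl | rfl | rfl <;> rcases hb with rfl | rfl | rfl
    · exact hx.un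
    · exact h1
    · exact h2
    · exact h1.symm
    · exact hy.un
    · exact h3
    · exact h2.symm
    · exact h3.symm
    · exact hz.un
  obtain ⟨e, he, heU⟩ := exists_ub {x, y, z} hsys
  refine Gam_ext_ub he fun i => ?_
  have u1 : U x (e i) := heU x (by simp) i
  have u2 : U y (e i) := heU y (by simp) i
  have u3 : U z (e i) := heU z (by simp) i
  have us : Smp (e i) := smp_ub he i
  generalize e i = d at u1 u2 u3 us
  by_cases c1 : d = x
  · rw [c1]; exact hEx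
  by_cases c2 : d = x⁻¹
  · rw [c2, map_inv, map_inv, hEx]
  by_cases c3 : d = y
  · rw [c3]; exact hEy
  by_cases c4 : d = y⁻¹
  · rw [c4, map_inv, map_inv, hEy]
  by_cases c5 : d = z
  · rw [c5]; exact hEz
  by_cases c6 : d = z⁻¹
  · rw [c6, map_inv, map_inv, hEz]
  have g1 := hk1 d (hout d u1.symm u2.symm u3.symm) c1 c2 c3 c4 c5 c6
  have g2 := hk1 d⁻¹ (hout d⁻¹ u1.symm.inv_left u2.symm.inv_left u3.symm.inv_left)
    (fun k => c2 (by rw [← k, _root_.inv_inv])) (fun k => c1 (inv_injective k))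
    (fun k => c4 (by rw [← k, _root_.inv_inv])) (fun k => c3 (inv_injective k))
    (fun k => c6 (by rw [← k, _root_.inv_inv])) (fun k => c5 (inv_injective k))
  rw [hL d us u2, hR d us u3]
  have e1 : P d = fm x d := PuG_val hx us u1
  rw [e1]
  unfold fm at *
  calc zf y (zn x y * y * (zn x y⁻¹)⁻¹) d * (zn x d * d * (zn x d⁻¹)⁻¹) *
        (zf y (zn x y * y * (zn x y⁻¹)⁻¹) d⁻¹)⁻¹
      = (zf y (zn x y * y * (zn x y⁻¹)⁻¹) d * zn x d) * d *
        (zf y (zn x y * y * (zn x y⁻¹)⁻¹) d⁻¹ * zn x d⁻¹)⁻¹ := by group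
    _ = (zeta g ^ k * zn z d) * d * (zeta g ^ k * zn z d⁻¹)⁻¹ := by rw [g1, g2]
    _ = zeta g ^ k * (zn z d * d * (zn z d⁻¹)⁻¹) * (zeta g ^ k)⁻¹ := by group

theorem tri_rel {x y : F g} (hx : Smp x) (hy : Smp y) (hz : Smp (x * y)) (h1 : U x y)
    (h2 : U x (x * y)) (h3 : U y (x * y)) : ∃ k : ℤ, PuG x * PuG y = PuG (x * y) * cz g ^ k := by
  rcases lt_trichotomy x (x * y) with h | h | h
  · exact tri_rel_ccw hx hy hz h1 h2 h3 h
  · exact absurd (left_eq_mul.mp h) hy.ne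
  · have e0 : y⁻¹ * x⁻¹ = (x * y)⁻¹ := (mul_inv_rev x y).symm
    have hlt : y⁻¹ < y⁻¹ * x⁻¹ := by
      have k1 := (cyc_mul (x * y)⁻¹ 1 (x * y) x).mpr (Or.inl ⟨one_lt hz.ne, h⟩)
      have e1 : (x * y)⁻¹ * x = y⁻¹ := by group
      rw [mul_one, inv_mul_cancel, e1] at k1
      have k2 := not_lt.mpr (one_le (x * y)⁻¹)
      rw [e0]
      unfold Cyc at k1
      tauto
    obtain ⟨k, hk⟩ := tri_rel_ccw hy.inv hx.inv (by rw [e0]; exact hz.inv)
      h1.symm.inv_left.inv_right (by rw [e0]; exact h3.inv_left.inv_right)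
      (by rw [e0]; exact h2.inv_left.inv_right) hlt
    rw [e0, PuG_inv hx, PuG_inv hy, PuG_inv hz, ← mul_inv_rev] at hk
    refine ⟨-k, ?_⟩
    have hc : Commute (PuG (x * y)) (cz g ^ (-k)) := by
      apply Commute.zpow_right
      exact cz_comm _
    have h5 := congrArg (fun t => t⁻¹) hk
    simp only [mul_inv_rev, _root_.inv_inv] at h5
    rw [h5, ← zpow_neg, ← hc.eq]

end TorP
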