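import Pool.Agent.Lib.MP_05cdf2_gt.P.PZ

/-! MP_05cdf2_gt, job P.PRa. The combinatorial identities behind the triangle relation of pushes.

`z = x * y`, `x < z`. The triangle `1, x, z` has the corners `A = (x, z)`, `B = (y, x⁻¹)`, `C = (z⁻¹, y⁻¹)` (open
intervals). The six germs `x, x⁻¹, y, y⁻¹, z, z⁻¹` are distinct and none of them is inside a corner, so the three
corners are disjoint intervals (e.g. `y ∉ (x, z)`, so `y < x` or `z < y`; in the first case `x⁻¹ < x`, otherwise
`z < x⁻¹` and `x` would be inside `B`). So there are six possible orders: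
 `A B C`: `x < z < y < x⁻¹ < z⁻¹ < y⁻¹`, `k = 0`;     `A C B`: `x < z < z⁻¹ < y⁻¹ < y < x⁻¹`, `k = 1`;
 `B C A`: `y < x⁻¹ < z⁻¹ < y⁻¹ < x < z`, `k = 0`;     `C B A`: `z⁻¹ < y⁻¹ < y < x⁻¹ < x < z`, `k = 1`;
 `C A B`: `z⁻¹ < y⁻¹ < x < z < y < x⁻¹`, `k = 0`;     `B A C`: `y < x⁻¹ < x < z < z⁻¹ < y⁻¹`, `k = 1`.
In each of them compute everything: `zn x y`, `zn x y⁻¹` (so `fm x y`), `zn z x`, `zn z x⁻¹`, `zn z y`, `zn z y⁻¹`, and
for a generic `d` the four positions (below, between the corners, above). E.g. order `A B C`: `zn x y = x`,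
`zn x y⁻¹ = ζ⁻¹ x`, `fm x y = x y x⁻¹ ζ = z x⁻¹ ζ`; `d < x`: `zn x d = x ζ⁻¹`, `zf y (fm x y) d = z x⁻¹ ζ ζ⁻¹`,
`zn z d = z ζ⁻¹`: `z x⁻¹ ζ ζ⁻¹ x ζ⁻¹ = z ζ⁻¹`. All the identities have been checked by computer with these `k`.
(Suggestion: a lemma for each of the six orders, with the order as hypotheses; `simp only [zn, zf, fm, if_pos, if_neg]`
after establishing all the comparisons, then `group`; `subst` `z` first or replace `y` by `x⁻¹ * z`.) -/

set_option autoImplicit false
set_option linter.unusedSimpArgs false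

namespace TorP
open TorM

variable {g : ℕ}

/-- the expression of `zn y d` with `y` replaced by `Y` in the values -/
noncomputable def zf (y Y d : F g) : F g :=
  if y < y⁻¹ then
    (if d < y then Y * (zeta g)⁻¹ else if y⁻¹ < d then (zeta g)⁻¹ * Y else Y)
  else (if d < y⁻¹ then zeta g * Y else if y < d then Y * zeta g else Y)

theorem map_zn {P : F g →* F g} (h : P (zeta g) = zeta g) (y d : F g) : P (zn y d) = zf y (P y) d := by
  unfold zn zf
  split_ifs <;> simp only [map_mul, map_inv, h]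

/-- `s` is not inside a corner of the triangle `1, x, z` -/
def Out (x y z s : F g) : Prop := ¬ (x < s ∧ s < z) ∧ ¬ (y < s ∧ s < x⁻¹) ∧ ¬ (z⁻¹ < s ∧ s < y⁻¹)

private theorem PRa_ABC {x y z : F g} (hz : x * y = z) (p01 : x < z) (p12 : z < y) (p23 : y < x⁻¹) (p34 : x⁻¹ < z⁻¹) (p45 : z⁻¹ < y⁻¹) :
    (∀ d : F g, Out x y z d → d ≠ x → d ≠ x⁻¹ → d ≠ y → d ≠ y⁻¹ → d ≠ z → d ≠ z⁻¹ →
        zf y (fm x y) d * zn x d = zeta g ^ (0 : ℤ) * zn z d) ∧
      zf y (fm x y) x * x * (zf y (fm x y) x⁻¹)⁻¹ = zeta g ^ (0 : ℤ) * fm z x * (zeta g ^ (0 : ℤ))⁻¹ ∧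
      fm x y = zeta g ^ (0 : ℤ) * fm z y * (zeta g ^ (0 : ℤ))⁻¹ := by
  have p02 := p01.trans p12
  have p13 := p12.trans p23
  have p24 := p23.trans p34
  have p35 := p34.trans p45
  have p03 := p02.trans p23
  have p14 := p13.trans p34
  have p25 := p24.trans p45
  have p04 := p03.trans p34
  have p15 := p14.trans p45
  have p05 := p04.trans p45
  refine ⟨fun d hO e1 e2 e3 e4 e5 e6 => ?_, ?_, ?_⟩
  · skip
    rcases lt_or_gt_of_ne e1 with q0 | q0
    · skip
      have c0 : d < x := q0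
      have c1 : d < z := q0.trans p01
      have c2 : d < y := q0.trans p02
      have c3 : d < x⁻¹ := q0.trans p03
      have c4 : d < z⁻¹ := q0.trans p04
      have c5 : d < y⁻¹ := q0.trans p05
      simp only [zn, zf, fm, if_pos p01, if_neg p01.not_gt, if_pos p02, if_neg p02.not_gt, if_pos p03, if_neg p03.not_gt, if_pos p04, if_neg p04.not_gt, if_pos p05, if_neg p05.not_gt, if_pos p12, if_neg p12.not_gt, if_pos p13, if_neg p13.not_gt, if_pos p14, if_neg p14.not_gt, if_pos p15, if_neg p15.not_gt, if_pos p23, if_neg p23.not_gt, if_pos p24, if_neg p24.not_gt, if_pos p25, if_neg p25.not_gt, if_pos p34, if_neg p34.not_gt, if_pos p35, if_neg p35.not_gt, if_pos p45, if_neg p45.not_gt, if_neg (lt_irrefl x), if_neg (lt_irrefl y), if_neg (lt_irrefl z), if_neg (lt_irrefl x⁻¹), if_neg (lt_irrefl y⁻¹), if_neg (lt_irrefl z⁻¹), if_pos c0, if_neg c0.not_gt, if_pos c1, if_neg c1.not_gt, if_pos c2, if_neg c2.not_gt, if_pos c3, if_neg c3.not_gt, if_pos c4, if_neg c4.not_gt, if_pos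 c5, if_neg c5.not_gt]
      subst hz
      group
    · have r1 : z < d := by
        rcases lt_or_gt_of_ne e5 with h | h
        · exact absurd ⟨q0, h⟩ (hO.1)
        · exact h
      rcases lt_or_gt_of_ne e3 with q2 | q2
      · skip
        have c0 : x < d := p01.trans r1
        have c1 : z < d := r1
        have c2 : d < y := q2
        have c3 : d < x⁻¹ := q2.trans p23
        have c4 : d < z⁻¹ := q2.trans p24
        have c5 : d < y⁻¹ := q2.trans p25
        simp only [zn, zf, fm, if_pos p01, if_neg p01.not_gt, if_pos p02, if_neg p02.not_gt, if_pos p03, if_neg p03.not_gt, if_pos p04, if_neg p04.not_gt, if_pos p05, if_neg p05.not_gt, if_pos p12, if_neg p12.not_gt, if_pos p13, if_neg p13.not_gt, if_pos p14, if_neg p14.not_gt, if_pos p15, if_neg p15.not_gt, if_pos p23, if_neg p23.not_gt, if_pos p24, if_neg p24.not_gt, if_pos p25, if_neg p25.not_gt, if_pos p34, if_neg p34.not_gt, if_pos p35, if_neg p35.not_gt, if_pos p45, if_neg p45.not_gt, if_neg (lt_irrefl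 x), if_neg (lt_irrefl y), if_neg (lt_irrefl z), if_neg (lt_irrefl x⁻¹), if_neg (lt_irrefl y⁻¹), if_neg (lt_irrefl z⁻¹), if_pos c0, if_neg c0.not_gt, if_pos c1, if_neg c1.not_gt, if_pos c2, if_neg c2.not_gt, if_pos c3, if_neg c3.not_gt, if_pos c4, if_neg c4.not_gt, if_pos c5, if_neg c5.not_gt]
        subst hz
        group
      · have r3 : x⁻¹ < d := by
          rcases lt_or_gt_of_ne e2 with h | h
          · exact absurd ⟨q2, h⟩ (hO.2.1)
          · exact h
        rcases lt_or_gt_of_ne e6 with q4 | q4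
        · skip
          have c0 : x < d := p03.trans r3
          have c1 : z < d := p13.trans r3
          have c2 : y < d := p23.trans r3
          have c3 : x⁻¹ < d := r3
          have c4 : d < z⁻¹ := q4
          have c5 : d < y⁻¹ := q4.trans p45
          simp only [zn, zf, fm, if_pos p01, if_neg p01.not_gt, if_pos p02, if_neg p02.not_gt, if_pos p03, if_neg p03.not_gt, if_pos p04, if_neg p04.not_gt, if_pos p05, if_neg p05.not_gt, if_pos p12, if_neg p12.not_gt, if_pos p13, if_neg p13.not_gt, if_pos p14, if_neg p14.not_gt, if_pos p15, if_neg p15.not_gt, if_pos p23, if_neg p23.not_gt, if_pos p24, if_neg p24.not_gt, if_pos p25, if_neg p25.not_gt, if_pos p34, if_neg p34.not_gt, if_pos p35, if_neg p35.not_gt, if_pos p45, if_neg p45.not_gt, if_neg (lt_irrefl x), if_neg (lt_irrefl y), if_neg (lt_irrefl z), if_neg (lt_irrefl x⁻¹), if_neg (lt_irrefl y⁻¹), if_neg (lt_irrefl z⁻¹), if_pos c0, if_neg c0.not_gt, if_pos c1, if_neg c1.not_gt, if_pos c2, if_neg c2.not_gt,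 if_pos c3, if_neg c3.not_gt, if_pos c4, if_neg c4.not_gt, if_pos c5, if_neg c5.not_gt]
          subst hz
          group
        · have r5 : y⁻¹ < d := by
            rcases lt_or_gt_of_ne e4 with h | h
            · exact absurd ⟨q4, h⟩ (hO.2.2)
            · exact h
          have c0 : x < d := p05.trans r5
          have c1 : z < d := p15.trans r5
          have c2 : y < d := p25.trans r5
          have c3 : x⁻¹ < d := p35.trans r5
          have c4 : z⁻¹ < d := p45.trans r5
          have c5 : y⁻¹ < d := r5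
          simp only [zn, zf, fm, if_pos p01, if_neg p01.not_gt, if_pos p02, if_neg p02.not_gt, if_pos p03, if_neg p03.not_gt, if_pos p04, if_neg p04.not_gt, if_pos p05, if_neg p05.not_gt, if_pos p12, if_neg p12.not_gt, if_pos p13, if_neg p13.not_gt, if_pos p14, if_neg p14.not_gt, if_pos p15, if_neg p15.not_gt, if_pos p23, if_neg p23.not_gt, if_pos p24, if_neg p24.not_gt, if_pos p25, if_neg p25.not_gt, if_pos p34, if_neg p34.not_gt, if_pos p35, if_neg p35.not_gt, if_pos p45, if_neg p45.not_gt, if_neg (lt_irrefl x), if_neg (lt_irrefl y), if_neg (lt_irrefl z), if_neg (lt_irrefl x⁻¹), if_neg (lt_irrefl y⁻¹), if_neg (lt_irrefl z⁻¹), if_pos c0, if_neg c0.not_gt, if_pos c1, if_neg c1.not_gt, if_pos c2, if_neg c2.not_gt, if_pos c3, if_neg c3.not_gt, if_pos c4, if_neg c4.not_gt, if_pos c5, if_neg c5.not_gt]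
          subst hz
          group
  · simp only [zn, zf, fm, if_pos p01, if_neg p01.not_gt, if_pos p02, if_neg p02.not_gt, if_pos p03, if_neg p03.not_gt, if_pos p04, if_neg p04.not_gt, if_pos p05, if_neg p05.not_gt, if_pos p12, if_neg p12.not_gt, if_pos p13, if_neg p13.not_gt, if_pos p14, if_neg p14.not_gt, if_pos p15, if_neg p15.not_gt, if_pos p23, if_neg p23.not_gt, if_pos p24, if_neg p24.not_gt, if_pos p25, if_neg p25.not_gt, if_pos p34, if_neg p34.not_gt, if_pos p35, if_neg p35.not_gt, if_pos p45, if_neg p45.not_gt, if_neg (lt_irrefl x), if_neg (lt_irrefl y), if_neg (lt_irrefl z), if_neg (lt_irrefl x⁻¹), if_neg (lt_irrefl y⁻¹), if_neg (lt_irrefl z⁻¹)]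
    subst hz
    group
  · simp only [zn, zf, fm, if_pos p01, if_neg p01.not_gt, if_pos p02, if_neg p02.not_gt, if_pos p03, if_neg p03.not_gt, if_pos p04, if_neg p04.not_gt, if_pos p05, if_neg p05.not_gt, if_pos p12, if_neg p12.not_gt, if_pos p13, if_neg p13.not_gt, if_pos p14, if_neg p14.not_gt, if_pos p15, if_neg p15.not_gt, if_pos p23, if_neg p23.not_gt, if_pos p24, if_neg p24.not_gt, if_pos p25, if_neg p25.not_gt, if_pos p34, if_neg p34.not_gt, if_pos p35, if_neg p35.not_gt, if_pos p45, if_neg p45.not_gt, if_neg (lt_irrefl x), if_neg (lt_irrefl y), if_neg (lt_irrefl z), if_neg (lt_irrefl x⁻¹), if_neg (lt_irrefl y⁻¹), if_neg (lt_irrefl z⁻¹)]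
    subst hz
    group

private theorem PRa_ACB {x y z : F g} (hz : x * y = z) (p01 : x < z) (p12 : z < z⁻¹) (p23 : z⁻¹ < y⁻¹) (p34 : y⁻¹ < y) (p45 : y < x⁻¹) :
    (∀ d : F g, Out x y z d → d ≠ x → d ≠ x⁻¹ → d ≠ y → d ≠ y⁻¹ → d ≠ z → d ≠ z⁻¹ →
        zf y (fm x y) d * zn x d = zeta g ^ (1 : ℤ) * zn z d) ∧
      zf y (fm x y) x * x * (zf y (fm x y) x⁻¹)⁻¹ = zeta g ^ (1 : ℤ) * fm z x * (zeta g ^ (1 : ℤ))⁻¹ ∧
      fm x y = zeta g ^ (1 : ℤ) * fm z y * (zeta g ^ (1 : ℤ))⁻¹ := by
  have p02 := p01.trans p12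
  have p13 := p12.trans p23
  have p24 := p23.trans p34
  have p35 := p34.trans p45
  have p03 := p02.trans p23
  have p14 := p13.trans p34
  have p25 := p24.trans p45
  have p04 := p03.trans p34
  have p15 := p14.trans p45
  have p05 := p04.trans p45
  refine ⟨fun d hO e1 e2 e3 e4 e5 e6 => ?_, ?_, ?_⟩
  · skip
    rcases lt_or_gt_of_ne e1 with q0 | q0
    · skip
      have c0 : d < x := q0
      have c1 : d < z := q0.trans p01
      have c2 : d < z⁻¹ := q0.trans p02
      have c3 : d < y⁻¹ := q0.trans p03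
      have c4 : d < y := q0.trans p04
      have c5 : d < x⁻¹ := q0.trans p05
      simp only [zn, zf, fm, if_pos p01, if_neg p01.not_gt, if_pos p02, if_neg p02.not_gt, if_pos p03, if_neg p03.not_gt, if_pos p04, if_neg p04.not_gt, if_pos p05, if_neg p05.not_gt, if_pos p12, if_neg p12.not_gt, if_pos p13, if_neg p13.not_gt, if_pos p14, if_neg p14.not_gt, if_pos p15, if_neg p15.not_gt, if_pos p23, if_neg p23.not_gt, if_pos p24, if_neg p24.not_gt, if_pos p25, if_neg p25.not_gt, if_pos p34, if_neg p34.not_gt, if_pos p35, if_neg p35.not_gt, if_pos p45, if_neg p45.not_gt, if_neg (lt_irrefl x), if_neg (lt_irrefl y), if_neg (lt_irrefl z), if_neg (lt_irrefl x⁻¹), if_neg (lt_irrefl y⁻¹), if_neg (lt_irrefl z⁻¹), if_pos c0, if_neg c0.not_gt, if_pos c1, if_neg c1.not_gt, if_pos c2, if_neg c2.not_gt, if_pos c3, if_neg c3.not_gt, if_pos c4, if_neg c4.not_gt, if_pos c5, if_neg c5.not_gt]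
      subst hz
      group
    · have r1 : z < d := by
        rcases lt_or_gt_of_ne e5 with h | h
        · exact absurd ⟨q0, h⟩ (hO.1)
        · exact h
      rcases lt_or_gt_of_ne e6 with q2 | q2
      · skip
        have c0 : x < d := p01.trans r1
        have c1 : z < d := r1
        have c2 : d < z⁻¹ := q2
        have c3 : d < y⁻¹ := q2.trans p23
        have c4 : d < y := q2.trans p24
        have c5 : d < x⁻¹ := q2.trans p25
        simp only [zn, zf, fm, if_pos p01, if_neg p01.not_gt, if_pos p02, if_neg p02.not_gt, if_pos p03, if_neg p03.not_gt, if_pos p04, if_neg p04.not_gt, if_pos p05, if_neg p05.not_gt, if_pos p12, if_neg p12.not_gt, if_pos p13, if_neg p13.not_gt, if_pos p14, if_neg p14.not_gt, if_pos p15, if_neg p15.not_gt, if_pos p23, if_neg p23.not_gt, if_pos p24, if_neg p24.not_gt, if_pos p25, if_neg p25.not_gt, if_pos p34, if_neg p34.not_gt, if_pos p35, if_neg p35.not_gt, if_pos p45, if_neg p45.not_gt, if_neg (lt_irrefl x), if_neg (lt_irrefl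 y), if_neg (lt_irrefl z), if_neg (lt_irrefl x⁻¹), if_neg (lt_irrefl y⁻¹), if_neg (lt_irrefl z⁻¹), if_pos c0, if_neg c0.not_gt, if_pos c1, if_neg c1.not_gt, if_pos c2, if_neg c2.not_gt, if_pos c3, if_neg c3.not_gt, if_pos c4, if_neg c4.not_gt, if_pos c5, if_neg c5.not_gt]
        subst hz
        group
      · have r3 : y⁻¹ < d := by
          rcases lt_or_gt_of_ne e4 with h | h
          · exact absurd ⟨q2, h⟩ (hO.2.2)
          · exact h
        rcases lt_or_gt_of_ne e3 with q4 | q4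
        · skip
          have c0 : x < d := p03.trans r3
          have c1 : z < d := p13.trans r3
          have c2 : z⁻¹ < d := p23.trans r3
          have c3 : y⁻¹ < d := r3
          have c4 : d < y := q4
          have c5 : d < x⁻¹ := q4.trans p45
          simp only [zn, zf, fm, if_pos p01, if_neg p01.not_gt, if_pos p02, if_neg p02.not_gt, if_pos p03, if_neg p03.not_gt, if_pos p04, if_neg p04.not_gt, if_pos p05, if_neg p05.not_gt, if_pos p12, if_neg p12.not_gt, if_pos p13, if_neg p13.not_gt, if_pos p14, if_neg p14.not_gt, if_pos p15, if_neg p15.not_gt, if_pos p23, if_neg p23.not_gt, if_pos p24, if_neg p24.not_gt, if_pos p25, if_neg p25.not_gt, if_pos p34, if_neg p34.not_gt, if_pos p35, if_neg p35.not_gt, if_pos p45, if_neg p45.not_gt, if_neg (lt_irrefl x), if_neg (lt_irrefl y), if_neg (lt_irrefl z), if_neg (lt_irrefl x⁻¹), if_neg (lt_irrefl y⁻¹), if_neg (lt_irrefl z⁻¹), if_pos c0, if_neg c0.not_gt, if_pos c1, if_neg c1.not_gt, if_pos c2, if_neg c2.not_gt,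 if_pos c3, if_neg c3.not_gt, if_pos c4, if_neg c4.not_gt, if_pos c5, if_neg c5.not_gt]
          subst hz
          group
        · have r5 : x⁻¹ < d := by
            rcases lt_or_gt_of_ne e2 with h | h
            · exact absurd ⟨q4, h⟩ (hO.2.1)
            · exact h
          have c0 : x < d := p05.trans r5
          have c1 : z < d := p15.trans r5
          have c2 : z⁻¹ < d := p25.trans r5
          have c3 : y⁻¹ < d := p35.trans r5
          have c4 : y < d := p45.trans r5
          have c5 : x⁻¹ < d := r5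
          simp only [zn, zf, fm, if_pos p01, if_neg p01.not_gt, if_pos p02, if_neg p02.not_gt, if_pos p03, if_neg p03.not_gt, if_pos p04, if_neg p04.not_gt, if_pos p05, if_neg p05.not_gt, if_pos p12, if_neg p12.not_gt, if_pos p13, if_neg p13.not_gt, if_pos p14, if_neg p14.not_gt, if_pos p15, if_neg p15.not_gt, if_pos p23, if_neg p23.not_gt, if_pos p24, if_neg p24.not_gt, if_pos p25, if_neg p25.not_gt, if_pos p34, if_neg p34.not_gt, if_pos p35, if_neg p35.not_gt, if_pos p45, if_neg p45.not_gt, if_neg (lt_irrefl x), if_neg (lt_irrefl y), if_neg (lt_irrefl z), if_neg (lt_irrefl x⁻¹), if_neg (lt_irrefl y⁻¹), if_neg (lt_irrefl z⁻¹), if_pos c0, if_neg c0.not_gt, if_pos c1, if_neg c1.not_gt, if_pos c2, if_neg c2.not_gt, if_pos c3, if_neg c3.not_gt, if_pos c4, if_neg c4.not_gt, if_pos c5, if_neg c5.not_gt]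
          subst hz
          group
  · simp only [zn, zf, fm, if_pos p01, if_neg p01.not_gt, if_pos p02, if_neg p02.not_gt, if_pos p03, if_neg p03.not_gt, if_pos p04, if_neg p04.not_gt, if_pos p05, if_neg p05.not_gt, if_pos p12, if_neg p12.not_gt, if_pos p13, if_neg p13.not_gt, if_pos p14, if_neg p14.not_gt, if_pos p15, if_neg p15.not_gt, if_pos p23, if_neg p23.not_gt, if_pos p24, if_neg p24.not_gt, if_pos p25, if_neg p25.not_gt, if_pos p34, if_neg p34.not_gt, if_pos p35, if_neg p35.not_gt, if_pos p45, if_neg p45.not_gt, if_neg (lt_irrefl x), if_neg (lt_irrefl y), if_neg (lt_irrefl z), if_neg (lt_irrefl x⁻¹), if_neg (lt_irrefl y⁻¹), if_neg (lt_irrefl z⁻¹)]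
    subst hz
    group
  · simp only [zn, zf, fm, if_pos p01, if_neg p01.not_gt, if_pos p02, if_neg p02.not_gt, if_pos p03, if_neg p03.not_gt, if_pos p04, if_neg p04.not_gt, if_pos p05, if_neg p05.not_gt, if_pos p12, if_neg p12.not_gt, if_pos p13, if_neg p13.not_gt, if_pos p14, if_neg p14.not_gt, if_pos p15, if_neg p15.not_gt, if_pos p23, if_neg p23.not_gt, if_pos p24, if_neg p24.not_gt, if_pos p25, if_neg p25.not_gt, if_pos p34, if_neg p34.not_gt, if_pos p35, if_neg p35.not_gt, if_pos p45, if_neg p45.not_gt, if_neg (lt_irrefl x), if_neg (lt_irrefl y), if_neg (lt_irrefl z), if_neg (lt_irrefl x⁻¹), if_neg (lt_irrefl y⁻¹), if_neg (lt_irrefl z⁻¹)]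
    subst hz
    group

private theorem PRa_BCA {x y z : F g} (hz : x * y = z) (p01 : y < x⁻¹) (p12 : x⁻¹ < z⁻¹) (p23 : z⁻¹ < y⁻¹) (p34 : y⁻¹ < x) (p45 : x < z) :
    (∀ d : F g, Out x y z d → d ≠ x → d ≠ x⁻¹ → d ≠ y → d ≠ y⁻¹ → d ≠ z → d ≠ z⁻¹ →
        zf y (fm x y) d * zn x d = zeta g ^ (0 : ℤ) * zn z d) ∧
      zf y (fm x y) x * x * (zf y (fm x y) x⁻¹)⁻¹ = zeta g ^ (0 : ℤ) * fm z x * (zeta g ^ (0 : ℤ))⁻¹ ∧
      fm x y = zeta g ^ (0 : ℤ) * fm z y * (zeta g ^ (0 : ℤ))⁻¹ := by
  have p02 := p01.trans p12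
  have p13 := p12.trans p23
  have p24 := p23.trans p34
  have p35 := p34.trans p45
  have p03 := p02.trans p23
  have p14 := p13.trans p34
  have p25 := p24.trans p45
  have p04 := p03.trans p34
  have p15 := p14.trans p45
  have p05 := p04.trans p45
  refine ⟨fun d hO e1 e2 e3 e4 e5 e6 => ?_, ?_, ?_⟩
  · skip
    rcases lt_or_gt_of_ne e3 with q0 | q0
    · skip
      have c0 : d < y := q0
      have c1 : d < x⁻¹ := q0.trans p01
      have c2 : d < z⁻¹ := q0.trans p02
      have c3 : d < y⁻¹ := q0.trans p03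
      have c4 : d < x := q0.trans p04
      have c5 : d < z := q0.trans p05
      simp only [zn, zf, fm, if_pos p01, if_neg p01.not_gt, if_pos p02, if_neg p02.not_gt, if_pos p03, if_neg p03.not_gt, if_pos p04, if_neg p04.not_gt, if_pos p05, if_neg p05.not_gt, if_pos p12, if_neg p12.not_gt, if_pos p13, if_neg p13.not_gt, if_pos p14, if_neg p14.not_gt, if_pos p15, if_neg p15.not_gt, if_pos p23, if_neg p23.not_gt, if_pos p24, if_neg p24.not_gt, if_pos p25, if_neg p25.not_gt, if_pos p34, if_neg p34.not_gt, if_pos p35, if_neg p35.not_gt, if_pos p45, if_neg p45.not_gt, if_neg (lt_irrefl x), if_neg (lt_irrefl y), if_neg (lt_irrefl z), if_neg (lt_irrefl x⁻¹), if_neg (lt_irrefl y⁻¹), if_neg (lt_irrefl z⁻¹), if_pos c0, if_neg c0.not_gt, if_pos c1, if_neg c1.not_gt, if_pos c2, if_neg c2.not_gt, if_pos c3, if_neg c3.not_gt, if_pos c4, if_neg c4.not_gt, if_pos c5, if_neg c5.not_gt]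
      subst hz
      group
    · have r1 : x⁻¹ < d := by
        rcases lt_or_gt_of_ne e2 with h | h
        · exact absurd ⟨q0, h⟩ (hO.2.1)
        · exact h
      rcases lt_or_gt_of_ne e6 with q2 | q2
      · skip
        have c0 : y < d := p01.trans r1
        have c1 : x⁻¹ < d := r1
        have c2 : d < z⁻¹ := q2
        have c3 : d < y⁻¹ := q2.trans p23
        have c4 : d < x := q2.trans p24
        have c5 : d < z := q2.trans p25
        simp only [zn, zf, fm, if_pos p01, if_neg p01.not_gt, if_pos p02, if_neg p02.not_gt, if_pos p03, if_neg p03.not_gt, if_pos p04, if_neg p04.not_gt, if_pos p05, if_neg p05.not_gt, if_pos p12, if_neg p12.not_gt, if_pos p13, if_neg p13.not_gt, if_pos p14, if_neg p14.not_gt, if_pos p15, if_neg p15.not_gt, if_pos p23, if_neg p23.not_gt, if_pos p24, if_neg p24.not_gt, if_pos p25, if_neg p25.not_gt, if_pos p34, if_neg p34.not_gt, if_pos p35, if_neg p35.not_gt, if_pos p45, if_neg p45.not_gt, if_neg (lt_irrefl x), if_neg (lt_irrefl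 y), if_neg (lt_irrefl z), if_neg (lt_irrefl x⁻¹), if_neg (lt_irrefl y⁻¹), if_neg (lt_irrefl z⁻¹), if_pos c0, if_neg c0.not_gt, if_pos c1, if_neg c1.not_gt, if_pos c2, if_neg c2.not_gt, if_pos c3, if_neg c3.not_gt, if_pos c4, if_neg c4.not_gt, if_pos c5, if_neg c5.not_gt]
        subst hz
        group
      · have r3 : y⁻¹ < d := by
          rcases lt_or_gt_of_ne e4 with h | h
          · exact absurd ⟨q2, h⟩ (hO.2.2)
          · exact h
        rcases lt_or_gt_of_ne e1 with q4 | q4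
        · skip
          have c0 : y < d := p03.trans r3
          have c1 : x⁻¹ < d := p13.trans r3
          have c2 : z⁻¹ < d := p23.trans r3
          have c3 : y⁻¹ < d := r3
          have c4 : d < x := q4
          have c5 : d < z := q4.trans p45
          simp only [zn, zf, fm, if_pos p01, if_neg p01.not_gt, if_pos p02, if_neg p02.not_gt, if_pos p03, if_neg p03.not_gt, if_pos p04, if_neg p04.not_gt, if_pos p05, if_neg p05.not_gt, if_pos p12, if_neg p12.not_gt, if_pos p13, if_neg p13.not_gt, if_pos p14, if_neg p14.not_gt, if_pos p15, if_neg p15.not_gt, if_pos p23, if_neg p23.not_gt, if_pos p24, if_neg p24.not_gt, if_pos p25, if_neg p25.not_gt, if_pos p34, if_neg p34.not_gt, if_pos p35, if_neg p35.not_gt, if_pos p45, if_neg p45.not_gt, if_neg (lt_irrefl x), if_neg (lt_irrefl y), if_neg (lt_irrefl z), if_neg (lt_irrefl x⁻¹), if_neg (lt_irrefl y⁻¹), if_neg (lt_irrefl z⁻¹), if_pos c0, if_neg c0.not_gt, if_pos c1, if_neg c1.not_gt, if_pos c2, if_neg c2.not_gt,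 if_pos c3, if_neg c3.not_gt, if_pos c4, if_neg c4.not_gt, if_pos c5, if_neg c5.not_gt]
          subst hz
          group
        · have r5 : z < d := by
            rcases lt_or_gt_of_ne e5 with h | h
            · exact absurd ⟨q4, h⟩ (hO.1)
            · exact h
          have c0 : y < d := p05.trans r5
          have c1 : x⁻¹ < d := p15.trans r5
          have c2 : z⁻¹ < d := p25.trans r5
          have c3 : y⁻¹ < d := p35.trans r5
          have c4 : x < d := p45.trans r5
          have c5 : z < d := r5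
          simp only [zn, zf, fm, if_pos p01, if_neg p01.not_gt, if_pos p02, if_neg p02.not_gt, if_pos p03, if_neg p03.not_gt, if_pos p04, if_neg p04.not_gt, if_pos p05, if_neg p05.not_gt, if_pos p12, if_neg p12.not_gt, if_pos p13, if_neg p13.not_gt, if_pos p14, if_neg p14.not_gt, if_pos p15, if_neg p15.not_gt, if_pos p23, if_neg p23.not_gt, if_pos p24, if_neg p24.not_gt, if_pos p25, if_neg p25.not_gt, if_pos p34, if_neg p34.not_gt, if_pos p35, if_neg p35.not_gt, if_pos p45, if_neg p45.not_gt, if_neg (lt_irrefl x), if_neg (lt_irrefl y), if_neg (lt_irrefl z), if_neg (lt_irrefl x⁻¹), if_neg (lt_irrefl y⁻¹), if_neg (lt_irrefl z⁻¹), if_pos c0, if_neg c0.not_gt, if_pos c1, if_neg c1.not_gt, if_pos c2, if_neg c2.not_gt, if_pos c3, if_neg c3.not_gt, if_pos c4, if_neg c4.not_gt, if_pos c5, if_neg c5.not_gt]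
          subst hz
          group
  · simp only [zn, zf, fm, if_pos p01, if_neg p01.not_gt, if_pos p02, if_neg p02.not_gt, if_pos p03, if_neg p03.not_gt, if_pos p04, if_neg p04.not_gt, if_pos p05, if_neg p05.not_gt, if_pos p12, if_neg p12.not_gt, if_pos p13, if_neg p13.not_gt, if_pos p14, if_neg p14.not_gt, if_pos p15, if_neg p15.not_gt, if_pos p23, if_neg p23.not_gt, if_pos p24, if_neg p24.not_gt, if_pos p25, if_neg p25.not_gt, if_pos p34, if_neg p34.not_gt, if_pos p35, if_neg p35.not_gt, if_pos p45, if_neg p45.not_gt, if_neg (lt_irrefl x), if_neg (lt_irrefl y), if_neg (lt_irrefl z), if_neg (lt_irrefl x⁻¹), if_neg (lt_irrefl y⁻¹), if_neg (lt_irrefl z⁻¹)]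
    subst hz
    group
  · simp only [zn, zf, fm, if_pos p01, if_neg p01.not_gt, if_pos p02, if_neg p02.not_gt, if_pos p03, if_neg p03.not_gt, if_pos p04, if_neg p04.not_gt, if_pos p05, if_neg p05.not_gt, if_pos p12, if_neg p12.not_gt, if_pos p13, if_neg p13.not_gt, if_pos p14, if_neg p14.not_gt, if_pos p15, if_neg p15.not_gt, if_pos p23, if_neg p23.not_gt, if_pos p24, if_neg p24.not_gt, if_pos p25, if_neg p25.not_gt, if_pos p34, if_neg p34.not_gt, if_pos p35, if_neg p35.not_gt, if_pos p45, if_neg p45.not_gt, if_neg (lt_irrefl x), if_neg (lt_irrefl y), if_neg (lt_irrefl z), if_neg (lt_irrefl x⁻¹), if_neg (lt_irrefl y⁻¹), if_neg (lt_irrefl z⁻¹)]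
    subst hz
    group

private theorem PRa_CBA {x y z : F g} (hz : x * y = z) (p01 : z⁻¹ < y⁻¹) (p12 : y⁻¹ < y) (p23 : y < x⁻¹) (p34 : x⁻¹ < x) (p45 : x < z) :
    (∀ d : F g, Out x y z d → d ≠ x → d ≠ x⁻¹ → d ≠ y → d ≠ y⁻¹ → d ≠ z → d ≠ z⁻¹ →
        zf y (fm x y) d * zn x d = zeta g ^ (1 : ℤ) * zn z d) ∧
      zf y (fm x y) x * x * (zf y (fm x y) x⁻¹)⁻¹ = zeta g ^ (1 : ℤ) * fm z x * (zeta g ^ (1 : ℤ))⁻¹ ∧
      fm x y = zeta g ^ (1 : ℤ) * fm z y * (zeta g ^ (1 : ℤ))⁻¹ := by
  have p02 := p01.trans p12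
  have p13 := p12.trans p23
  have p24 := p23.trans p34
  have p35 := p34.trans p45
  have p03 := p02.trans p23
  have p14 := p13.trans p34
  have p25 := p24.trans p45
  have p04 := p03.trans p34
  have p15 := p14.trans p45
  have p05 := p04.trans p45
  refine ⟨fun d hO e1 e2 e3 e4 e5 e6 => ?_, ?_, ?_⟩
  · skip
    rcases lt_or_gt_of_ne e6 with q0 | q0
    · skip
      have c0 : d < z⁻¹ := q0
      have c1 : d < y⁻¹ := q0.trans p01
      have c2 : d < y := q0.trans p02
      have c3 : d < x⁻¹ := q0.trans p03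
      have c4 : d < x := q0.trans p04
      have c5 : d < z := q0.trans p05
      simp only [zn, zf, fm, if_pos p01, if_neg p01.not_gt, if_pos p02, if_neg p02.not_gt, if_pos p03, if_neg p03.not_gt, if_pos p04, if_neg p04.not_gt, if_pos p05, if_neg p05.not_gt, if_pos p12, if_neg p12.not_gt, if_pos p13, if_neg p13.not_gt, if_pos p14, if_neg p14.not_gt, if_pos p15, if_neg p15.not_gt, if_pos p23, if_neg p23.not_gt, if_pos p24, if_neg p24.not_gt, if_pos p25, if_neg p25.not_gt, if_pos p34, if_neg p34.not_gt, if_pos p35, if_neg p35.not_gt, if_pos p45, if_neg p45.not_gt, if_neg (lt_irrefl x), if_neg (lt_irrefl y), if_neg (lt_irrefl z), if_neg (lt_irrefl x⁻¹), if_neg (lt_irrefl y⁻¹), if_neg (lt_irrefl z⁻¹), if_pos c0, if_neg c0.not_gt, if_pos c1, if_neg c1.not_gt, if_pos c2, if_neg c2.not_gt, if_pos c3, if_neg c3.not_gt, if_pos c4, if_neg c4.not_gt, if_pos c5, if_neg c5.not_gt]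
      subst hz
      group
    · have r1 : y⁻¹ < d := by
        rcases lt_or_gt_of_ne e4 with h | h
        · exact absurd ⟨q0, h⟩ (hO.2.2)
        · exact h
      rcases lt_or_gt_of_ne e3 with q2 | q2
      · skip
        have c0 : z⁻¹ < d := p01.trans r1
        have c1 : y⁻¹ < d := r1
        have c2 : d < y := q2
        have c3 : d < x⁻¹ := q2.trans p23
        have c4 : d < x := q2.trans p24
        have c5 : d < z := q2.trans p25
        simp only [zn, zf, fm, if_pos p01, if_neg p01.not_gt, if_pos p02, if_neg p02.not_gt, if_pos p03, if_neg p03.not_gt, if_pos p04, if_neg p04.not_gt, if_pos p05, if_neg p05.not_gt, if_pos p12, if_neg p12.not_gt, if_pos p13, if_neg p13.not_gt, if_pos p14, if_neg p14.not_gt, if_pos p15, if_neg p15.not_gt, if_pos p23, if_neg p23.not_gt, if_pos p24, if_neg p24.not_gt, if_pos p25, if_neg p25.not_gt, if_pos p34, if_neg p34.not_gt, if_pos p35, if_neg p35.not_gt, if_pos p45, if_neg p45.not_gt, if_neg (lt_irrefl x), if_neg (lt_irrefl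 y), if_neg (lt_irrefl z), if_neg (lt_irrefl x⁻¹), if_neg (lt_irrefl y⁻¹), if_neg (lt_irrefl z⁻¹), if_pos c0, if_neg c0.not_gt, if_pos c1, if_neg c1.not_gt, if_pos c2, if_neg c2.not_gt, if_pos c3, if_neg c3.not_gt, if_pos c4, if_neg c4.not_gt, if_pos c5, if_neg c5.not_gt]
        subst hz
        group
      · have r3 : x⁻¹ < d := by
          rcases lt_or_gt_of_ne e2 with h | h
          · exact absurd ⟨q2, h⟩ (hO.2.1)
          · exact h
        rcases lt_or_gt_of_ne e1 with q4 | q4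
        · skip
          have c0 : z⁻¹ < d := p03.trans r3
          have c1 : y⁻¹ < d := p13.trans r3
          have c2 : y < d := p23.trans r3
          have c3 : x⁻¹ < d := r3
          have c4 : d < x := q4
          have c5 : d < z := q4.trans p45
          simp only [zn, zf, fm, if_pos p01, if_neg p01.not_gt, if_pos p02, if_neg p02.not_gt, if_pos p03, if_neg p03.not_gt, if_pos p04, if_neg p04.not_gt, if_pos p05, if_neg p05.not_gt, if_pos p12, if_neg p12.not_gt, if_pos p13, if_neg p13.not_gt, if_pos p14, if_neg p14.not_gt, if_pos p15, if_neg p15.not_gt, if_pos p23, if_neg p23.not_gt, if_pos p24, if_neg p24.not_gt, if_pos p25, if_neg p25.not_gt, if_pos p34, if_neg p34.not_gt, if_pos p35, if_neg p35.not_gt, if_pos p45, if_neg p45.not_gt, if_neg (lt_irrefl x), if_neg (lt_irrefl y), if_neg (lt_irrefl z), if_neg (lt_irrefl x⁻¹), if_neg (lt_irrefl y⁻¹), if_neg (lt_irrefl z⁻¹), if_pos c0, if_neg c0.not_gt, if_pos c1, if_neg c1.not_gt, if_pos c2, if_neg c2.not_gt,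 if_pos c3, if_neg c3.not_gt, if_pos c4, if_neg c4.not_gt, if_pos c5, if_neg c5.not_gt]
          subst hz
          group
        · have r5 : z < d := by
            rcases lt_or_gt_of_ne e5 with h | h
            · exact absurd ⟨q4, h⟩ (hO.1)
            · exact h
          have c0 : z⁻¹ < d := p05.trans r5
          have c1 : y⁻¹ < d := p15.trans r5
          have c2 : y < d := p25.trans r5
          have c3 : x⁻¹ < d := p35.trans r5
          have c4 : x < d := p45.trans r5
          have c5 : z < d := r5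
          simp only [zn, zf, fm, if_pos p01, if_neg p01.not_gt, if_pos p02, if_neg p02.not_gt, if_pos p03, if_neg p03.not_gt, if_pos p04, if_neg p04.not_gt, if_pos p05, if_neg p05.not_gt, if_pos p12, if_neg p12.not_gt, if_pos p13, if_neg p13.not_gt, if_pos p14, if_neg p14.not_gt, if_pos p15, if_neg p15.not_gt, if_pos p23, if_neg p23.not_gt, if_pos p24, if_neg p24.not_gt, if_pos p25, if_neg p25.not_gt, if_pos p34, if_neg p34.not_gt, if_pos p35, if_neg p35.not_gt, if_pos p45, if_neg p45.not_gt, if_neg (lt_irrefl x), if_neg (lt_irrefl y), if_neg (lt_irrefl z), if_neg (lt_irrefl x⁻¹), if_neg (lt_irrefl y⁻¹), if_neg (lt_irrefl z⁻¹), if_pos c0, if_neg c0.not_gt, if_pos c1, if_neg c1.not_gt, if_pos c2, if_neg c2.not_gt, if_pos c3, if_neg c3.not_gt, if_pos c4, if_neg c4.not_gt, if_pos c5, if_neg c5.not_gt]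
          subst hz
          group
  · simp only [zn, zf, fm, if_pos p01, if_neg p01.not_gt, if_pos p02, if_neg p02.not_gt, if_pos p03, if_neg p03.not_gt, if_pos p04, if_neg p04.not_gt, if_pos p05, if_neg p05.not_gt, if_pos p12, if_neg p12.not_gt, if_pos p13, if_neg p13.not_gt, if_pos p14, if_neg p14.not_gt, if_pos p15, if_neg p15.not_gt, if_pos p23, if_neg p23.not_gt, if_pos p24, if_neg p24.not_gt, if_pos p25, if_neg p25.not_gt, if_pos p34, if_neg p34.not_gt, if_pos p35, if_neg p35.not_gt, if_pos p45, if_neg p45.not_gt, if_neg (lt_irrefl x), if_neg (lt_irrefl y), if_neg (lt_irrefl z), if_neg (lt_irrefl x⁻¹), if_neg (lt_irrefl y⁻¹), if_neg (lt_irrefl z⁻¹)]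
    subst hz
    group
  · simp only [zn, zf, fm, if_pos p01, if_neg p01.not_gt, if_pos p02, if_neg p02.not_gt, if_pos p03, if_neg p03.not_gt, if_pos p04, if_neg p04.not_gt, if_pos p05, if_neg p05.not_gt, if_pos p12, if_neg p12.not_gt, if_pos p13, if_neg p13.not_gt, if_pos p14, if_neg p14.not_gt, if_pos p15, if_neg p15.not_gt, if_pos p23, if_neg p23.not_gt, if_pos p24, if_neg p24.not_gt, if_pos p25, if_neg p25.not_gt, if_pos p34, if_neg p34.not_gt, if_pos p35, if_neg p35.not_gt, if_pos p45, if_neg p45.not_gt, if_neg (lt_irrefl x), if_neg (lt_irrefl y), if_neg (lt_irrefl z), if_neg (lt_irrefl x⁻¹), if_neg (lt_irrefl y⁻¹), if_neg (lt_irrefl z⁻¹)]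
    subst hz
    group

private theorem PRa_CAB {x y z : F g} (hz : x * y = z) (p01 : z⁻¹ < y⁻¹) (p12 : y⁻¹ < x) (p23 : x < z) (p34 : z < y) (p45 : y < x⁻¹) :
    (∀ d : F g, Out x y z d → d ≠ x → d ≠ x⁻¹ → d ≠ y → d ≠ y⁻¹ → d ≠ z → d ≠ z⁻¹ →
        zf y (fm x y) d * zn x d = zeta g ^ (0 : ℤ) * zn z d) ∧
      zf y (fm x y) x * x * (zf y (fm x y) x⁻¹)⁻¹ = zeta g ^ (0 : ℤ) * fm z x * (zeta g ^ (0 : ℤ))⁻¹ ∧
      fm x y = zeta g ^ (0 : ℤ) * fm z y * (zeta g ^ (0 : ℤ))⁻¹ := by
  have p02 := p01.trans p12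
  have p13 := p12.trans p23
  have p24 := p23.trans p34
  have p35 := p34.trans p45
  have p03 := p02.trans p23
  have p14 := p13.trans p34
  have p25 := p24.trans p45
  have p04 := p03.trans p34
  have p15 := p14.trans p45
  have p05 := p04.trans p45
  refine ⟨fun d hO e1 e2 e3 e4 e5 e6 => ?_, ?_, ?_⟩
  · skip
    rcases lt_or_gt_of_ne e6 with q0 | q0
    · skip
      have c0 : d < z⁻¹ := q0
      have c1 : d < y⁻¹ := q0.trans p01
      have c2 : d < x := q0.trans p02
      have c3 : d < z := q0.trans p03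
      have c4 : d < y := q0.trans p04
      have c5 : d < x⁻¹ := q0.trans p05
      simp only [zn, zf, fm, if_pos p01, if_neg p01.not_gt, if_pos p02, if_neg p02.not_gt, if_pos p03, if_neg p03.not_gt, if_pos p04, if_neg p04.not_gt, if_pos p05, if_neg p05.not_gt, if_pos p12, if_neg p12.not_gt, if_pos p13, if_neg p13.not_gt, if_pos p14, if_neg p14.not_gt, if_pos p15, if_neg p15.not_gt, if_pos p23, if_neg p23.not_gt, if_pos p24, if_neg p24.not_gt, if_pos p25, if_neg p25.not_gt, if_pos p34, if_neg p34.not_gt, if_pos p35, if_neg p35.not_gt, if_pos p45, if_neg p45.not_gt, if_neg (lt_irrefl x), if_neg (lt_irrefl y), if_neg (lt_irrefl z), if_neg (lt_irrefl x⁻¹), if_neg (lt_irrefl y⁻¹), if_neg (lt_irrefl z⁻¹), if_pos c0, if_neg c0.not_gt, if_pos c1, if_neg c1.not_gt, if_pos c2, if_neg c2.not_gt, if_pos c3, if_neg c3.not_gt, if_pos c4, if_neg c4.not_gt, if_pos c5, if_neg c5.not_gt]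
      subst hz
      group
    · have r1 : y⁻¹ < d := by
        rcases lt_or_gt_of_ne e4 with h | h
        · exact absurd ⟨q0, h⟩ (hO.2.2)
        · exact h
      rcases lt_or_gt_of_ne e1 with q2 | q2
      · skip
        have c0 : z⁻¹ < d := p01.trans r1
        have c1 : y⁻¹ < d := r1
        have c2 : d < x := q2
        have c3 : d < z := q2.trans p23
        have c4 : d < y := q2.trans p24
        have c5 : d < x⁻¹ := q2.trans p25
        simp only [zn, zf, fm, if_pos p01, if_neg p01.not_gt, if_pos p02, if_neg p02.not_gt, if_pos p03, if_neg p03.not_gt, if_pos p04, if_neg p04.not_gt, if_pos p05, if_neg p05.not_gt, if_pos p12, if_neg p12.not_gt, if_pos p13, if_neg p13.not_gt, if_pos p14, if_neg p14.not_gt, if_pos p15, if_neg p15.not_gt, if_pos p23, if_neg p23.not_gt, if_pos p24, if_neg p24.not_gt, if_pos p25, if_neg p25.not_gt, if_pos p34, if_neg p34.not_gt, if_pos p35, if_neg p35.not_gt, if_pos p45, if_neg p45.not_gt, if_neg (lt_irrefl x), if_neg (lt_irrefl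 y), if_neg (lt_irrefl z), if_neg (lt_irrefl x⁻¹), if_neg (lt_irrefl y⁻¹), if_neg (lt_irrefl z⁻¹), if_pos c0, if_neg c0.not_gt, if_pos c1, if_neg c1.not_gt, if_pos c2, if_neg c2.not_gt, if_pos c3, if_neg c3.not_gt, if_pos c4, if_neg c4.not_gt, if_pos c5, if_neg c5.not_gt]
        subst hz
        group
      · have r3 : z < d := by
          rcases lt_or_gt_of_ne e5 with h | h
          · exact absurd ⟨q2, h⟩ (hO.1)
          · exact h
        rcases lt_or_gt_of_ne e3 with q4 | q4
        · skip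
          have c0 : z⁻¹ < d := p03.trans r3
          have c1 : y⁻¹ < d := p13.trans r3
          have c2 : x < d := p23.trans r3
          have c3 : z < d := r3
          have c4 : d < y := q4
          have c5 : d < x⁻¹ := q4.trans p45
          simp only [zn, zf, fm, if_pos p01, if_neg p01.not_gt, if_pos p02, if_neg p02.not_gt, if_pos p03, if_neg p03.not_gt, if_pos p04, if_neg p04.not_gt, if_pos p05, if_neg p05.not_gt, if_pos p12, if_neg p12.not_gt, if_pos p13, if_neg p13.not_gt, if_pos p14, if_neg p14.not_gt, if_pos p15, if_neg p15.not_gt, if_pos p23, if_neg p23.not_gt, if_pos p24, if_neg p24.not_gt, if_pos p25, if_neg p25.not_gt, if_pos p34, if_neg p34.not_gt, if_pos p35, if_neg p35.not_gt, if_pos p45, if_neg p45.not_gt, if_neg (lt_irrefl x), if_neg (lt_irrefl y), if_neg (lt_irrefl z), if_neg (lt_irrefl x⁻¹), if_neg (lt_irrefl y⁻¹), if_neg (lt_irrefl z⁻¹), if_pos c0, if_neg c0.not_gt, if_pos c1, if_neg c1.not_gt, if_pos c2, if_neg c2.not_gt, if_pos c3, if_neg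 c3.not_gt, if_pos c4, if_neg c4.not_gt, if_pos c5, if_neg c5.not_gt]
          subst hz
          group
        · have r5 : x⁻¹ < d := by
            rcases lt_or_gt_of_ne e2 with h | h
            · exact absurd ⟨q4, h⟩ (hO.2.1)
            · exact h
          have c0 : z⁻¹ < d := p05.trans r5
          have c1 : y⁻¹ < d := p15.trans r5
          have c2 : x < d := p25.trans r5
          have c3 : z < d := p35.trans r5
          have c4 : y < d := p45.trans r5
          have c5 : x⁻¹ < d := r5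
          simp only [zn, zf, fm, if_pos p01, if_neg p01.not_gt, if_pos p02, if_neg p02.not_gt, if_pos p03, if_neg p03.not_gt, if_pos p04, if_neg p04.not_gt, if_pos p05, if_neg p05.not_gt, if_pos p12, if_neg p12.not_gt, if_pos p13, if_neg p13.not_gt, if_pos p14, if_neg p14.not_gt, if_pos p15, if_neg p15.not_gt, if_pos p23, if_neg p23.not_gt, if_pos p24, if_neg p24.not_gt, if_pos p25, if_neg p25.not_gt, if_pos p34, if_neg p34.not_gt, if_pos p35, if_neg p35.not_gt, if_pos p45, if_neg p45.not_gt, if_neg (lt_irrefl x), if_neg (lt_irrefl y), if_neg (lt_irrefl z), if_neg (lt_irrefl x⁻¹), if_neg (lt_irrefl y⁻¹), if_neg (lt_irrefl z⁻¹), if_pos c0, if_neg c0.not_gt, if_pos c1, if_neg c1.not_gt, if_pos c2, if_neg c2.not_gt, if_pos c3, if_neg c3.not_gt, if_pos c4, if_neg c4.not_gt, if_pos c5, if_neg c5.not_gt]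
          subst hz
          group
  · simp only [zn, zf, fm, if_pos p01, if_neg p01.not_gt, if_pos p02, if_neg p02.not_gt, if_pos p03, if_neg p03.not_gt, if_pos p04, if_neg p04.not_gt, if_pos p05, if_neg p05.not_gt, if_pos p12, if_neg p12.not_gt, if_pos p13, if_neg p13.not_gt, if_pos p14, if_neg p14.not_gt, if_pos p15, if_neg p15.not_gt, if_pos p23, if_neg p23.not_gt, if_pos p24, if_neg p24.not_gt, if_pos p25, if_neg p25.not_gt, if_pos p34, if_neg p34.not_gt, if_pos p35, if_neg p35.not_gt, if_pos p45, if_neg p45.not_gt, if_neg (lt_irrefl x), if_neg (lt_irrefl y), if_neg (lt_irrefl z), if_neg (lt_irrefl x⁻¹), if_neg (lt_irrefl y⁻¹), if_neg (lt_irrefl z⁻¹)]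
    subst hz
    group
  · simp only [zn, zf, fm, if_pos p01, if_neg p01.not_gt, if_pos p02, if_neg p02.not_gt, if_pos p03, if_neg p03.not_gt, if_pos p04, if_neg p04.not_gt, if_pos p05, if_neg p05.not_gt, if_pos p12, if_neg p12.not_gt, if_pos p13, if_neg p13.not_gt, if_pos p14, if_neg p14.not_gt, if_pos p15, if_neg p15.not_gt, if_pos p23, if_neg p23.not_gt, if_pos p24, if_neg p24.not_gt, if_pos p25, if_neg p25.not_gt, if_pos p34, if_neg p34.not_gt, if_pos p35, if_neg p35.not_gt, if_pos p45, if_neg p45.not_gt, if_neg (lt_irrefl x), if_neg (lt_irrefl y), if_neg (lt_irrefl z), if_neg (lt_irrefl x⁻¹), if_neg (lt_irrefl y⁻¹), if_neg (lt_irrefl z⁻¹)]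
    subst hz
    group

private theorem PRa_BAC {x y z : F g} (hz : x * y = z) (p01 : y < x⁻¹) (p12 : x⁻¹ < x) (p23 : x < z) (p34 : z < z⁻¹) (p45 : z⁻¹ < y⁻¹) :
    (∀ d : F g, Out x y z d → d ≠ x → d ≠ x⁻¹ → d ≠ y → d ≠ y⁻¹ → d ≠ z → d ≠ z⁻¹ →
        zf y (fm x y) d * zn x d = zeta g ^ (1 : ℤ) * zn z d) ∧
      zf y (fm x y) x * x * (zf y (fm x y) x⁻¹)⁻¹ = zeta g ^ (1 : ℤ) * fm z x * (zeta g ^ (1 : ℤ))⁻¹ ∧
      fm x y = zeta g ^ (1 : ℤ) * fm z y * (zeta g ^ (1 : ℤ))⁻¹ := by
  have p02 := p01.trans p12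
  have p13 := p12.trans p23
  have p24 := p23.trans p34
  have p35 := p34.trans p45
  have p03 := p02.trans p23
  have p14 := p13.trans p34
  have p25 := p24.trans p45
  have p04 := p03.trans p34
  have p15 := p14.trans p45
  have p05 := p04.trans p45
  refine ⟨fun d hO e1 e2 e3 e4 e5 e6 => ?_, ?_, ?_⟩
  · skip
    rcases lt_or_gt_of_ne e3 with q0 | q0
    · skip
      have c0 : d < y := q0
      have c1 : d < x⁻¹ := q0.trans p01
      have c2 : d < x := q0.trans p02
      have c3 : d < z := q0.trans p03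
      have c4 : d < z⁻¹ := q0.trans p04
      have c5 : d < y⁻¹ := q0.trans p05
      simp only [zn, zf, fm, if_pos p01, if_neg p01.not_gt, if_pos p02, if_neg p02.not_gt, if_pos p03, if_neg p03.not_gt, if_pos p04, if_neg p04.not_gt, if_pos p05, if_neg p05.not_gt, if_pos p12, if_neg p12.not_gt, if_pos p13, if_neg p13.not_gt, if_pos p14, if_neg p14.not_gt, if_pos p15, if_neg p15.not_gt, if_pos p23, if_neg p23.not_gt, if_pos p24, if_neg p24.not_gt, if_pos p25, if_neg p25.not_gt, if_pos p34, if_neg p34.not_gt, if_pos p35, if_neg p35.not_gt, if_pos p45, if_neg p45.not_gt, if_neg (lt_irrefl x), if_neg (lt_irrefl y), if_neg (lt_irrefl z), if_neg (lt_irrefl x⁻¹), if_neg (lt_irrefl y⁻¹), if_neg (lt_irrefl z⁻¹), if_pos c0, if_neg c0.not_gt, if_pos c1, if_neg c1.not_gt, if_pos c2, if_neg c2.not_gt, if_pos c3, if_neg c3.not_gt, if_pos c4, if_neg c4.not_gt, if_pos c5, if_neg c5.not_gt]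
      subst hz
      group
    · have r1 : x⁻¹ < d := by
        rcases lt_or_gt_of_ne e2 with h | h
        · exact absurd ⟨q0, h⟩ (hO.2.1)
        · exact h
      rcases lt_or_gt_of_ne e1 with q2 | q2
      · skip
        have c0 : y < d := p01.trans r1
        have c1 : x⁻¹ < d := r1
        have c2 : d < x := q2
        have c3 : d < z := q2.trans p23
        have c4 : d < z⁻¹ := q2.trans p24
        have c5 : d < y⁻¹ := q2.trans p25
        simp only [zn, zf, fm, if_pos p01, if_neg p01.not_gt, if_pos p02, if_neg p02.not_gt, if_pos p03, if_neg p03.not_gt, if_pos p04, if_neg p04.not_gt, if_pos p05, if_neg p05.not_gt, if_pos p12, if_neg p12.not_gt, if_pos p13, if_neg p13.not_gt, if_pos p14, if_neg p14.not_gt, if_pos p15, if_neg p15.not_gt, if_pos p23, if_neg p23.not_gt, if_pos p24, if_neg p24.not_gt, if_pos p25, if_neg p25.not_gt, if_pos p34, if_neg p34.not_gt, if_pos p35, if_neg p35.not_gt, if_pos p45, if_neg p45.not_gt, if_neg (lt_irrefl x), if_neg (lt_irrefl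 y), if_neg (lt_irrefl z), if_neg (lt_irrefl x⁻¹), if_neg (lt_irrefl y⁻¹), if_neg (lt_irrefl z⁻¹), if_pos c0, if_neg c0.not_gt, if_pos c1, if_neg c1.not_gt, if_pos c2, if_neg c2.not_gt, if_pos c3, if_neg c3.not_gt, if_pos c4, if_neg c4.not_gt, if_pos c5, if_neg c5.not_gt]
        subst hz
        group
      · have r3 : z < d := by
          rcases lt_or_gt_of_ne e5 with h | h
          · exact absurd ⟨q2, h⟩ (hO.1)
          · exact h
        rcases lt_or_gt_of_ne e6 with q4 | q4
        · skip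
          have c0 : y < d := p03.trans r3
          have c1 : x⁻¹ < d := p13.trans r3
          have c2 : x < d := p23.trans r3
          have c3 : z < d := r3
          have c4 : d < z⁻¹ := q4
          have c5 : d < y⁻¹ := q4.trans p45
          simp only [zn, zf, fm, if_pos p01, if_neg p01.not_gt, if_pos p02, if_neg p02.not_gt, if_pos p03, if_neg p03.not_gt, if_pos p04, if_neg p04.not_gt, if_pos p05, if_neg p05.not_gt, if_pos p12, if_neg p12.not_gt, if_pos p13, if_neg p13.not_gt, if_pos p14, if_neg p14.not_gt, if_pos p15, if_neg p15.not_gt, if_pos p23, if_neg p23.not_gt, if_pos p24, if_neg p24.not_gt, if_pos p25, if_neg p25.not_gt, if_pos p34, if_neg p34.not_gt, if_pos p35, if_neg p35.not_gt, if_pos p45, if_neg p45.not_gt, if_neg (lt_irrefl x), if_neg (lt_irrefl y), if_neg (lt_irrefl z), if_neg (lt_irrefl x⁻¹), if_neg (lt_irrefl y⁻¹), if_neg (lt_irrefl z⁻¹), if_pos c0, if_neg c0.not_gt, if_pos c1, if_neg c1.not_gt, if_pos c2, if_neg c2.not_gt, if_pos c3, if_neg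 c3.not_gt, if_pos c4, if_neg c4.not_gt, if_pos c5, if_neg c5.not_gt]
          subst hz
          group
        · have r5 : y⁻¹ < d := by
            rcases lt_or_gt_of_ne e4 with h | h
            · exact absurd ⟨q4, h⟩ (hO.2.2)
            · exact h
          have c0 : y < d := p05.trans r5
          have c1 : x⁻¹ < d := p15.trans r5
          have c2 : x < d := p25.trans r5
          have c3 : z < d := p35.trans r5
          have c4 : z⁻¹ < d := p45.trans r5
          have c5 : y⁻¹ < d := r5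
          simp only [zn, zf, fm, if_pos p01, if_neg p01.not_gt, if_pos p02, if_neg p02.not_gt, if_pos p03, if_neg p03.not_gt, if_pos p04, if_neg p04.not_gt, if_pos p05, if_neg p05.not_gt, if_pos p12, if_neg p12.not_gt, if_pos p13, if_neg p13.not_gt, if_pos p14, if_neg p14.not_gt, if_pos p15, if_neg p15.not_gt, if_pos p23, if_neg p23.not_gt, if_pos p24, if_neg p24.not_gt, if_pos p25, if_neg p25.not_gt, if_pos p34, if_neg p34.not_gt, if_pos p35, if_neg p35.not_gt, if_pos p45, if_neg p45.not_gt, if_neg (lt_irrefl x), if_neg (lt_irrefl y), if_neg (lt_irrefl z), if_neg (lt_irrefl x⁻¹), if_neg (lt_irrefl y⁻¹), if_neg (lt_irrefl z⁻¹), if_pos c0, if_neg c0.not_gt, if_pos c1, if_neg c1.not_gt, if_pos c2, if_neg c2.not_gt, if_pos c3, if_neg c3.not_gt, if_pos c4, if_neg c4.not_gt, if_pos c5, if_neg c5.not_gt]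
          subst hz
          group
  · simp only [zn, zf, fm, if_pos p01, if_neg p01.not_gt, if_pos p02, if_neg p02.not_gt, if_pos p03, if_neg p03.not_gt, if_pos p04, if_neg p04.not_gt, if_pos p05, if_neg p05.not_gt, if_pos p12, if_neg p12.not_gt, if_pos p13, if_neg p13.not_gt, if_pos p14, if_neg p14.not_gt, if_pos p15, if_neg p15.not_gt, if_pos p23, if_neg p23.not_gt, if_pos p24, if_neg p24.not_gt, if_pos p25, if_neg p25.not_gt, if_pos p34, if_neg p34.not_gt, if_pos p35, if_neg p35.not_gt, if_pos p45, if_neg p45.not_gt, if_neg (lt_irrefl x), if_neg (lt_irrefl y), if_neg (lt_irrefl z), if_neg (lt_irrefl x⁻¹), if_neg (lt_irrefl y⁻¹), if_neg (lt_irrefl z⁻¹)]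
    subst hz
    group
  · simp only [zn, zf, fm, if_pos p01, if_neg p01.not_gt, if_pos p02, if_neg p02.not_gt, if_pos p03, if_neg p03.not_gt, if_pos p04, if_neg p04.not_gt, if_pos p05, if_neg p05.not_gt, if_pos p12, if_neg p12.not_gt, if_pos p13, if_neg p13.not_gt, if_pos p14, if_neg p14.not_gt, if_pos p15, if_neg p15.not_gt, if_pos p23, if_neg p23.not_gt, if_pos p24, if_neg p24.not_gt, if_pos p25, if_neg p25.not_gt, if_pos p34, if_neg p34.not_gt, if_pos p35, if_neg p35.not_gt, if_pos p45, if_neg p45.not_gt, if_neg (lt_irrefl x), if_neg (lt_irrefl y), if_neg (lt_irrefl z), if_neg (lt_irrefl x⁻¹), if_neg (lt_irrefl y⁻¹), if_neg (lt_irrefl z⁻¹)]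
    subst hz
    group

private theorem PRa_sep {a b c d : F g} (hab : a < b) (hcd : c < d) (h1 : ¬ (a < c ∧ c < b))
    (h2 : ¬ (c < a ∧ a < d)) (h3 : ¬ (a < d ∧ d < b)) (n1 : a ≠ c) (n2 : b ≠ c) (n3 : a ≠ d)
    (n4 : b ≠ d) : b < c ∨ d < a := by
  rcases lt_or_gt_of_ne n1 with g1 | g1
  · rcases lt_or_gt_of_ne n2 with g2 | g2
    · exact Or.inl g2
    · exact absurd ⟨g1, g2⟩ h1
  · rcases lt_or_gt_of_ne n3 with g2 | g2
    · exact absurd ⟨g1, g2⟩ h2
    · exact Or.inr g2

theorem tri_id {x y z : F g} (hz : x * y = z) (hA : x < z) (hB : y < x⁻¹) (hC : z⁻¹ < y⁻¹)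
    (d1 : x ≠ x⁻¹) (d2 : y ≠ y⁻¹) (d3 : z ≠ z⁻¹) (d4 : x ≠ y) (d5 : x ≠ y⁻¹) (d6 : x ≠ z⁻¹)
    (d7 : y ≠ z) (d8 : y ≠ z⁻¹)
    (o1 : Out x y z x) (o2 : Out x y z x⁻¹) (o3 : Out x y z y) (o4 : Out x y z y⁻¹) (o5 : Out x y z z)
    (o6 : Out x y z z⁻¹) :
    ∃ k : ℤ,
      (∀ d : F g, Out x y z d → d ≠ x → d ≠ x⁻¹ → d ≠ y → d ≠ y⁻¹ → d ≠ z → d ≠ z⁻¹ →
        zf y (fm x y) d * zn x d = zeta g ^ k * zn z d) ∧
      zf y (fm x y) x * x * (zf y (fm x y) x⁻¹)⁻¹ = zeta g ^ k * fm z x * (zeta g ^ k)⁻¹ ∧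
      fm x y = zeta g ^ k * fm z y * (zeta g ^ k)⁻¹ := by
  have e1 : z ≠ x⁻¹ := fun h => d6 (by rw [h, _root_.inv_inv])
  have e2 : z ≠ y⁻¹ := fun h => d8 (by rw [h, _root_.inv_inv])
  have e3 : x⁻¹ ≠ z⁻¹ := fun h => hA.ne (inv_injective h)
  have e4 : x⁻¹ ≠ y⁻¹ := fun h => d4 (inv_injective h)
  have s1 : z < y ∨ x⁻¹ < x := PRa_sep hA hB o3.1 o1.2.1 o2.1 d4 d7.symm d1 e1
  have s2 : z < z⁻¹ ∨ y⁻¹ < x := PRa_sep hA hC o6.1 o1.2.2 o4.1 d6 d3 d5 e2
  have s3 : x⁻¹ < z⁻¹ ∨ y⁻¹ < y := PRa_sep hB hC o6.2.1 o3.2.2 o4.2.1 d8 e3 d2 e4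
  rcases s1 with s1 | s1 <;> rcases s2 with s2 | s2 <;> rcases s3 with s3 | s3
  · exact ⟨0, PRa_ABC hz hA s1 hB s3 hC⟩
  · exact ⟨1, PRa_ACB hz hA s2 hC s3 hB⟩
  · exact absurd (((s1.trans hB).trans (s3.trans hC)).trans (s2.trans hA)) (lt_irrefl _)
  · exact ⟨0, PRa_CAB hz hC s2 hA s1 hB⟩
  · exact ⟨1, PRa_BAC hz hB s1 hA s2 hC⟩
  · exact absurd (((s1.trans hA).trans (s2.trans hC)).trans (s3.trans hB)) (lt_irrefl _)
  · exact ⟨0, PRa_BCA hz hB s3 hC s2 hA⟩
  · exact ⟨1, PRa_CBA hz hC s3 hB s1 hA⟩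

end TorP
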