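import Pool.Agent.Lib.MP_05cdf2_gt.P.PZ

/-! MP_05cdf2_gt, job P.PT. The triangle lemma.

Triangle `1, y, z = y * y'`. By `Good.inv` one may assume that it is counterclockwise, i.e. `y < z`: otherwise
`z < y` (they are distinct as `y' ≠ 1`), `Cyc 1 z y`, so `Cyc z⁻¹ 1 y'⁻¹` (`cyc_mul` by `z⁻¹`; `z⁻¹ y = y'⁻¹`), i.e.
`y'⁻¹ < z⁻¹`, and one applies the lemma to `(y'⁻¹, y⁻¹)`, whose product is `z⁻¹`.

So `1 < y < z`; by `cyc_mul`: `1 < y' < y⁻¹` and `1 < z⁻¹ < y'⁻¹`.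
Claim: for `s = x` and for `s = x⁻¹`, `s` is not in the open intervals `(y, z)`, `(y', y⁻¹)`, `(z⁻¹, y'⁻¹)`:
 `s ∈ (y, z)`: the chord `{y, z} = {y, y * y'}` crosses `{1, s}`, against `U s y'`;
 `s ∈ (y', y⁻¹)`: the chord `{y⁻¹, y'} = {y⁻¹, y⁻¹ * z}` crosses `{1, s}`, against `U s z`;
 `s ∈ (z⁻¹, y'⁻¹)`: the chord `{z⁻¹, y'⁻¹} = {z⁻¹, z⁻¹ * y}` crosses `{1, s}`, against `U s y`.
(`Cr 1 s p q` with `p < s < q`, `1 < p`: `Or.inl`: `Cyc 1 p s` and `Cyc s q 1`.)

Define `α, β, γ` by `zn x z = zn x y * α`, `zn x y⁻¹ = zn x y' * β`, `zn x y'⁻¹ = zn x z⁻¹ * γ`. Then the goal is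
`y * β⁻¹ * y' * γ⁻¹ = α * y * y'`.
Case `x < x⁻¹`. By the claim:
  `α = ζ` if `x = z`; `α = x⁻¹ ζ⁻¹ x` if `x = y⁻¹`; `α = 1` otherwise;
  `β = ζ` if `x = y⁻¹`; `β = x⁻¹ ζ⁻¹ x` if `x = y'⁻¹`; `β = 1` otherwise;
  `γ = ζ` if `x = y'⁻¹`; `γ = x⁻¹ ζ⁻¹ x` if `x = z`; `γ = 1` otherwise.
 Two of `x = z`, `x = y⁻¹`, `x = y'⁻¹` cannot hold together: `x = z = y⁻¹`: `y < z` says `x⁻¹ < x`;
 `x = z = y'⁻¹`: `y = x^2 < z = x`, but `Cyc 1 x x⁻¹` gives `Cyc x (x^2) 1`, `x < x^2`; `x = y⁻¹ = y'⁻¹`: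
 `y = x⁻¹ < z = x⁻²`, but `Cyc 1 x x⁻¹` gives `Cyc x⁻¹ 1 x⁻²`, i.e. `x⁻² < x⁻¹`.
 In each of the four remaining cases the identity is immediate (`group`).
Case `x⁻¹ < x`:
  `α = ζ` if `x = y`; `α = x⁻¹ ζ⁻¹ x` if `x⁻¹ = z`; `α = 1` otherwise;
  `β = ζ` if `x = y'`; `β = x⁻¹ ζ⁻¹ x` if `x = y`; `β = 1` otherwise;
  `γ = ζ` if `x⁻¹ = z`; `γ = x⁻¹ ζ⁻¹ x` if `x = y'`; `γ = 1` otherwise.
 Two of `x = y`, `x = y'`, `x⁻¹ = z` cannot hold together: `x = y = y'`: `x < x^2`, but `Cyc 1 x⁻¹ x` gives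
 `Cyc x 1 (x^2)`, i.e. `x^2 < x`; `x = y = z⁻¹`: `x < x⁻¹`; `x = y' = z⁻¹`: `y = x⁻² < z = x⁻¹`, but `Cyc 1 x⁻¹ x`
 gives `Cyc x⁻¹ x⁻² 1`, i.e. `x⁻¹ < x⁻²`.
This has been checked by computer on 50000 examples. -/

set_option autoImplicit false

namespace TorP
open TorM

variable {g : ℕ}

/-- nothing on the left of `1` -/
theorem PT_not_lt_one (x : F g) : ¬ x < 1 := not_lt.mpr (one_le x)

/-- the cyclic order seen from `1`, middle position -/
theorem PT_cyc_mid {p q : F g} (h : Cyc p 1 q) : q < p := by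
  have h1 := PT_not_lt_one p
  have h2 := PT_not_lt_one q
  unfold Cyc at h
  tauto

theorem PT_cyc_last {p q : F g} (h : Cyc p q 1) : p < q := by
  have h1 := PT_not_lt_one p
  have h2 := PT_not_lt_one q
  unfold Cyc at h
  tauto

theorem PT_cyc_one {p q : F g} (hp : p ≠ 1) (h : p < q) : Cyc 1 p q := Or.inl ⟨one_lt hp, h⟩

/-- `s` is not between two points joined by a lift of an element unlinked with `s` -/
theorem PT_between {s b p q : F g} (h : U s b) (hp : p ≠ 1) (e : q = p * b ∨ p = q * b) :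
    ¬ (p < s ∧ s < q) := by
  rintro ⟨h1, h2⟩
  have h3 : 1 < p := one_lt hp
  rcases e with e | e
  · have h4 := h p
    rw [← e] at h4
    exact h4 (Or.inl ⟨Or.inl ⟨h3, h1⟩, Or.inr (Or.inr ⟨h3.trans h1, h2⟩)⟩)
  · have h4 := h q
    rw [← e] at h4
    exact h4 (Or.inr ⟨Or.inl ⟨h3, h1⟩, Or.inr (Or.inr ⟨h3.trans h1, h2⟩)⟩)

theorem PT_stepA {x p q : F g} (hx : x < x⁻¹) (hpq : p < q) (h1 : ¬ (p < x ∧ x < q))
    (h2 : ¬ (p < x⁻¹ ∧ x⁻¹ < q)) :
    zn x q = zn x p * (if x = q then zeta g else if x⁻¹ = p then x⁻¹ * (zeta g)⁻¹ * x else 1) := by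
  unfold zn
  rw [if_pos hx, if_pos hx]
  by_cases e1 : x = q
  · subst e1
    rw [if_pos rfl, if_neg (lt_irrefl x), if_neg (not_lt.mpr hx.le), if_pos hpq, inv_mul_cancel_right]
  · rw [if_neg e1]
    by_cases e2 : x⁻¹ = p
    · rw [if_pos e2, if_neg (not_lt.mpr (le_trans hx.le (e2 ▸ hpq.le))), if_pos (e2 ▸ hpq),
        if_neg (not_lt.mpr (e2 ▸ hx.le)), if_neg (not_lt.mpr (ge_of_eq e2))]
      group
    · rw [if_neg e2, mul_one]
      rcases lt_trichotomy q x with h3 | h3 | h3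
      · rw [if_pos h3, if_pos (hpq.trans h3)]
      · exact absurd h3.symm e1
      · have h4 : x ≤ p := by
          by_contra hcon
          exact h1 ⟨not_le.mp hcon, h3⟩
        rw [if_neg (not_lt.mpr h3.le), if_neg (not_lt.mpr h4)]
        rcases lt_trichotomy x⁻¹ p with h5 | h5 | h5
        · rw [if_pos h5, if_pos (h5.trans hpq)]
        · exact absurd h5 e2
        · have h6 : q ≤ x⁻¹ := by
            by_contra hcon
            exact h2 ⟨h5, not_le.mp hcon⟩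
          rw [if_neg (not_lt.mpr h6), if_neg (not_lt.mpr h5.le)]

theorem PT_stepB {x p q : F g} (hx : x⁻¹ < x) (hpq : p < q) (h1 : ¬ (p < x ∧ x < q))
    (h2 : ¬ (p < x⁻¹ ∧ x⁻¹ < q)) :
    zn x q = zn x p * (if x⁻¹ = q then x⁻¹ * (zeta g)⁻¹ * x else if x = p then zeta g else 1) := by
  unfold zn
  rw [if_neg (not_lt.mpr hx.le), if_neg (not_lt.mpr hx.le)]
  by_cases e1 : x⁻¹ = q
  · rw [if_pos e1, if_neg (not_lt.mpr (le_of_eq e1)), if_neg (not_lt.mpr (e1 ▸ hx.le)), if_pos (e1 ▸ hpq)]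
    group
  · rw [if_neg e1]
    by_cases e2 : x = p
    · subst e2
      rw [if_pos rfl, if_neg (not_lt.mpr (hx.le.trans hpq.le)), if_pos hpq,
        if_neg (not_lt.mpr hx.le), if_neg (lt_irrefl x)]
    · rw [if_neg e2, mul_one]
      rcases lt_trichotomy q x⁻¹ with h3 | h3 | h3
      · rw [if_pos h3, if_pos (hpq.trans h3)]
      · exact absurd h3.symm e1
      · have h4 : x⁻¹ ≤ p := by
          by_contra hcon
          exact h2 ⟨not_le.mp hcon, h3⟩
        rw [if_neg (not_lt.mpr h3.le), if_neg (not_lt.mpr h4)]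
        rcases lt_trichotomy x p with h5 | h5 | h5
        · rw [if_pos h5, if_pos (h5.trans hpq)]
        · exact absurd h5 e2
        · have h6 : q ≤ x := by
            by_contra hcon
            exact h1 ⟨h5, not_le.mp hcon⟩
          rw [if_neg (not_lt.mpr h6), if_neg (not_lt.mpr h5.le)]

/-- the algebra of the triangle -/
theorem PT_alg {x y y' z a b c : F g} (hz : z = y * y') (ha : zn x z = zn x y * a)
    (hb : zn x y⁻¹ = zn x y' * b) (hc : zn x y'⁻¹ = zn x z⁻¹ * c) (h : y * b⁻¹ * y' * c⁻¹ = a * z) :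
    fm x y * fm x y' = fm x z := by
  unfold fm
  rw [ha, hb, hc]
  have e1 : zn x y * y * (zn x y' * b)⁻¹ * (zn x y' * y' * (zn x z⁻¹ * c)⁻¹) =
      zn x y * (y * b⁻¹ * y' * c⁻¹) * (zn x z⁻¹)⁻¹ := by group
  rw [e1, h]
  group

theorem PT_ccw {x y y' : F g} (hx : x ≠ 1) (hy : y ≠ 1) (hy' : y' ≠ 1) (hz : y * y' ≠ 1)
    (h1 : U x y) (h2 : U x y') (h3 : U x (y * y')) (hlt : y < y * y') :
    fm x y * fm x y' = fm x (y * y') := by
  obtain ⟨z, hzd⟩ : ∃ z, z = y * y' := ⟨_, rfl⟩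
  rw [← hzd] at hz h3 hlt ⊢
  have c0 : Cyc 1 y z := PT_cyc_one hy hlt
  have c1 : y' < y⁻¹ := by
    have h := (cyc_mul y⁻¹ 1 y z).mpr c0
    rw [mul_one, inv_mul_cancel, hzd, inv_mul_cancel_left] at h
    exact PT_cyc_mid h
  have c2 : z⁻¹ < y'⁻¹ := by
    have h := (cyc_mul z⁻¹ 1 y z).mpr c0
    rw [mul_one, inv_mul_cancel] at h
    have e : z⁻¹ * y = y'⁻¹ := by
      rw [hzd]
      group
    rw [e] at h
    exact PT_cyc_last h
  have hz' : z⁻¹ ≠ 1 := inv_ne_one.mpr hz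
  have hx' : x⁻¹ ≠ 1 := inv_ne_one.mpr hx
  have e2 : y' = y⁻¹ * z := by
    rw [hzd]
    group
  have e3 : y'⁻¹ = z⁻¹ * y := by
    rw [hzd]
    group
  have a1 := PT_between (s := x) h2 hy (Or.inl hzd)
  have a2 := PT_between (s := x⁻¹) h2.inv_left hy (Or.inl hzd)
  have b1 := PT_between (s := x) h3 hy' (Or.inr e2)
  have b2 := PT_between (s := x⁻¹) h3.inv_left hy' (Or.inr e2)
  have d1 := PT_between (s := x) h1 hz' (Or.inl e3)
  have d2 := PT_between (s := x⁻¹) h1.inv_left hz' (Or.inl e3)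
  rcases lt_or_inv hx with hlt' | hlt'
  · have s1 := PT_stepA hlt' hlt a1 a2
    have s2 := PT_stepA hlt' c1 b1 b2
    have s3 := PT_stepA hlt' c2 d1 d2
    refine PT_alg hzd s1 s2 s3 ?_
    -- the exclusions
    have k0 : Cyc 1 x x⁻¹ := PT_cyc_one hx hlt'
    have k1 : x < x * x := by
      have h := (cyc_mul x 1 x x⁻¹).mpr k0
      rw [mul_one, mul_inv_cancel] at h
      exact PT_cyc_last h
    have k2 : x⁻¹ * x⁻¹ < x⁻¹ := by
      have h := (cyc_mul x⁻¹ 1 x x⁻¹).mpr k0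
      rw [mul_one, inv_mul_cancel] at h
      exact PT_cyc_mid h
    have n1 : x = z → x = y⁻¹ → False := by
      intro h h'
      have h'' : x⁻¹ = y := by rw [h', _root_.inv_inv]
      rw [← h, ← h''] at hlt
      exact absurd hlt (not_lt.mpr hlt'.le)
    have n2 : x = z → x⁻¹ = y' → False := by
      intro h h'
      have h'' : y = x * x := by
        have : y = z * y'⁻¹ := by rw [hzd, mul_inv_cancel_right]
        rw [this, ← h, ← h', _root_.inv_inv]
      rw [← h, h''] at hlt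
      exact absurd hlt (not_lt.mpr k1.le)
    have n3 : x⁻¹ = y → x⁻¹ = y' → False := by
      intro h h'
      rw [hzd, ← h, ← h'] at hlt
      exact absurd hlt (not_lt.mpr k2.le)
    by_cases i1 : x = z
    · have i2 : ¬ x = y⁻¹ := fun h => n1 i1 h
      have i3 : ¬ x⁻¹ = y' := fun h => n2 i1 h
      have i4 : ¬ x = y'⁻¹ := fun h => i3 (by rw [h, _root_.inv_inv])
      rw [if_pos i1, if_neg i2, if_neg i3, if_neg i4, if_pos (by rw [i1])]
      rw [inv_one, mul_one, ← hzd, ← i1]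
      group
    · by_cases i2 : x = y⁻¹
      · have i2' : x⁻¹ = y := by rw [i2, _root_.inv_inv]
        have i3 : ¬ x⁻¹ = y' := fun h => n3 i2' h
        have i4 : ¬ x = y'⁻¹ := fun h => i3 (by rw [h, _root_.inv_inv])
        have i5 : ¬ x⁻¹ = z⁻¹ := fun h => i1 (inv_injective h)
        rw [if_neg i1, if_pos i2', if_pos i2, if_neg i4, if_neg i5, inv_one, mul_one, hzd, ← i2']
        group
      · have i2' : ¬ x⁻¹ = y := fun h => i2 (by rw [← h, _root_.inv_inv])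
        have i5 : ¬ x⁻¹ = z⁻¹ := fun h => i1 (inv_injective h)
        by_cases i3 : x⁻¹ = y'
        · have i4 : x = y'⁻¹ := by rw [← i3, _root_.inv_inv]
          rw [if_neg i1, if_neg i2', if_neg i2, if_pos i3, if_pos i4, hzd, ← i3]
          group
        · have i4 : ¬ x = y'⁻¹ := fun h => i3 (by rw [h, _root_.inv_inv])
          rw [if_neg i1, if_neg i2', if_neg i2, if_neg i3, if_neg i4, if_neg i5, hzd]
          group
  · have s1 := PT_stepB hlt' hlt a1 a2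
    have s2 := PT_stepB hlt' c1 b1 b2
    have s3 := PT_stepB hlt' c2 d1 d2
    refine PT_alg hzd s1 s2 s3 ?_
    have k0 : Cyc 1 x⁻¹ x := PT_cyc_one hx' hlt'
    have k1 : x * x < x := by
      have h := (cyc_mul x 1 x⁻¹ x).mpr k0
      rw [mul_one, mul_inv_cancel] at h
      exact PT_cyc_mid h
    have k2 : x⁻¹ < x⁻¹ * x⁻¹ := by
      have h := (cyc_mul x⁻¹ 1 x⁻¹ x).mpr k0
      rw [mul_one, inv_mul_cancel] at h
      exact PT_cyc_last h
    have n1 : x = y → x⁻¹ = z → False := by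
      intro h h'
      rw [← h, ← h'] at hlt
      exact absurd hlt (not_lt.mpr hlt'.le)
    have n2 : x = y → x = y' → False := by
      intro h h'
      rw [hzd, ← h, ← h'] at hlt
      exact absurd hlt (not_lt.mpr k1.le)
    have n3 : x⁻¹ = z → x = y' → False := by
      intro h h'
      have h'' : y = x⁻¹ * x⁻¹ := by
        have : y = z * y'⁻¹ := by rw [hzd, mul_inv_cancel_right]
        rw [this, ← h, ← h']
      rw [← h, h''] at hlt
      exact absurd hlt (not_lt.mpr k2.le)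
    by_cases i1 : x⁻¹ = z
    · have i1' : x = z⁻¹ := by rw [← i1, _root_.inv_inv]
      have i2 : ¬ x = y := fun h => n1 h i1
      have i2' : ¬ x⁻¹ = y⁻¹ := fun h => i2 (inv_injective h)
      have i3 : ¬ x = y' := fun h => n3 i1 h
      have i3' : ¬ x⁻¹ = y'⁻¹ := fun h => i3 (inv_injective h)
      rw [if_pos i1, if_neg i2', if_neg i3, if_neg i3', if_pos i1', inv_one, mul_one, ← hzd, ← i1]
      group
    · have i1' : ¬ x = z⁻¹ := fun h => i1 (by rw [h, _root_.inv_inv])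
      by_cases i2 : x = y
      · have i3 : ¬ x = y' := fun h => n2 i2 h
        have i3' : ¬ x⁻¹ = y'⁻¹ := fun h => i3 (inv_injective h)
        rw [if_neg i1, if_pos i2, if_pos (by rw [i2]), if_neg i3', if_neg i1', inv_one, mul_one, hzd, ← i2]
        group
      · have i2' : ¬ x⁻¹ = y⁻¹ := fun h => i2 (inv_injective h)
        by_cases i3 : x = y'
        · rw [if_neg i1, if_neg i2, if_neg i2', if_pos i3, if_pos (by rw [i3]), hzd, ← i3]
          group
        · have i3' : ¬ x⁻¹ = y'⁻¹ := fun h => i3 (inv_injective h)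
          rw [if_neg i1, if_neg i2, if_neg i2', if_neg i3, if_neg i3', if_neg i1', hzd]
          group

theorem tri_good {x y y' : F g} (hx : x ≠ 1) (hy : y ≠ 1) (hy' : y' ≠ 1) (hz : y * y' ≠ 1)
    (h1 : U x y) (h2 : U x y') (h3 : U x (y * y')) {P : F g →* F g} (g1 : Good x P y)
    (g2 : Good x P y') : Good x P (y * y') := by
  rcases lt_trichotomy y (y * y') with h | h | h
  · have h4 := PT_ccw hx hy hy' hz h1 h2 h3 h
    unfold Good at g1 g2 ⊢
    rw [map_mul, g1, g2, h4]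
  · exfalso
    apply hy'
    have h4 : y * 1 = y * y' := by rw [mul_one]; exact h
    exact (mul_left_cancel h4).symm
  · have c0 : Cyc 1 (y * y') y := PT_cyc_one hz h
    have c1 : y'⁻¹ < y'⁻¹ * y⁻¹ := by
      have h4 := (cyc_mul (y * y')⁻¹ 1 (y * y') y).mpr c0
      rw [mul_one, inv_mul_cancel, mul_inv_rev, inv_mul_cancel_right] at h4
      exact PT_cyc_mid h4
    have hz' : y'⁻¹ * y⁻¹ ≠ 1 := by
      rw [← mul_inv_rev]
      exact inv_ne_one.mpr hz
    have h3' : U x (y'⁻¹ * y⁻¹) := by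
      rw [← mul_inv_rev]
      exact h3.inv_right
    have h4 := PT_ccw hx (inv_ne_one.mpr hy') (inv_ne_one.mpr hy) hz' h2.inv_right h1.inv_right h3' c1
    have g3 : Good x P (y'⁻¹ * y⁻¹) := by
      have g1' := g1.inv
      have g2' := g2.inv
      unfold Good at g1' g2' ⊢
      rw [map_mul, g1', g2', h4]
    have g4 := g3.inv
    rw [mul_inv_rev, _root_.inv_inv, _root_.inv_inv] at g4
    exact g4

end TorP
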