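import Pool.Agent.Lib.MP_05cdf2_gt.P.PZ

/-! MP_05cdf2_gt, job P.PXw. Concrete comparisons, first part. `a = a_0`, `b = b_0`, `h = ζ a⁻¹`.

Ranks: `rk a = 0 < rk b⁻¹ = 1 < rk a⁻¹ = 2 < rk b = 3 < rk a_1 = 4 < ... < rk b_(g-1) = 4 g - 1`; the hair is `4 g`.
Words: `ζ = a b a⁻¹ b⁻¹ δ` with `δ = a_1 b_1 ... b_(g-1)⁻¹` reduced (`toWord_zeta`, `zetaWord`; `g ≥ 2`; write
`List.finRange g` as `0 :: 1 :: _`; `g = m + 2`, `List.finRange_succ`). Two elements are compared by `lt_iff`, `key`,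
`keyAux` along their reduced words, or, after cancelling a common initial part `p` by `cyc_mul` (`p⁻¹ *`), by their first
letters `lt_of_head`.
`lt_za`: `ζ⁻¹ a` has the reduced word `b_(g-1) a_(g-1) b_(g-1)⁻¹ ...` (it is the inverse of the word of `a⁻¹ ζ`); a
letter `l ≠ b_(g-1)` has a smaller rank; if `l = b_(g-1)`, compare the hair with `a_(g-1)` after `b_(g-1)`:
`pos (4 (g-1) + 1) (4 g) = 3 < 4 g = pos (4 (g-1) + 1) (4 (g-1))`.
`hh_lt`: `ζ a⁻¹ = a b a⁻¹ ...`, `a ζ⁻¹ = a b_(g-1) ...`; after `a` (arrival rank `2`), `pos 2 3 = 1 < pos 2 (4 g - 1)`.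
`zb_lt`: `ζ b = a b a⁻¹ ...`, `a` is followed by the hair: `pos 2 3 = 1 < pos 2 (4 g)`. -/

set_option autoImplicit false

namespace TorP
open TorM TorG

variable {g : ℕ}

theorem PXw_pos (l : Ltr g) : pos (4 * g) (4 * g) (rk l) = rk l + 1 := by
  have h := rk_lt l
  unfold pos
  rw [if_neg (by omega)]
  omega

theorem lt_of_head {x y : F g} {l m : Ltr g} {p q : List (Ltr g)} (hx : x.toWord = l :: p)
    (hy : y.toWord = m :: q) (h : rk l < rk m) : x < y := by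
  rw [lt_iff]
  unfold key
  rw [hx, hy]
  show pos (4 * g) (4 * g) (rk l) :: keyAux (rk (inv l)) p <
    pos (4 * g) (4 * g) (rk m) :: keyAux (rk (inv m)) q
  rw [List.cons_lt_cons_iff, PXw_pos, PXw_pos]
  left
  omega

/-- the same first letter, and the second positions are compared -/
theorem PXw_lt2 {x y : F g} {l m n : Ltr g} {p q : List (Ltr g)} (hx : x.toWord = l :: m :: p)
    (hy : y.toWord = l :: n :: q)
    (h : pos (4 * g) (rk (inv l)) (rk m) < pos (4 * g) (rk (inv l)) (rk n)) : x < y := by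
  rw [lt_iff]
  unfold key
  rw [hx, hy]
  show pos (4 * g) (4 * g) (rk l) :: pos (4 * g) (rk (inv l)) (rk m) :: keyAux (rk (inv m)) p <
    pos (4 * g) (4 * g) (rk l) :: pos (4 * g) (rk (inv l)) (rk n) :: keyAux (rk (inv n)) q
  rw [List.cons_lt_cons_iff, List.cons_lt_cons_iff]
  exact Or.inr ⟨rfl, Or.inl h⟩

theorem PXw_lt_hair {x y : F g} {l m : Ltr g} {p : List (Ltr g)} (hx : x.toWord = l :: m :: p)
    (hy : y.toWord = [l]) (h : pos (4 * g) (rk (inv l)) (rk m) < pos (4 * g) (rk (inv l)) (4 * g)) :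
    x < y := by
  rw [lt_iff]
  unfold key
  rw [hx, hy]
  show pos (4 * g) (4 * g) (rk l) :: pos (4 * g) (rk (inv l)) (rk m) :: keyAux (rk (inv m)) p <
    [pos (4 * g) (4 * g) (rk l), pos (4 * g) (rk (inv l)) (4 * g)]
  rw [List.cons_lt_cons_iff, List.cons_lt_cons_iff]
  exact Or.inr ⟨rfl, Or.inl h⟩

theorem PXw_hair_lt {x y : F g} {l m : Ltr g} {p : List (Ltr g)} (hx : x.toWord = [l])
    (hy : y.toWord = l :: m :: p)
    (h : pos (4 * g) (rk (inv l)) (4 * g) < pos (4 * g) (rk (inv l)) (rk m)) : x < y := by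
  rw [lt_iff]
  unfold key
  rw [hx, hy]
  show [pos (4 * g) (4 * g) (rk l), pos (4 * g) (rk (inv l)) (4 * g)] <
    pos (4 * g) (4 * g) (rk l) :: pos (4 * g) (rk (inv l)) (rk m) :: keyAux (rk (inv m)) p
  rw [List.cons_lt_cons_iff, List.cons_lt_cons_iff]
  exact Or.inr ⟨rfl, Or.inl h⟩

variable [NeZero g]

theorem PXw_split (hg : 2 ≤ g) : ∃ r : List (Ltr g), ∃ i1 j1 : Fin g, (i1 : ℕ) = 1 ∧ (j1 : ℕ) = g - 1 ∧
    (zeta g).toWord = [(Sum.inl 0, true), (Sum.inr 0, true), (Sum.inl 0, false), (Sum.inr 0, false)] ++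
      (Sum.inl i1, true) :: (r ++ [(Sum.inl j1, false), (Sum.inr j1, false)]) := by
  obtain ⟨m, rfl⟩ : ∃ m, g = m + 2 := ⟨g - 2, by omega⟩
  rw [toWord_zeta]
  unfold zetaWord
  have h1 : List.finRange (m + 2) = 0 :: (List.finRange (m + 1)).map Fin.succ := List.finRange_succ
  rw [h1, List.flatMap_cons]
  rcases Nat.eq_zero_or_pos m with rfl | hm
  · refine ⟨[(Sum.inr 1, true)], 1, 1, rfl, rfl, ?_⟩
    rfl
  · obtain ⟨k, rfl⟩ : ∃ k, m = k + 1 := ⟨m - 1, by omega⟩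
    have h2 : List.finRange (k + 1 + 1) = 0 :: ((List.finRange k).map fun i => i.castSucc.succ) ++
        [Fin.last (k + 1)] := by
      rw [List.finRange_succ, List.finRange_succ_last]
      simp
    rw [h2, List.map_append, List.map_cons, List.map_cons, List.map_nil, List.flatMap_append,
      List.flatMap_cons, List.flatMap_cons, List.flatMap_nil]
    refine ⟨(Sum.inr 1, true) :: (Sum.inl 1, false) :: (Sum.inr 1, false) ::
      (((((List.finRange k).map fun i => i.castSucc.succ).map Fin.succ).flatMap fun i =>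
      ([(Sum.inl i, true), (Sum.inr i, true), (Sum.inl i, false), (Sum.inr i, false)] :
        List (Ltr (k + 1 + 2)))) ++ [(Sum.inl (Fin.last (k + 1)).succ, true),
        (Sum.inr (Fin.last (k + 1)).succ, true)]), 1, (Fin.last (k + 1)).succ, rfl, rfl, ?_⟩
    simp

/-- the word of `ζ` -/
theorem zeta_split (hg : 2 ≤ g) : ∃ r : List (Ltr g), ∃ i1 j1 : Fin g, (i1 : ℕ) = 1 ∧ (j1 : ℕ) = g - 1 ∧
    (zeta g).toWord = [(Sum.inl 0, true), (Sum.inr 0, true), (Sum.inl 0, false), (Sum.inr 0, false)] ++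
      (Sum.inl i1, true) :: (r ++ [(Sum.inr j1, false)]) := by
  obtain ⟨r, i1, j1, h1, h2, h3⟩ := PXw_split hg
  refine ⟨r ++ [(Sum.inl j1, false)], i1, j1, h1, h2, ?_⟩
  rw [h3, List.append_assoc]
  rfl

omit [NeZero g] in
theorem PXw_ga (i : Fin g) : (ga i).toWord = [(Sum.inl i, true)] := FreeGroup.toWord_of _

omit [NeZero g] in
theorem PXw_gb (i : Fin g) : (gb i).toWord = [(Sum.inr i, true)] := FreeGroup.toWord_of _

omit [NeZero g] in
theorem PXw_ga' (i : Fin g) : (ga i)⁻¹.toWord = [(Sum.inl i, false)] := by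
  rw [FreeGroup.toWord_inv, PXw_ga]
  rfl

omit [NeZero g] in
theorem PXw_gb' (i : Fin g) : (gb i)⁻¹.toWord = [(Sum.inr i, false)] := by
  rw [FreeGroup.toWord_inv, PXw_gb]
  rfl

theorem PXw_rk0 : rk ((Sum.inl (0 : Fin g), true) : Ltr g) = 0 := by
  show 4 * ((0 : Fin g) : ℕ) = 0
  simp

theorem PXw_rk1 : rk ((Sum.inr (0 : Fin g), false) : Ltr g) = 1 := by
  show 4 * ((0 : Fin g) : ℕ) + 1 = 1
  simp

theorem PXw_rk2 : rk ((Sum.inl (0 : Fin g), false) : Ltr g) = 2 := by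
  show 4 * ((0 : Fin g) : ℕ) + 2 = 2
  simp

theorem PXw_rk3 : rk ((Sum.inr (0 : Fin g), true) : Ltr g) = 3 := by
  show 4 * ((0 : Fin g) : ℕ) + 3 = 3
  simp

/-- `a ≤` every letter -/
theorem a_le (l : Ltr g) : ga (0 : Fin g) ≤ FreeGroup.mk [l] := by
  by_cases h : l = (Sum.inl 0, true)
  · rw [h]
    exact le_rfl
  · refine (lt_of_head (PXw_ga 0) (std_toWord l) ?_).le
    rw [PXw_rk0]
    refine Nat.pos_of_ne_zero fun h1 => h (rk_injective ?_)
    rw [h1, PXw_rk0]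

/-- every letter is `< ζ⁻¹ a` -/
theorem lt_za (hg : 2 ≤ g) (l : Ltr g) : (FreeGroup.mk [l] : F g) < (zeta g)⁻¹ * ga (0 : Fin g) := by
  obtain ⟨r, i1, j1, h1, h2, h3⟩ := PXw_split hg
  obtain ⟨s, hs⟩ : ∃ s : List (Ltr g), (zeta g).toWord =
      (Sum.inl 0, true) :: (s ++ [(Sum.inl j1, false), (Sum.inr j1, false)]) := by
    refine ⟨(Sum.inr 0, true) :: (Sum.inl 0, false) :: (Sum.inr 0, false) ::
      (Sum.inl i1, true) :: r, ?_⟩
    rw [h3]
    rfl
  have hw : ((zeta g)⁻¹ * ga (0 : Fin g)).toWord =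
      (Sum.inr j1, true) :: (Sum.inl j1, true) :: FreeGroup.invRev s := by
    have e1 : zeta g = ga (0 : Fin g) *
        FreeGroup.mk (s ++ [(Sum.inl j1, false), (Sum.inr j1, false)]) := by
      rw [← FreeGroup.mk_toWord (x := zeta g), hs]
      rfl
    have e2 : (zeta g)⁻¹ * ga (0 : Fin g) =
        (FreeGroup.mk (s ++ [(Sum.inl j1, false), (Sum.inr j1, false)]))⁻¹ := by
      rw [e1]
      group
    have e3 : FreeGroup.IsReduced (s ++ [(Sum.inl j1, false), (Sum.inr j1, false)]) := by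
      refine redSub (L₂ := (zeta g).toWord) FreeGroup.isReduced_toWord ?_
      rw [hs]
      exact (List.suffix_cons _ _).isInfix
    rw [e2, FreeGroup.toWord_inv, FreeGroup.toWord_mk, e3.reduce_eq]
    simp [FreeGroup.invRev]
  have hj : rk ((Sum.inr j1, true) : Ltr g) = 4 * g - 1 := by
    show 4 * (j1 : ℕ) + 3 = 4 * g - 1
    omega
  by_cases h : l = (Sum.inr j1, true)
  · rw [h]
    refine PXw_hair_lt (std_toWord _) hw ?_
    have e1 : rk (inv ((Sum.inr j1, true) : Ltr g)) = 4 * g - 3 := by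
      show 4 * (j1 : ℕ) + 1 = 4 * g - 3
      omega
    have e2 : rk ((Sum.inl j1, true) : Ltr g) = 4 * g - 4 := by
      show 4 * (j1 : ℕ) = 4 * g - 4
      omega
    rw [e1, e2]
    unfold pos
    split_ifs <;> omega
  · refine lt_of_head (std_toWord l) hw ?_
    rw [hj]
    have h4 := rk_lt l
    have h5 : rk l ≠ 4 * g - 1 := fun h5 => h (rk_injective (by rw [h5, hj]))
    omega

theorem a_lt : ga (0 : Fin g) < (ga (0 : Fin g))⁻¹ := by
  refine lt_of_head (PXw_ga 0) (PXw_ga' 0) ?_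
  rw [PXw_rk0, PXw_rk2]
  omega

theorem a_lt_b : ga (0 : Fin g) < (gb (0 : Fin g))⁻¹ ∧ (gb (0 : Fin g))⁻¹ < (ga (0 : Fin g))⁻¹ ∧
    (ga (0 : Fin g))⁻¹ < gb (0 : Fin g) := by
  refine ⟨lt_of_head (PXw_ga 0) (PXw_gb' 0) ?_, lt_of_head (PXw_gb' 0) (PXw_ga' 0) ?_,
    lt_of_head (PXw_ga' 0) (PXw_gb 0) ?_⟩
  · rw [PXw_rk0, PXw_rk1]
    omega
  · rw [PXw_rk1, PXw_rk2]
    omega
  · rw [PXw_rk2, PXw_rk3]
    omega

theorem PXw_app (hg : 2 ≤ g) (m : Ltr g) (hm : ∀ j : Fin g, (j : ℕ) = g - 1 → m ≠ (Sum.inr j, true)) :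
    (zeta g * FreeGroup.mk [m]).toWord = (zeta g).toWord ++ [m] := by
  rcases std_mul (zeta g) m with h | h
  · exact h
  · obtain ⟨r, i1, j1, h1, h2, h3⟩ := zeta_split hg
    exfalso
    rw [h3, ← List.cons_append, ← List.append_assoc] at h
    have h4 := (List.append_inj' h rfl).2
    rw [List.cons.injEq] at h4
    refine hm j1 h2 ?_
    rw [← TorM.inv_inv m, ← h4.1]
    rfl

/-- `h = ζ a⁻¹` -/
noncomputable def hh (g : ℕ) [NeZero g] : F g := zeta g * (ga (0 : Fin g))⁻¹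

theorem hh_lt (hg : 2 ≤ g) : hh g < (hh g)⁻¹ := by
  obtain ⟨r, i1, j1, h1, h2, h3⟩ := zeta_split hg
  have hw : (hh g).toWord = (zeta g).toWord ++ [(Sum.inl 0, false)] := by
    have h4 := PXw_app hg ((Sum.inl 0, false) : Ltr g) (fun j _ h => by simp at h)
    exact h4
  rw [h3] at hw
  have hi : (hh g)⁻¹.toWord = FreeGroup.invRev (hh g).toWord := FreeGroup.toWord_inv _
  rw [hw] at hi
  have hi2 : ∃ t : List (Ltr g), (hh g)⁻¹.toWord = (Sum.inl 0, true) :: (Sum.inr j1, true) :: t := by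
    rw [hi]
    refine ⟨FreeGroup.invRev
      ([(Sum.inl 0, true), (Sum.inr 0, true), (Sum.inl 0, false), (Sum.inr 0, false)] ++
      (Sum.inl i1, true) :: r), ?_⟩
    simp [FreeGroup.invRev]
  obtain ⟨t, ht⟩ := hi2
  refine PXw_lt2 (l := (Sum.inl 0, true)) (m := (Sum.inr 0, true)) (n := (Sum.inr j1, true)) hw ht ?_
  have e1 : rk (inv ((Sum.inl (0 : Fin g), true) : Ltr g)) = 2 := PXw_rk2
  have e2 : rk ((Sum.inr j1, true) : Ltr g) = 4 * g - 1 := by
    show 4 * (j1 : ℕ) + 3 = 4 * g - 1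
    omega
  rw [e1, PXw_rk3, e2]
  unfold pos
  split_ifs <;> omega

theorem zb_lt (hg : 2 ≤ g) : zeta g * gb (0 : Fin g) < ga (0 : Fin g) := by
  obtain ⟨r, i1, j1, h1, h2, h3⟩ := zeta_split hg
  have hw : (zeta g * gb (0 : Fin g)).toWord = (zeta g).toWord ++ [(Sum.inr 0, true)] := by
    have h4 := PXw_app hg ((Sum.inr 0, true) : Ltr g) (fun j hj h => by
      have h5 : (0 : Fin g) = j := by simpa using h
      have h6 : (j : ℕ) = 0 := by
        rw [← h5]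
        simp
      omega)
    exact h4
  rw [h3] at hw
  refine PXw_lt_hair (l := (Sum.inl 0, true)) (m := (Sum.inr 0, true)) hw (PXw_ga 0) ?_
  have e1 : rk (inv ((Sum.inl (0 : Fin g), true) : Ltr g)) = 2 := PXw_rk2
  rw [e1, PXw_rk3]
  unfold pos
  split_ifs <;> omega

end TorP
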