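import Pool.Agent.Lib.MP_05cdf2_gt.P.PGa
import Pool.Agent.Lib.MP_05cdf2_gt.P.PP
import Pool.Agent.Lib.MP_05cdf2_gt.P.PXw

/-! MP_05cdf2_gt, job P.PXa. The loops `a = a_0`, `b = b_0`, `h = ζ a⁻¹`.

`smp_hh`: `h⁻¹ = a ζ⁻¹` is simple by `smp_pred` (`a_lt`; `a ≠ ζ`: `abv`, or by the words).
`b_gap`: `gap_of_smp` for `a` and `b⁻¹` (`a_lt_b`).
`zb_gap`: `smp_pred` for `b⁻¹` (`b⁻¹ < b`) gives that `b⁻¹ ζ⁻¹` is simple, so `ζ b` is simple. `h = ζ a⁻¹ < ζ b`: from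
`1 < a⁻¹ < b` by `cyc_mul` (`zeta_le`: no element between `1` and `ζ`). `ζ b < a` (`zb_lt`), so `ζ b ≤ a ζ⁻¹ = h⁻¹`
(`le_pred`), and they are different (abelianisation `abv`: `abv (ζ b) = abv b`, `abv (a ζ⁻¹) = abv a`; `map_zeta` or
`abv` of `ζ`). Then `gap_of_smp`.
`Pu_a_b`: `PuG_val`, `fm`, `zn`: `a < b⁻¹ < a⁻¹ < b`, so `zn a b⁻¹ = a`, `zn a b = ζ⁻¹ a`. -/

set_option autoImplicit false

namespace TorP
open TorM TorG

variable {g : ℕ}

theorem smp_ga (i : Fin g) : Smp (ga i) := by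
  refine ⟨FreeGroup.of_ne_one _, ?_⟩
  exact U_letter (Sum.inl i, true) (Sum.inl i, true)

theorem smp_gb (i : Fin g) : Smp (gb i) := by
  refine ⟨FreeGroup.of_ne_one _, ?_⟩
  exact U_letter (Sum.inr i, true) (Sum.inr i, true)

theorem abv_zeta' (g : ℕ) : abv (zeta g) = 0 := by
  unfold abv
  rw [map_zeta]
  rfl

variable [NeZero g]

theorem U_ab : U (ga (0 : Fin g)) (gb (0 : Fin g)) := by
  exact U_letter (Sum.inl 0, true) (Sum.inr 0, true)

theorem smp_hh (hg : 2 ≤ g) : Smp (hh g) := by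
  have ha : ga (0 : Fin g) ≠ zeta g := by
    intro h
    have h1 := congrArg abv h
    rw [abv_zeta', ga, abv_of] at h1
    have h2 := congrFun h1 (Sum.inl 0)
    simp at h2
  have h1 := (smp_pred (smp_ga (0 : Fin g)) a_lt ha).inv
  rw [mul_inv_rev, _root_.inv_inv] at h1
  exact h1

theorem b_gap : (gb (0 : Fin g))⁻¹ ∈ Gap (ga (0 : Fin g)) := by
  exact gap_of_smp (smp_ga 0) (smp_gb 0).inv a_lt a_lt_b.1 a_lt_b.2.1

theorem zb_gap (hg : 2 ≤ g) : zeta g * gb (0 : Fin g) ∈ Gap (hh g) := by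
  have hb : (gb (0 : Fin g))⁻¹ ≠ zeta g := by
    intro h
    have h1 := congrArg abv h
    rw [abv_zeta', abv_inv, gb, abv_of] at h1
    have h2 := congrFun h1 (Sum.inr 0)
    simp at h2
  have hb1 : zeta g * gb (0 : Fin g) ≠ 1 := by
    intro h
    have h1 := congrArg abv h
    rw [abv_mul, abv_zeta', abv_one, gb, abv_of] at h1
    have h2 := congrFun h1 (Sum.inr 0)
    simp at h2
  have hlt : (gb (0 : Fin g))⁻¹ < (gb (0 : Fin g))⁻¹⁻¹ := by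
    rw [_root_.inv_inv]
    exact a_lt_b.2.1.trans a_lt_b.2.2
  have hs : Smp (zeta g * gb (0 : Fin g)) := by
    have h1 := (smp_pred (smp_gb (0 : Fin g)).inv hlt hb).inv
    rw [mul_inv_rev, _root_.inv_inv, _root_.inv_inv] at h1
    exact h1
  have h1 : hh g < zeta g * gb (0 : Fin g) := by
    have h2 : Cyc (1 : F g) (ga (0 : Fin g))⁻¹ (gb (0 : Fin g)) :=
      Or.inl ⟨one_lt (smp_ga (0 : Fin g)).inv.ne, a_lt_b.2.2⟩
    rw [← cyc_mul (zeta g), mul_one] at h2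
    unfold hh
    rcases h2 with h | h | h
    · exact h.2
    · exact h.1
    · exact absurd h.1 (not_lt.mpr (zeta_le hb1))
  have h2 : zeta g * gb (0 : Fin g) < (hh g)⁻¹ := by
    have h3 : (hh g)⁻¹ = ga (0 : Fin g) * (zeta g)⁻¹ := by
      unfold hh
      rw [mul_inv_rev, _root_.inv_inv]
    rw [h3]
    refine lt_of_le_of_ne (le_pred (zb_lt hg)) ?_
    intro h
    have h4 := congrArg abv h
    rw [abv_mul, abv_mul, abv_inv, abv_zeta', gb, ga, abv_of, abv_of] at h4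
    have h5 := congrFun h4 (Sum.inr 0)
    simp at h5
  exact gap_of_smp (smp_hh hg) hs (hh_lt hg) h1 h2

theorem Pu_a_b : Pu (ga (0 : Fin g)) (gb (0 : Fin g))⁻¹ =
    ga (0 : Fin g) * (gb (0 : Fin g))⁻¹ * ((ga (0 : Fin g))⁻¹ * zeta g) := by
  rw [← PuG_apply (smp_ga (0 : Fin g)), PuG_val (smp_ga (0 : Fin g)) (smp_gb (0 : Fin g)).inv
    U_ab.inv_right]
  unfold fm
  rw [_root_.inv_inv]
  have h1 : zn (ga (0 : Fin g)) (gb (0 : Fin g))⁻¹ = ga (0 : Fin g) := by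
    unfold zn
    rw [if_pos a_lt, if_neg (not_lt.mpr a_lt_b.1.le), if_neg (not_lt.mpr a_lt_b.2.1.le)]
  have h2 : zn (ga (0 : Fin g)) (gb (0 : Fin g)) = (zeta g)⁻¹ * ga (0 : Fin g) := by
    unfold zn
    rw [if_pos a_lt, if_neg (not_lt.mpr (a_lt.trans a_lt_b.2.2).le), if_pos a_lt_b.2.2]
  rw [h1, h2, mul_inv_rev, _root_.inv_inv]

end TorP
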