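import Pool.Agent.Lib.MP_05cdf2_gt.P.PXw

/-! MP_05cdf2_gt, job P.PXt. Concrete comparisons, second part. `a = a_0`, `b = b_0`, `h = ζ a⁻¹`,
`ζ = a b a⁻¹ b⁻¹ δ` (`zeta_split`: the word of `δ` begins with `a_1` and ends with `b_(g-1)⁻¹`).

`t_lt`: for `n = 0`: `b⁻¹ < a⁻¹ b⁻¹`, first letters. For `n + 1`: `a⁻¹ ζ = b a⁻¹ b⁻¹ δ`, so
`b⁻¹ (a⁻¹ ζ)^(n+1) = a⁻¹ b⁻¹ δ (a⁻¹ ζ)^n`, and the word `δ (b a⁻¹ b⁻¹ δ)^n` is reduced and begins with `a_1` (`δ` ends
with `b_(g-1)⁻¹`, `g - 1 ≥ 1`, so nothing cancels with `b`). From `b a < δ (a⁻¹ ζ)^n` (first letters, ranks `3 < 4`) one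
gets `Cyc 1 (b a) (δ (a⁻¹ ζ)^n)`, and multiplying by `(b a)⁻¹`: `Cyc (a⁻¹ b⁻¹) 1 (a⁻¹ b⁻¹ δ (a⁻¹ ζ)^n)`, i.e.
`a⁻¹ b⁻¹ δ (a⁻¹ ζ)^n < a⁻¹ b⁻¹`.
`u_lt`: `ζ a⁻¹ ζ b < ζ b a^(-n)`. It is enough that `a⁻¹ ζ b < b a^(-n)` (then `Cyc 1 (a⁻¹ ζ b) (b a^(-n))`, multiply by
`ζ`: `Cyc ζ (ζ a⁻¹ ζ b) (ζ b a^(-n))`, and nothing is between `1` and `ζ`, `zeta_le`).
`a⁻¹ ζ b = b a⁻¹ b⁻¹ δ b` (reduced), `v = a⁻¹ b⁻¹ δ b`. For `n = 0`: `b⁻¹ < v` (ranks `1 < 2`), so `Cyc b⁻¹ v 1`,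
multiply by `b`: `Cyc 1 (b v) b`. For `n ≥ 1`: `b⁻¹ < v < a^(-n)`: the second one: both begin with `a⁻¹` (arrival rank
`0`); then `b⁻¹` (`pos 0 1 = 1`) against `a⁻¹` (`pos 0 2 = 2`) or the hair (`pos 0 (4 g)`). So `Cyc b⁻¹ v (a^(-n))`,
multiply by `b`. -/

set_option autoImplicit false

namespace TorP
open TorM TorG

variable {g : ℕ} [NeZero g]

omit [NeZero g] in
private theorem PXt_toWord_mk {L : List (Ltr g)} (h : FreeGroup.IsReduced L) :
    (FreeGroup.mk L : F g).toWord = L := by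
  rw [FreeGroup.toWord_mk, h.reduce_eq]

omit [NeZero g] in
private theorem PXt_toWord_mul {x y : F g} {L M : List (Ltr g)} (hx : x.toWord = L)
    (hy : y.toWord = M) (h : ∀ a ∈ L.getLast?, ∀ b ∈ M.head?, a.1 = b.1 → a.2 = b.2) :
    (x * y).toWord = L ++ M := by
  rw [FreeGroup.toWord_mul, hx, hy]
  apply FreeGroup.IsReduced.reduce_eq
  refine List.isChain_append.2 ⟨?_, ?_, h⟩
  · rw [← hx]
    exact FreeGroup.isReduced_toWord
  · rw [← hy]
    exact FreeGroup.isReduced_toWord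

private theorem PXt_rk : rk ((Sum.inr 0, false) : Ltr g) = 1 ∧ rk ((Sum.inl 0, false) : Ltr g) = 2 ∧
    rk ((Sum.inr 0, true) : Ltr g) = 3 ∧ rk ((Sum.inl 0, true) : Ltr g) = 0 := by
  simp [rk]

private theorem PXt_b' : ((gb (0 : Fin g))⁻¹).toWord = [(Sum.inr 0, false)] := by
  rw [gb, FreeGroup.toWord_inv, FreeGroup.toWord_of]
  rfl

private theorem PXt_a' : ((ga (0 : Fin g))⁻¹).toWord = [(Sum.inl 0, false)] := by
  rw [ga, FreeGroup.toWord_inv, FreeGroup.toWord_of]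
  rfl

private theorem PXt_ab' : ((ga (0 : Fin g))⁻¹ * (gb (0 : Fin g))⁻¹).toWord =
    [(Sum.inl 0, false)] ++ [(Sum.inr 0, false)] :=
  PXt_toWord_mul PXt_a' PXt_b' (by simp)

private theorem PXt_ba : (gb (0 : Fin g) * ga (0 : Fin g)).toWord =
    [(Sum.inr 0, true)] ++ [(Sum.inl 0, true)] :=
  PXt_toWord_mul rfl rfl (by simp)

/-- the element `δ` and its word -/
private theorem PXt_delta (hg : 2 ≤ g) : ∃ (δ : F g) (i1 j1 : Fin g) (r : List (Ltr g)),
    (i1 : ℕ) = 1 ∧ (j1 : ℕ) ≠ 0 ∧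
    zeta g = ga 0 * gb 0 * (ga 0)⁻¹ * (gb 0)⁻¹ * δ ∧
    δ.toWord = ((Sum.inl i1, true) :: r) ++ [(Sum.inr j1, false)] ∧
    (gb 0 * ((ga 0)⁻¹ * (gb 0)⁻¹ * δ)).toWord =
      ([(Sum.inr 0, true), (Sum.inl 0, false), (Sum.inr 0, false)] ++ ((Sum.inl i1, true) :: r)) ++
        [(Sum.inr j1, false)] ∧
    ((ga 0)⁻¹ * (gb 0)⁻¹ * δ).toWord =
      ([(Sum.inl 0, false), (Sum.inr 0, false)] ++ ((Sum.inl i1, true) :: r)) ++
        [(Sum.inr j1, false)] := by
  obtain ⟨r, i1, j1, hi1, hj1, hz⟩ := zeta_split hg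
  have hred := FreeGroup.isReduced_toWord (x := zeta g)
  rw [hz] at hred
  have e1 : (FreeGroup.mk ((Sum.inl i1, true) :: (r ++ [(Sum.inr j1, false)])) : F g).toWord =
      ((Sum.inl i1, true) :: r) ++ [(Sum.inr j1, false)] := by
    rw [PXt_toWord_mk (redSub hred (List.suffix_append _ _).isInfix)]
    rfl
  refine ⟨FreeGroup.mk ((Sum.inl i1, true) :: (r ++ [(Sum.inr j1, false)])), i1, j1, r, hi1,
    by omega, ?_, e1, ?_, ?_⟩
  · have h1 : zeta g = FreeGroup.mk (zeta g).toWord := FreeGroup.mk_toWord.symm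
    rw [hz] at h1
    rw [h1]
    simp [ga, gb, FreeGroup.of, FreeGroup.inv_mk, FreeGroup.mul_mk, FreeGroup.invRev]
  · have h2 : (gb 0 * ((ga 0)⁻¹ * (gb 0)⁻¹ *
        FreeGroup.mk ((Sum.inl i1, true) :: (r ++ [(Sum.inr j1, false)]))) : F g) =
        FreeGroup.mk (([(Sum.inr 0, true), (Sum.inl 0, false), (Sum.inr 0, false)] ++
          ((Sum.inl i1, true) :: r)) ++ [(Sum.inr j1, false)]) := by
      simp [ga, gb, FreeGroup.of, FreeGroup.inv_mk, FreeGroup.mul_mk, FreeGroup.invRev]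
    rw [h2]
    refine PXt_toWord_mk (redSub hred (List.IsSuffix.isInfix ⟨[(Sum.inl 0, true)], ?_⟩))
    simp
  · have h2 : ((ga 0)⁻¹ * (gb 0)⁻¹ *
        FreeGroup.mk ((Sum.inl i1, true) :: (r ++ [(Sum.inr j1, false)])) : F g) =
        FreeGroup.mk (([(Sum.inl 0, false), (Sum.inr 0, false)] ++
          ((Sum.inl i1, true) :: r)) ++ [(Sum.inr j1, false)]) := by
      simp [ga, gb, FreeGroup.of, FreeGroup.inv_mk, FreeGroup.mul_mk, FreeGroup.invRev]
    rw [h2]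
    refine PXt_toWord_mk (redSub hred (List.IsSuffix.isInfix
      ⟨[(Sum.inl 0, true), (Sum.inr 0, true)], ?_⟩))
    simp

theorem t_lt (hg : 2 ≤ g) (n : ℕ) :
    (gb (0 : Fin g))⁻¹ * ((ga (0 : Fin g))⁻¹ * zeta g) ^ n < (ga (0 : Fin g))⁻¹ * (gb (0 : Fin g))⁻¹ := by
  rcases n with _ | n
  · rw [pow_zero, mul_one]
    refine lt_of_head PXt_b' PXt_ab' ?_
    rw [PXt_rk.1, PXt_rk.2.1]
    norm_num
  · obtain ⟨δ, i1, j1, r, hi1, hj1, hz, hδ, hp, hv⟩ := PXt_delta hg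
    have hj0 : (Sum.inr j1 : Gen g) ≠ Sum.inr 0 := by
      intro h
      apply hj1
      rw [Sum.inr.inj h]
      simp
    have hpz : (ga (0 : Fin g))⁻¹ * zeta g = gb 0 * ((ga 0)⁻¹ * (gb 0)⁻¹ * δ) := by
      rw [hz]
      group
    have key : ∀ k : ℕ, ∀ y ∈ ((((ga (0 : Fin g))⁻¹ * zeta g) ^ k).toWord).head?,
        y = (Sum.inr 0, true) := by
      intro k
      induction k with
      | zero => simp
      | succ k ih =>
        have h1 : (((ga (0 : Fin g))⁻¹ * zeta g) ^ (k + 1)).toWord =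
            (([(Sum.inr 0, true), (Sum.inl 0, false), (Sum.inr 0, false)] ++
              ((Sum.inl i1, true) :: r)) ++ [(Sum.inr j1, false)]) ++
            (((ga (0 : Fin g))⁻¹ * zeta g) ^ k).toWord := by
          rw [pow_succ']
          refine PXt_toWord_mul (by rw [hpz]; exact hp) rfl ?_
          intro a ha b hb hab
          rw [List.getLast?_concat, Option.mem_some_iff] at ha
          have h2 := ih b hb
          subst ha
          subst h2
          exact absurd hab hj0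
        intro y hy
        rw [h1] at hy
        simpa using hy.symm
    have hw : (δ * ((ga (0 : Fin g))⁻¹ * zeta g) ^ n).toWord = (Sum.inl i1, true) ::
        (r ++ [(Sum.inr j1, false)] ++ (((ga (0 : Fin g))⁻¹ * zeta g) ^ n).toWord) := by
      rw [PXt_toWord_mul hδ rfl]
      · simp
      · intro a ha b hb hab
        rw [List.getLast?_concat, Option.mem_some_iff] at ha
        have h2 := key n b hb
        subst ha
        subst h2
        exact absurd hab hj0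
    have h3 : gb (0 : Fin g) * ga (0 : Fin g) < δ * ((ga (0 : Fin g))⁻¹ * zeta g) ^ n := by
      refine lt_of_head PXt_ba hw ?_
      rw [PXt_rk.2.2.1]
      simp only [rk]
      omega
    have h4 : (1 : F g) < gb (0 : Fin g) * ga (0 : Fin g) := by
      apply one_lt
      intro h
      have := PXt_ba (g := g)
      rw [h] at this
      simp at this
    have h5 : Cyc (1 : F g) (gb (0 : Fin g) * ga (0 : Fin g))
        (δ * ((ga (0 : Fin g))⁻¹ * zeta g) ^ n) := Or.inl ⟨h4, h3⟩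
    rw [← cyc_mul ((gb (0 : Fin g) * ga (0 : Fin g))⁻¹), inv_mul_cancel, mul_one, mul_inv_rev] at h5
    have h6 : (gb (0 : Fin g))⁻¹ * ((ga (0 : Fin g))⁻¹ * zeta g) ^ (n + 1) =
        (ga (0 : Fin g))⁻¹ * (gb (0 : Fin g))⁻¹ * (δ * ((ga (0 : Fin g))⁻¹ * zeta g) ^ n) := by
      rw [pow_succ']
      generalize ((ga (0 : Fin g))⁻¹ * zeta g) ^ n = W
      rw [hpz]
      group
    rw [h6]
    have h7 := one_le ((ga (0 : Fin g))⁻¹ * (gb (0 : Fin g))⁻¹)
    unfold Cyc at h5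
    rcases h5 with h | h | h
    · exact absurd h.1 (not_lt.2 h7)
    · exact h.2
    · exact absurd h.2 (not_lt.2 h7)

theorem u_lt (hg : 2 ≤ g) (n : ℕ) :
    hh g * (zeta g * gb (0 : Fin g)) < zeta g * gb (0 : Fin g) * ((ga (0 : Fin g)) ^ n)⁻¹ := by
  obtain ⟨δ, i1, j1, r, hi1, hj1, hz, hδ, hp, hv⟩ := PXt_delta hg
  have hj0 : (Sum.inr j1 : Gen g) ≠ Sum.inr 0 := by
    intro h
    apply hj1
    rw [Sum.inr.inj h]
    simp
  have hvb : ((ga 0)⁻¹ * (gb 0)⁻¹ * δ * gb 0).toWord =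
      (([(Sum.inl 0, false), (Sum.inr 0, false)] ++ ((Sum.inl i1, true) :: r)) ++
        [(Sum.inr j1, false)]) ++ [(Sum.inr 0, true)] := by
    refine PXt_toWord_mul hv rfl ?_
    intro a ha b hb hab
    rw [List.getLast?_concat, Option.mem_some_iff] at ha
    rw [List.head?_cons, Option.mem_some_iff] at hb
    subst ha
    subst hb
    exact absurd hab hj0
  have hbv : (gb (0 : Fin g))⁻¹ < (ga 0)⁻¹ * (gb 0)⁻¹ * δ * gb 0 := by
    refine lt_of_head PXt_b' hvb ?_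
    rw [PXt_rk.1, PXt_rk.2.1]
    norm_num
  have hb1 : (1 : F g) < (gb (0 : Fin g))⁻¹ := by
    apply one_lt
    intro h
    have := PXt_b' (g := g)
    rw [h] at this
    simp at this
  -- the claim before multiplying by the boundary
  have h1 : gb 0 * ((ga 0)⁻¹ * (gb 0)⁻¹ * δ * gb 0) < gb 0 * ((ga (0 : Fin g)) ^ n)⁻¹ := by
    rcases n with _ | n
    · rw [pow_zero, inv_one]
      have h2 : Cyc (gb (0 : Fin g))⁻¹ ((ga 0)⁻¹ * (gb 0)⁻¹ * δ * gb 0) 1 :=
        Or.inr (Or.inr ⟨hb1, hbv⟩)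
      rw [← cyc_mul (gb (0 : Fin g)), mul_inv_cancel] at h2
      have h7 := one_le (gb (0 : Fin g) * (1 : F g))
      have h8 := one_le (gb 0 * ((ga 0)⁻¹ * (gb 0)⁻¹ * δ * gb 0))
      unfold Cyc at h2
      rcases h2 with h | h | h
      · exact h.2
      · exact absurd h.2 (not_lt.2 h7)
      · exact absurd h.1 (not_lt.2 h7)
    · have ha : ((ga (0 : Fin g) ^ (n + 1))⁻¹).toWord =
          (Sum.inl 0, false) :: List.replicate n (Sum.inl 0, false) := by
        rw [ga, FreeGroup.toWord_inv, FreeGroup.toWord_of_pow]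
        simp [FreeGroup.invRev, List.replicate_succ']
      have h3 : (ga 0)⁻¹ * (gb 0)⁻¹ * δ * gb 0 < ((ga (0 : Fin g)) ^ (n + 1))⁻¹ := by
        rw [lt_iff, key, key, hvb, ha]
        have e0 : rk (inv ((Sum.inl 0, false) : Ltr g)) = 0 := PXt_rk.2.2.2
        simp only [List.cons_append, List.append_assoc, List.nil_append, keyAux]
        rw [List.cons_lt_cons_iff]
        right
        refine ⟨rfl, ?_⟩
        rw [e0]
        rcases n with _ | n
        · simp only [List.replicate_zero, keyAux]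
          rw [List.cons_lt_cons_iff]
          left
          rw [PXt_rk.1]
          unfold pos
          split_ifs <;> omega
        · rw [List.replicate_succ]
          simp only [keyAux]
          rw [List.cons_lt_cons_iff]
          left
          rw [PXt_rk.1, PXt_rk.2.1]
          unfold pos
          split_ifs <;> omega
      have h2 : Cyc (gb (0 : Fin g))⁻¹ ((ga 0)⁻¹ * (gb 0)⁻¹ * δ * gb 0)
          ((ga (0 : Fin g)) ^ (n + 1))⁻¹ := Or.inl ⟨hbv, h3⟩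
      rw [← cyc_mul (gb (0 : Fin g)), mul_inv_cancel] at h2
      have h7 := one_le (gb (0 : Fin g) * ((ga (0 : Fin g)) ^ (n + 1))⁻¹)
      have h8 := one_le (gb 0 * ((ga 0)⁻¹ * (gb 0)⁻¹ * δ * gb 0))
      unfold Cyc at h2
      rcases h2 with h | h | h
      · exact h.2
      · exact absurd h.2 (not_lt.2 h7)
      · exact absurd h.1 (not_lt.2 h7)
  have h2 : (1 : F g) < gb 0 * ((ga 0)⁻¹ * (gb 0)⁻¹ * δ * gb 0) := by
    apply one_lt
    intro h
    have h3 : (ga 0)⁻¹ * (gb 0)⁻¹ * δ * gb 0 = (gb (0 : Fin g))⁻¹ := by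
      rw [eq_inv_iff_mul_eq_one, ← h]
      have h4 := congrArg (fun t => (gb (0 : Fin g))⁻¹ * t * gb 0) h
      simp only [mul_one, inv_mul_cancel, inv_mul_cancel_left] at h4
      rw [h, h4]
    rw [h3] at hbv
    exact lt_irrefl _ hbv
  have h5 : Cyc (1 : F g) (gb 0 * ((ga 0)⁻¹ * (gb 0)⁻¹ * δ * gb 0))
      (gb 0 * ((ga (0 : Fin g)) ^ n)⁻¹) := Or.inl ⟨h2, h1⟩
  rw [← cyc_mul (zeta g), mul_one] at h5
  have h6 : hh g * (zeta g * gb (0 : Fin g)) =
      zeta g * (gb 0 * ((ga 0)⁻¹ * (gb 0)⁻¹ * δ * gb 0)) := by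
    have h7 : (ga (0 : Fin g))⁻¹ * zeta g = gb 0 * ((ga 0)⁻¹ * (gb 0)⁻¹ * δ) := by
      rw [hz]
      group
    calc hh g * (zeta g * gb (0 : Fin g)) = zeta g * ((ga (0 : Fin g))⁻¹ * zeta g) * gb 0 := by
          unfold hh
          group
      _ = _ := by
          rw [h7]
          group
  rw [h6, mul_assoc (zeta g) (gb 0)]
  have hne : zeta g * (gb 0 * ((ga (0 : Fin g)) ^ n)⁻¹) ≠ 1 := by
    intro h
    have h7 := congrArg abv h
    have hz0 : abv (zeta g) = 0 := by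
      have h8 := map_zeta (g := g) (ab (g := g))
      unfold abv
      rw [h8]
      rfl
    have hpow : ∀ k : ℕ, abv (ga (0 : Fin g) ^ k) (Sum.inr 0) = 0 := by
      intro k
      induction k with
      | zero => simp
      | succ k ih =>
        rw [pow_succ, abv_mul, Pi.add_apply, ih, ga, abv_of]
        simp
    have h9 := congrFun h7 (Sum.inr 0)
    rw [abv_mul, abv_mul, abv_inv, hz0, abv_one] at h9
    simp only [Pi.add_apply, Pi.zero_apply, Pi.neg_apply, hpow, gb, abv_of] at h9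
    simp at h9
  have h10 := zeta_le hne
  unfold Cyc at h5
  rcases h5 with h | h | h
  · exact h.2
  · exact absurd h.2 (not_lt.2 h10)
  · exact absurd h.1 (not_lt.2 h10)

end TorP
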