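import Pool.Agent.Lib.MP_05cdf2_gt.P.PXa
import Pool.Agent.Lib.MP_05cdf2_gt.P.PXt

/-! MP_05cdf2_gt, job P.PXb. The push `P` along `a = a_0` has no fixed point in `Gap a` nor in `Gap h`, `h = ζ a⁻¹`.

`P = Pu a` is an automorphism fixing `ζ` and `a`, hence `h`, and strictly increasing (`aut_lt` for `PuG a`). So it maps
`Gap a` and `Gap h` into themselves.

`no_fix_a`: let `y ∈ Gap a`, `P y = y`, `b = b_0`, `t n = b⁻¹ (a⁻¹ ζ)^n`. By `Pu_a_b` and induction: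
`P^n b⁻¹ = a^n t n`, so `t n = a^(-n) P^n b⁻¹ ∈ Gap a` (`gap_zpow`). By `gap_arch'` there is `N` with `y < a^(-N) b⁻¹`;
apply `P^n`: `y < a^(n-N) t n` (`zpow`). By `t_lt` and `gap_mono` (`a⁻¹ b⁻¹ ∈ Gap a` by `gap_mul'`):
`a^(n-N) t n < a^(n-N) a⁻¹ b⁻¹ = a^(n-N-1) b⁻¹`. So `y < a^m b⁻¹` for all `m : ℕ` (`n = m + N + 1`), against `gap_arch`.

`no_fix_h`: let `y ∈ Gap h`, `P y = y`, `u = ζ b`. By `Pu_a_b` (`P b = (a b⁻¹ a⁻¹ ζ)⁻¹ = ζ⁻¹ a b a⁻¹`):
`P u = a b a⁻¹ = h⁻¹ u a⁻¹`, so by induction `P^n u = h^(-n) u a^(-n)`, `u a^(-n) = h^n P^n u ∈ Gap h`. By `gap_arch`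
there is `N` with `h^N u < y`; apply `P^n`: `h^(N-n) u a^(-n) < y`. By `u_lt` and `gap_mono`:
`h^(N-n+1) u < h^(N-n) u a^(-n) < y`. So `h^(-m) u < y` for all `m : ℕ` (`n = m + N + 1`), against `gap_arch'`. -/

set_option autoImplicit false

namespace TorP
open TorM TorG

variable {g : ℕ} [NeZero g]

omit [NeZero g] in
private theorem PXb_lt {x u v : F g} (hx : Smp x) : Pu x u < Pu x v ↔ u < v := by
  have h := aut_lt (((PuG x : Gam g) : MulAut (F g))) (Gam_zeta (PuG x)) (x := u) (y := v)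
  rw [PuG_apply hx, PuG_apply hx] at h
  exact h

omit [NeZero g] in
private theorem PXb_gap {x z w : F g} (hx : Smp x) (hz : Pu x z = z) (hw : w ∈ Gap z) :
    Pu x w ∈ Gap z := by
  intro n
  obtain ⟨h1, h2⟩ := hw n
  refine ⟨?_, ?_⟩
  · have h3 := (PXb_lt hx).2 h1
    rw [map_pow, hz] at h3
    exact h3
  · have h3 := (PXb_lt hx).2 h2
    rw [map_inv, map_pow, hz] at h3
    exact h3

theorem no_fix_a (hg : 2 ≤ g) {y : F g} (hy : y ∈ Gap (ga (0 : Fin g))) : Pu (ga (0 : Fin g)) y ≠ y := by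
  intro hP
  have hsa : Smp (ga (0 : Fin g)) := smp_ga 0
  have hPa := Pu_self hsa
  have hPz := Pu_zeta hsa
  have hlt : ga (0 : Fin g) < (ga (0 : Fin g))⁻¹ := a_lt
  have hPb := Pu_a_b (g := g)
  set a := ga (0 : Fin g) with ha
  set b := gb (0 : Fin g) with hb
  set P := Pu a with hPdef
  have hbg : b⁻¹ ∈ Gap a := b_gap
  have hPc : P (a⁻¹ * zeta g) = a⁻¹ * zeta g := by
    rw [map_mul, map_inv, hPa, hPz]
  have hstep : ∀ n : ℕ, P (a ^ n * (b⁻¹ * (a⁻¹ * zeta g) ^ n)) =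
      a ^ (n + 1) * (b⁻¹ * (a⁻¹ * zeta g) ^ (n + 1)) := by
    intro n
    rw [map_mul, map_pow, hPa, map_mul, map_pow, hPc, hPb, pow_succ a n, pow_succ' (a⁻¹ * zeta g) n]
    simp only [mul_assoc]
  have hG : ∀ n : ℕ, a ^ n * (b⁻¹ * (a⁻¹ * zeta g) ^ n) ∈ Gap a := by
    intro n
    induction n with
    | zero =>
      rw [pow_zero, pow_zero, one_mul, mul_one]
      exact hbg
    | succ n ih =>
      rw [← hstep n]
      exact PXb_gap hsa hPa ih
  have hT : ∀ n : ℕ, b⁻¹ * (a⁻¹ * zeta g) ^ n ∈ Gap a := by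
    intro n
    have h1 := gap_zpow hsa hlt (hG n) (-(n : ℤ))
    rw [zpow_neg, zpow_natCast, inv_mul_cancel_left] at h1
    exact h1
  obtain ⟨N, hN⟩ := gap_arch' hsa hlt hy hbg
  have hH : ∀ n : ℕ, y < (a ^ N)⁻¹ * (a ^ n * (b⁻¹ * (a⁻¹ * zeta g) ^ n)) := by
    intro n
    induction n with
    | zero =>
      rw [pow_zero, pow_zero, one_mul, mul_one]
      exact hN N le_rfl
    | succ n ih =>
      have h1 := (PXb_lt hsa).2 ih
      rw [← hPdef, hP, map_mul, map_inv, map_pow, hPa, hstep n] at h1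
      exact h1
  have hm : ∀ m : ℕ, y < a ^ m * b⁻¹ := by
    intro m
    have h1 := hH (m + N + 1)
    have h2 := gap_mono hsa hlt (hT (m + N + 1)) (gap_mul' hsa hlt hbg) (t_lt hg (m + N + 1))
      ((m : ℤ) + 1)
    have e1 : (a ^ N)⁻¹ * (a ^ (m + N + 1) * (b⁻¹ * (a⁻¹ * zeta g) ^ (m + N + 1))) =
        a ^ ((m : ℤ) + 1) * (b⁻¹ * (a⁻¹ * zeta g) ^ (m + N + 1)) := by
      rw [← mul_assoc]
      congr 1
      rw [← zpow_natCast, ← zpow_natCast, ← zpow_neg, ← zpow_add]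
      congr 1
      push_cast
      ring
    have e2 : a ^ ((m : ℤ) + 1) * (a⁻¹ * b⁻¹) = a ^ m * b⁻¹ := by
      rw [zpow_add, zpow_natCast, zpow_one]
      group
    rw [e1] at h1
    rw [← e2]
    exact lt_trans h1 h2
  obtain ⟨N', hN'⟩ := gap_arch hsa hlt hy hbg
  exact lt_irrefl _ (lt_trans (hm N') (hN' N' le_rfl))

theorem no_fix_h (hg : 2 ≤ g) {y : F g} (hy : y ∈ Gap (hh g)) : Pu (ga (0 : Fin g)) y ≠ y := by
  intro hP
  have hsa : Smp (ga (0 : Fin g)) := smp_ga 0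
  have hPa := Pu_self hsa
  have hPz := Pu_zeta hsa
  have hsh : Smp (hh g) := smp_hh hg
  have hlt : hh g < (hh g)⁻¹ := hh_lt hg
  have hPb := Pu_a_b (g := g)
  have hug := zb_gap hg
  have hul := u_lt hg
  have hPh : Pu (ga (0 : Fin g)) (hh g) = hh g := by
    unfold hh
    rw [map_mul, map_inv, hPa, hPz]
  have hhe : (hh g)⁻¹ = ga (0 : Fin g) * (zeta g)⁻¹ := by
    unfold hh
    rw [mul_inv_rev, _root_.inv_inv]
  set a := ga (0 : Fin g) with ha
  set b := gb (0 : Fin g) with hb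
  set P := Pu a with hPdef
  set k := hh g with hk
  have hPb' : P b = (zeta g)⁻¹ * a * b * a⁻¹ := by
    have h1 : P b = (P b⁻¹)⁻¹ := by
      rw [map_inv, _root_.inv_inv]
    rw [h1, hPb]
    group
  have hPu : P (zeta g * b) = k⁻¹ * (zeta g * b) * a⁻¹ := by
    rw [map_mul, hPz, hPb', hhe]
    group
  have hstep : ∀ n : ℕ, P ((k ^ n)⁻¹ * (zeta g * b * (a ^ n)⁻¹)) =
      (k ^ (n + 1))⁻¹ * (zeta g * b * (a ^ (n + 1))⁻¹) := by
    intro n
    rw [map_mul, map_inv, map_pow, hPh, map_mul, map_inv, map_pow, hPa, hPu, pow_succ' k n,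
      pow_succ a n, mul_inv_rev, mul_inv_rev]
    have e1 : (k ^ n)⁻¹ * k⁻¹ = k⁻¹ * (k ^ n)⁻¹ := by
      rw [← mul_inv_rev, ← mul_inv_rev, pow_mul_comm']
    rw [e1]
    have e2 : k⁻¹ * (k ^ n)⁻¹ = (k ^ n)⁻¹ * k⁻¹ := e1.symm
    rw [e2]
    simp only [mul_assoc]
  have hG : ∀ n : ℕ, (k ^ n)⁻¹ * (zeta g * b * (a ^ n)⁻¹) ∈ Gap k := by
    intro n
    induction n with
    | zero =>
      rw [pow_zero, pow_zero, inv_one, one_mul, mul_one]
      exact hug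
    | succ n ih =>
      rw [← hstep n]
      exact PXb_gap hsa hPh ih
  have hT : ∀ n : ℕ, zeta g * b * (a ^ n)⁻¹ ∈ Gap k := by
    intro n
    have h1 := gap_zpow hsh hlt (hG n) (n : ℤ)
    rw [zpow_natCast, mul_inv_cancel_left] at h1
    exact h1
  obtain ⟨N, hN⟩ := gap_arch hsh hlt hy hug
  have hH : ∀ n : ℕ, k ^ N * ((k ^ n)⁻¹ * (zeta g * b * (a ^ n)⁻¹)) < y := by
    intro n
    induction n with
    | zero =>
      rw [pow_zero, pow_zero, inv_one, one_mul, mul_one]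
      exact hN N le_rfl
    | succ n ih =>
      have h1 := (PXb_lt hsa).2 ih
      rw [← hPdef, hP, map_mul, map_pow, hPh, hstep n] at h1
      exact h1
  have hm : ∀ m : ℕ, (k ^ m)⁻¹ * (zeta g * b) < y := by
    intro m
    have h1 := hH (m + N + 1)
    have h2 := gap_mono hsh hlt (gap_mul hsh hlt hug) (hT (m + N + 1)) (hul (m + N + 1))
      (-((m : ℤ) + 1))
    have e1 : k ^ N * ((k ^ (m + N + 1))⁻¹ * (zeta g * b * (a ^ (m + N + 1))⁻¹)) =
        k ^ (-((m : ℤ) + 1)) * (zeta g * b * (a ^ (m + N + 1))⁻¹) := by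
      rw [← mul_assoc]
      congr 1
      rw [← zpow_natCast, ← zpow_natCast, ← zpow_neg, ← zpow_add]
      congr 1
      push_cast
      ring
    have e2 : k ^ (-((m : ℤ) + 1)) * (k * (zeta g * b)) = (k ^ m)⁻¹ * (zeta g * b) := by
      rw [← mul_assoc]
      congr 1
      rw [← zpow_natCast, ← zpow_neg]
      nth_rewrite 2 [← zpow_one k]
      rw [← zpow_add]
      congr 1
      ring
    rw [e1] at h1
    rw [← e2]
    exact lt_trans h2 h1
  obtain ⟨N', hN'⟩ := gap_arch' hsh hlt hy hug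
  exact lt_irrefl _ (lt_trans (hN' N' le_rfl) (hm N'))

end TorP
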