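import Pool.Agent.Lib.MP_05cdf2_gt.P.PXb
import Pool.Agent.Lib.MP_05cdf2_gt.P.PN

/-! MP_05cdf2_gt, job P.PXc. The simple loops fixed by the push along `a = a_0`.

`zeta_gap`: `w` is not a power of `ζ`; by induction `ζ^n < w` (`succ_le`: `ζ^(n+1) ≤ w`), and `w < ζ^(-n-1)`
(`le_zeta_inv`, `le_pred`: if `w < ζ^(-n-1)` then `w ≤ ζ^(-n-2)`).
`pz`: `p i = ζ^i a⁻¹ ζ^(-i)` is strictly decreasing in `i : ℤ`: `ζ a⁻¹ ζ⁻¹ < ζ a⁻¹ = h < h⁻¹ = a ζ⁻¹ < a < a⁻¹`
(`pred_lt`, `hh_lt`, `a_lt`), and the conjugation by `ζ^i` is increasing (`aut_lt` for `cz ^ i`).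
`arch_zeta`: `y` and `a⁻¹` are in `Gap ζ`. By `gap_arch` (`x = ζ`) there is `N` with `ζ^N a⁻¹ < y`, and
`ζ^N a⁻¹ ζ^(-N) ≤ ζ^N a⁻¹` (`pred_lt`, `N` times; no power passes through `1`). By `gap_arch'` there is `N'` with
`y < ζ^(-N') a⁻¹ ≤ ζ^(-N') a⁻¹ ζ^(N')`. So the set of the `i : ℤ` with `p i ≤ y` is non empty and bounded below
(`Int.exists_least_of_bdd`): take the least one, minus one.
`px_fix`: choose `i` by `arch_zeta` and let `y' = ζ^(-i) y ζ^i`: simple (`smp_map` for `cz ^ (-i)`), fixed by `Pu a`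
(which fixes `ζ`), and `ζ a⁻¹ ζ⁻¹ ≤ y' < a⁻¹`. With `h = ζ a⁻¹`: `y' = h ζ⁻¹` or `h ≤ y'` (`le_of_lt_zeta`). So
`y' = ζ a⁻¹ ζ⁻¹`, or `y' = h`, or `h < y' < h⁻¹`, or `y' = h⁻¹ = a ζ⁻¹`, or `y' = a` (`le_pred`: nothing between
`a ζ⁻¹` and `a`), or `a < y' < a⁻¹`. If `h < y' < h⁻¹`: `y' ∈ Gap h` by `gap_of_smp`, against `no_fix_h`. If
`a < y' < a⁻¹`: `y' ∈ Gap a`, against `no_fix_a`.
`px_a`: let `y = φ a`; `φ (PuG a) φ⁻¹ = PuG y` (`PuG_map`) `= cz^m (PuG a)` for some `m`. As `PuG y y = y`: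
`ζ^m (Pu a y) ζ^(-m) = y`. `abv y = abv a ≠ 0`, so `y` is not a power of `ζ`. Let `i` be as in `arch_zeta`:
`p (i+1) ≤ y < p i`; apply the increasing map `w ↦ ζ^m (Pu a w) ζ^(-m)`, which maps `p j` to `p (j+m)` and fixes `y`:
`p (i+1+m) ≤ y < p (i+m)`, so `m = 0` by monotonicity of `p`. So `Pu a y = y`, and `px_fix` applies; the case `a⁻¹` is
excluded by `abv y = abv a` (`abv ζ = 0` by `abv_Rz`, `abv a ≠ - abv a`). -/

set_option autoImplicit false

namespace TorP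
open TorM TorG

variable {g : ℕ} [NeZero g]

omit [NeZero g] in
theorem zeta_gap {w : F g} (hw : w ∉ Subgroup.zpowers (zeta g)) : w ∈ Gap (zeta g) := by
  have hne : ∀ k : ℤ, zeta g ^ k ≠ w := by
    rintro k rfl
    exact hw (Subgroup.mem_zpowers_iff.2 ⟨k, rfl⟩)
  have hpow : ∀ n : ℕ, zeta g ^ n ≠ w := by
    intro n
    have := hne n
    rwa [zpow_natCast] at this
  have hpow' : ∀ n : ℕ, (zeta g ^ n)⁻¹ ≠ w := by
    intro n
    have := hne (-(n : ℤ))
    rwa [zpow_neg, zpow_natCast] at this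
  intro n
  constructor
  · induction n with
    | zero =>
      rw [pow_zero]
      apply one_lt
      intro h
      exact hpow 0 (by rw [pow_zero, h])
    | succ n ih =>
      rw [pow_succ]
      refine lt_of_le_of_ne (le_of_lt_zeta ih) ?_
      rw [← pow_succ]
      exact hpow (n + 1)
  · induction n with
    | zero =>
      rw [zero_add, pow_one]
      refine lt_of_le_of_ne (le_zeta_inv w) ?_
      have := hpow' 1
      rw [pow_one] at this
      exact this.symm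
    | succ n ih =>
      have h1 := le_pred ih
      have h2 : (zeta g ^ (n + 1))⁻¹ * (zeta g)⁻¹ = (zeta g ^ (n + 1 + 1))⁻¹ := by
        rw [pow_succ' (zeta g) (n + 1), mul_inv_rev]
      rw [h2] at h1
      exact lt_of_le_of_ne h1 (hpow' _).symm

/-- conjugates of `a⁻¹` by the powers of `ζ` -/
noncomputable def pz (g : ℕ) [NeZero g] (i : ℤ) : F g := zeta g ^ i * (ga (0 : Fin g))⁻¹ * (zeta g ^ i)⁻¹

private theorem PXc_abv_zeta (k : ℤ) : abv (zeta g ^ k) = 0 :=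
  abv_Rz (Subgroup.zpow_mem _ (Subgroup.subset_normalClosure (Set.mem_singleton _)) k)

private theorem PXc_abv_a : abv (ga (0 : Fin g)) (Sum.inl 0) = 1 := by
  rw [ga, abv_of]
  simp

private theorem PXc_not_mem {w : F g} (h : abv w (Sum.inl 0) ≠ 0) :
    w ∉ Subgroup.zpowers (zeta g) := by
  intro hw
  obtain ⟨k, rfl⟩ := Subgroup.mem_zpowers_iff.1 hw
  rw [PXc_abv_zeta] at h
  exact h rfl

/-- conjugation by a power of `ζ` is increasing -/
private theorem PXc_conj (k : ℤ) {x y : F g} :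
    zeta g ^ k * x * (zeta g ^ k)⁻¹ < zeta g ^ k * y * (zeta g ^ k)⁻¹ ↔ x < y := by
  rw [← cz_zpow_apply, ← cz_zpow_apply]
  exact aut_lt _ (Gam_zeta _)

private theorem PXc_conj' (k : ℤ) {x y : F g} :
    zeta g ^ k * x * (zeta g ^ k)⁻¹ ≤ zeta g ^ k * y * (zeta g ^ k)⁻¹ ↔ x ≤ y := by
  rw [← not_lt, ← not_lt, PXc_conj]

private theorem PXc_pz_conj (i k : ℤ) : zeta g ^ k * pz g i * (zeta g ^ k)⁻¹ = pz g (i + k) := by
  unfold pz
  rw [add_comm i k, zpow_add, mul_inv_rev]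
  group

private theorem PXc_a_ne : ga (0 : Fin g) ≠ 1 := by
  intro h
  have := PXc_abv_a (g := g)
  rw [h, abv_one] at this
  simp at this

private theorem PXc_hh_inv : (hh g)⁻¹ = ga (0 : Fin g) * (zeta g)⁻¹ := by
  unfold hh
  rw [mul_inv_rev, _root_.inv_inv]

private theorem PXc_hh_ne (hg : 2 ≤ g) : hh g ≠ 1 := (smp_hh hg).ne

theorem pz_anti (hg : 2 ≤ g) {i j : ℤ} (h : i < j) : pz g j < pz g i := by
  have h1 : pz g 1 < pz g 0 := by
    have e1 : pz g 1 = hh g * (zeta g)⁻¹ := by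
      unfold pz hh
      rw [zpow_one]
    have e0 : pz g 0 = (ga (0 : Fin g))⁻¹ := by
      unfold pz
      rw [zpow_zero, one_mul, inv_one, mul_one]
    rw [e1, e0]
    calc hh g * (zeta g)⁻¹ < hh g := pred_lt (PXc_hh_ne hg)
      _ < (hh g)⁻¹ := hh_lt hg
      _ = ga (0 : Fin g) * (zeta g)⁻¹ := PXc_hh_inv
      _ < ga (0 : Fin g) := pred_lt PXc_a_ne
      _ < (ga (0 : Fin g))⁻¹ := a_lt
  have h2 : StrictAnti (pz g) := by
    apply strictAnti_int_of_succ_lt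
    intro n
    have h3 := (PXc_conj n).2 h1
    rw [PXc_pz_conj, PXc_pz_conj] at h3
    rw [zero_add, add_comm 1 n] at h3
    exact h3
  exact h2 h

private theorem PXc_mul_le {w : F g} (hw : w ∉ Subgroup.zpowers (zeta g)) (n : ℕ) :
    w * (zeta g ^ n)⁻¹ ≤ w := by
  induction n with
  | zero => rw [pow_zero, inv_one, mul_one]
  | succ n ih =>
    have h1 : w * (zeta g ^ (n + 1))⁻¹ = w * (zeta g ^ n)⁻¹ * (zeta g)⁻¹ := by
      rw [pow_succ', mul_inv_rev, mul_assoc]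
    have h2 : w * (zeta g ^ n)⁻¹ ≠ 1 := by
      intro h
      apply hw
      rw [mul_inv_eq_one] at h
      rw [h]
      exact Subgroup.npow_mem_zpowers _ _
    rw [h1]
    exact (pred_lt h2).le.trans ih

theorem arch_zeta (hg : 2 ≤ g) {y : F g} (hy : y ∉ Subgroup.zpowers (zeta g)) :
    ∃ i : ℤ, pz g (i + 1) ≤ y ∧ y < pz g i := by
  have hg0 : 0 < g := by omega
  have ha : (ga (0 : Fin g))⁻¹ ∉ Subgroup.zpowers (zeta g) := by
    apply PXc_not_mem
    rw [abv_inv, Pi.neg_apply, PXc_abv_a]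
    norm_num
  obtain ⟨N, hN⟩ := gap_arch (smp_zeta hg0) (zeta_lt_inv hg0) (zeta_gap hy) (zeta_gap ha)
  obtain ⟨N', hN'⟩ := gap_arch' (smp_zeta hg0) (zeta_lt_inv hg0) (zeta_gap hy) (zeta_gap ha)
  have h1 : pz g (N : ℤ) ≤ y := by
    have h2 : zeta g ^ N * (ga (0 : Fin g))⁻¹ ∉ Subgroup.zpowers (zeta g) := by
      intro h
      exact ha ((Subgroup.mul_mem_cancel_left _ (Subgroup.npow_mem_zpowers _ _)).1 h)
    have h3 := PXc_mul_le h2 N
    unfold pz
    rw [zpow_natCast]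
    exact h3.trans (hN N le_rfl).le
  have h2 : y < pz g (-(N' : ℤ)) := by
    have h3 : (zeta g ^ N')⁻¹ * (ga (0 : Fin g))⁻¹ * zeta g ^ N' ∉ Subgroup.zpowers (zeta g) := by
      intro h
      rw [Subgroup.mul_mem_cancel_right _ (Subgroup.npow_mem_zpowers _ _),
        Subgroup.mul_mem_cancel_left _ (Subgroup.inv_mem _ (Subgroup.npow_mem_zpowers _ _))] at h
      exact ha h
    have h4 := PXc_mul_le h3 N'
    rw [mul_inv_cancel_right] at h4
    have h5 : pz g (-(N' : ℤ)) = (zeta g ^ N')⁻¹ * (ga (0 : Fin g))⁻¹ * zeta g ^ N' := by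
      unfold pz
      rw [zpow_neg, zpow_natCast, _root_.inv_inv]
    rw [h5]
    exact lt_of_lt_of_le (hN' N' le_rfl) h4
  obtain ⟨l, hl1, hl2⟩ := Int.exists_least_of_bdd (P := fun i => pz g i ≤ y)
    ⟨-(N' : ℤ), fun z hz => by
      by_contra hlt
      rw [not_le] at hlt
      exact absurd (h2.trans (pz_anti hg hlt)) (not_lt.2 hz)⟩ ⟨N, h1⟩
  refine ⟨l - 1, by rw [sub_add_cancel]; exact hl1, ?_⟩
  by_contra hc
  rw [not_lt] at hc
  have := hl2 (l - 1) hc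
  omega

theorem px_fix (hg : 2 ≤ g) {y : F g} (hy : Smp y) (hz : y ∉ Subgroup.zpowers (zeta g))
    (hP : Pu (ga (0 : Fin g)) y = y) :
    ∃ i j : ℤ, y = zeta g ^ i * ga (0 : Fin g) * zeta g ^ j ∨
      y = zeta g ^ i * (ga (0 : Fin g))⁻¹ * zeta g ^ j := by
  obtain ⟨i, h1, h2⟩ := arch_zeta hg hz
  have hPz : Pu (ga (0 : Fin g)) (zeta g) = zeta g := Pu_zeta (smp_ga 0)
  obtain ⟨y', hy'⟩ : ∃ y', y' = zeta g ^ (-i) * y * (zeta g ^ (-i))⁻¹ := ⟨_, rfl⟩
  have hyy : y = zeta g ^ i * y' * zeta g ^ (-i) := by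
    rw [hy']
    group
  have hs : Smp y' := by
    rw [hy', ← cz_zpow_apply]
    exact smp_map _ hy
  have hP' : Pu (ga (0 : Fin g)) y' = y' := by
    rw [hy', map_mul, map_mul, map_inv, map_zpow, hPz, hP]
  have e1 : pz g 1 = hh g * (zeta g)⁻¹ := by
    unfold pz hh
    rw [zpow_one]
  have e0 : pz g 0 = (ga (0 : Fin g))⁻¹ := by
    unfold pz
    rw [zpow_zero, one_mul, inv_one, mul_one]
  have h3 : hh g * (zeta g)⁻¹ ≤ y' := by
    have h4 := (PXc_conj' (-i)).2 h1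
    rw [PXc_pz_conj, ← hy'] at h4
    rw [← e1]
    have h5 : i + 1 + -i = 1 := by ring
    rw [h5] at h4
    exact h4
  have h4 : y' < (ga (0 : Fin g))⁻¹ := by
    have h5 := (PXc_conj (-i)).2 h2
    rw [PXc_pz_conj, ← hy', add_neg_cancel, e0] at h5
    exact h5
  rcases h3.eq_or_lt with h5 | h5
  · refine ⟨i + 1, -1 + -i, Or.inr ?_⟩
    rw [hyy, ← h5]
    unfold hh
    rw [zpow_add, zpow_add, zpow_one, zpow_neg_one]
    group
  · have h6 := le_of_lt_zeta h5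
    rw [inv_mul_cancel_right] at h6
    rcases h6.eq_or_lt with h7 | h7
    · refine ⟨i + 1, -i, Or.inr ?_⟩
      rw [hyy, ← h7]
      unfold hh
      rw [zpow_add, zpow_one]
      group
    · rcases lt_trichotomy y' (hh g)⁻¹ with h8 | h8 | h8
      · exact absurd hP' (no_fix_h hg (gap_of_smp (smp_hh hg) hs (hh_lt hg) h7 h8))
      · refine ⟨i, -1 + -i, Or.inl ?_⟩
        rw [hyy, h8, PXc_hh_inv, zpow_add, zpow_neg_one]
        group
      · rw [PXc_hh_inv] at h8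
        have h9 := le_of_lt_zeta h8
        rw [inv_mul_cancel_right] at h9
        rcases h9.eq_or_lt with h10 | h10
        · exact ⟨i, -i, Or.inl (by rw [hyy, ← h10])⟩
        · exact absurd hP' (no_fix_a hg (gap_of_smp (smp_ga 0) hs a_lt h10 h4))

theorem px_a (hg : 2 ≤ g) {φ : Gam g} (hT : φ ∈ Tor1 g)
    (hc : φ * PuG (ga (0 : Fin g)) * φ⁻¹ * (PuG (ga (0 : Fin g)))⁻¹ ∈ Subgroup.zpowers (cz g)) :
    ∃ i j : ℤ, (φ : MulAut (F g)) (ga (0 : Fin g)) = zeta g ^ i * ga (0 : Fin g) * zeta g ^ j := by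
  have hsa : Smp (ga (0 : Fin g)) := smp_ga 0
  obtain ⟨m, hm⟩ := Subgroup.mem_zpowers_iff.1 hc
  have hy := smp_map φ hsa
  have hself := PuG_self hy
  rw [PuG_map φ hsa] at hself
  have hf : φ * PuG (ga (0 : Fin g)) * φ⁻¹ = cz g ^ m * PuG (ga (0 : Fin g)) := by
    rw [hm, inv_mul_cancel_right]
  rw [hf] at hself
  obtain ⟨y, hyd⟩ : ∃ y, y = (φ : MulAut (F g)) (ga (0 : Fin g)) := ⟨_, rfl⟩
  rw [← hyd] at hself hy ⊢
  have habv : abv y = abv (ga (0 : Fin g)) := by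
    rw [hyd]
    exact (mem_Tor1 φ).1 hT _
  have hz : y ∉ Subgroup.zpowers (zeta g) := by
    apply PXc_not_mem
    rw [habv, PXc_abv_a]
    norm_num
  have happ : ∀ w : F g, ((cz g ^ m * PuG (ga (0 : Fin g)) : Gam g) : MulAut (F g)) w =
      zeta g ^ m * Pu (ga (0 : Fin g)) w * (zeta g ^ m)⁻¹ := by
    intro w
    rw [Subgroup.coe_mul, MulAut.mul_apply, PuG_apply hsa, cz_zpow_apply]
  have hPz : Pu (ga (0 : Fin g)) (zeta g) = zeta g := Pu_zeta hsa
  have hPa : Pu (ga (0 : Fin g)) (ga (0 : Fin g)) = ga (0 : Fin g) := Pu_self hsa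
  have hpz : ∀ j : ℤ, ((cz g ^ m * PuG (ga (0 : Fin g)) : Gam g) : MulAut (F g)) (pz g j) =
      pz g (j + m) := by
    intro j
    rw [happ, ← PXc_pz_conj]
    congr 2
    unfold pz
    rw [map_mul, map_mul, map_inv, map_inv, map_zpow, hPz, hPa]
  obtain ⟨i, h1, h2⟩ := arch_zeta hg hz
  have h3 : pz g (i + 1 + m) ≤ y := by
    have h4 := (aut_le ((cz g ^ m * PuG (ga (0 : Fin g)) : Gam g) : MulAut (F g))
      (Gam_zeta _)).2 h1
    rw [hpz, hself] at h4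
    exact h4
  have h4 : y < pz g (i + m) := by
    have h5 := (aut_lt ((cz g ^ m * PuG (ga (0 : Fin g)) : Gam g) : MulAut (F g))
      (Gam_zeta _)).2 h2
    rw [hpz, hself] at h5
    exact h5
  have hanti : ∀ p q : ℤ, p ≤ q → pz g q ≤ pz g p := by
    intro p q hpq
    rcases hpq.eq_or_lt with h | h
    · rw [h]
    · exact (pz_anti hg h).le
  have hm0 : m = 0 := by
    rcases lt_trichotomy m 0 with h | h | h
    · exact absurd (h2.trans_le (hanti (i + 1 + m) i (by omega))) (not_lt.2 h3)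
    · exact h
    · exact absurd (h4.trans_le (hanti (i + 1) (i + m) (by omega))) (not_lt.2 h1)
  subst hm0
  rw [happ, zpow_zero, one_mul, inv_one, mul_one] at hself
  obtain ⟨p, q, h5 | h5⟩ := px_fix hg hy hz hself
  · exact ⟨p, q, h5⟩
  · exfalso
    have h6 : abv y = -abv (ga (0 : Fin g)) := by
      rw [h5, abv_mul, abv_mul, PXc_abv_zeta, PXc_abv_zeta, abv_inv]
      simp
    have h7 := congrFun (h6.symm.trans habv) (Sum.inl 0)
    rw [Pi.neg_apply, PXc_abv_a] at h7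
    norm_num at h7

end TorP
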