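import Pool.Agent.Lib.MP_05cdf2_gt.P.PXc

/-! MP_05cdf2_gt, job P.PXd. The centraliser of the pushes modulo the boundary twist.

`orb_ga`: `mvP i (i+1)` maps `ga i` to `ga (i+1)` (`eP`); induction on `i`.
`orb_gb`: with `T₁ = mvB i` (`a ↦ a b`) and `T₂ = (mvA i)⁻¹` (`b ↦ b a⁻¹`): `(T₂ T₁ T₂) b = a⁻¹` (compute: `T₂ b = b a⁻¹`,
`T₁ (b a⁻¹) = b (a b)⁻¹ = a⁻¹`, `T₂ a⁻¹ = a⁻¹`), so `ψ = (T₂ T₁ T₂)⁻¹` maps `a` to `b⁻¹`; compose with `orb_ga`.
`px_gen`: let `ψ (ga 0) = x` with `x = ga k` or `x = (gb k)⁻¹`; then `φ' = ψ⁻¹ φ ψ` is in `Tor1` and satisfies the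
hypothesis of `px_a`, since `φ' (PuG a) φ'⁻¹ (PuG a)⁻¹ = ψ⁻¹ (φ (PuG x) φ⁻¹ (PuG x)⁻¹) ψ` (`PuG_map`), for
`x = (gb k)⁻¹`: `PuG x = (PuG (gb k))⁻¹` (`PuG_inv`), `cz` is central. So `φ x = ψ (φ' a) = ζ^i x ζ^j`. If `x = (gb k)⁻¹`
take inverses.

`px_core`: let `φ (a_0) = ζ^i a_0 ζ^j`, `φ' = cz^(-i) φ`; so for every generator `l` there are `i_l, j_l` with
`φ' l = ζ^(i_l) l ζ^(j_l)`, and `i_l = 0` for `l = a_0`.
(a) if `u, v` are not powers of `ζ`, `u < v` and `v ∉ u ⟨ζ⟩`, then `u ζ^s < v ζ^t` for all `s t : ℤ` (`succ_le`,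
`le_pred`, `pred_lt`: `u < v` gives `u ζ ≤ v`, `u ζ ≠ v`; `v ≥ u`... by induction on `|s|`, `|t|`).
(b) the blocks `ζ^n a_0 ⟨ζ⟩` are strictly decreasing: `ζ a_0 ζ⁻¹ < a_0` (take inverses in... : `a_0 ≤ l < ζ⁻¹ a_0` for
`l = a_0` gives `a_0 < ζ⁻¹ a_0`; then by (a) `a_0 < ζ⁻¹ a_0 ζ`, and conjugation by powers of `ζ` is increasing) and (a).
(c) let `l` be a letter (a generator or the inverse of one), `l ≠ a_0`. By `a_le`, `lt_za`: `a_0 < l < ζ⁻¹ a_0`, and `l`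
is in neither of the blocks of `a_0`, `ζ⁻¹ a_0` (abelianisation). If `φ' l = ζ^i l ζ^j` then applying `φ'`
(increasing, `φ' a_0 = a_0 ζ^(j₀)`): `a_0 ζ^(j₀) < ζ^i l ζ^j < ζ⁻¹ a_0 ζ^(j₀)`. On the other hand conjugation by `ζ^i`:
`ζ^i a_0 ζ^(-i) < ζ^i l ζ^(-i) < ζ^(i-1) a_0 ζ^(-i)`. With (a) and (b): `i ≥ 1` contradicts the first lower bound
(`ζ^i l` is below the block of `ζ^(i-1) a_0`, which is at most the block of `a_0`), `i ≤ -1` contradicts the upper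
bound. So `i = 0`.
(d) apply (c) to `l⁻¹`, for a generator `l` (`l⁻¹ ≠ a_0`): `φ' l⁻¹ = ζ^(-j_l) l⁻¹ ζ^(-i_l)`, so `j_l = 0`; apply (c) to
`l`, if `l ≠ a_0`: `i_l = 0`. So `φ' l = l` for all generators, `φ' = 1`. -/

set_option autoImplicit false

namespace TorP
open TorM TorG

variable {g : ℕ} [NeZero g]

theorem PXd_orb (n : ℕ) (hn : n < g) : ∃ ψ : Gam g, (ψ : MulAut (F g)) (ga (0 : Fin g)) = ga ⟨n, hn⟩ := by
  induction n with
  | zero => exact ⟨1, rfl⟩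
  | succ n ih =>
    obtain ⟨ψ, hψ⟩ := ih (by omega)
    refine ⟨mvP ⟨n, by omega⟩ ⟨n + 1, hn⟩ rfl * ψ, ?_⟩
    have h1 : ((mvP ⟨n, by omega⟩ ⟨n + 1, hn⟩ rfl : Gam g) : MulAut (F g)) (ga ⟨n, by omega⟩) =
        ga ⟨n + 1, hn⟩ := by
      show eP ⟨n, by omega⟩ ⟨n + 1, hn⟩ (ga ⟨n, by omega⟩) = ga ⟨n + 1, hn⟩
      unfold eP
      rw [endo_ga, if_pos rfl]
    rw [Subgroup.coe_mul, MulAut.mul_apply, hψ, h1]

theorem orb_ga (i : Fin g) : ∃ ψ : Gam g, (ψ : MulAut (F g)) (ga (0 : Fin g)) = ga i :=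
  PXd_orb i.1 i.2

theorem orb_gb (i : Fin g) : ∃ ψ : Gam g, (ψ : MulAut (F g)) (ga (0 : Fin g)) = (gb i)⁻¹ := by
  obtain ⟨ψ, hψ⟩ := orb_ga i
  refine ⟨mvA i * (mvB i)⁻¹ * mvA i * ψ, ?_⟩
  have h1 : ((mvA i : Gam g) : MulAut (F g)) (ga i) = ga i := by
    show endo ga (fun k => if k = i then gb i * ga i else gb k) (ga i) = ga i
    rw [endo_ga]
  have h2 : ((mvA i : Gam g) : MulAut (F g)) (gb i) = gb i * ga i := by
    show endo ga (fun k => if k = i then gb i * ga i else gb k) (gb i) = gb i * ga i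
    rw [endo_gb, if_pos rfl]
  have h3 : (((mvB i)⁻¹ : Gam g) : MulAut (F g)) (ga i) = ga i * (gb i)⁻¹ := by
    show endo (fun k => if k = i then ga i * (gb i)⁻¹ else ga k) gb (ga i) = ga i * (gb i)⁻¹
    rw [endo_ga, if_pos rfl]
  rw [Subgroup.coe_mul, Subgroup.coe_mul, Subgroup.coe_mul, MulAut.mul_apply, MulAut.mul_apply,
    MulAut.mul_apply, hψ, h1, h3, map_mul, map_inv, h1, h2]
  group

omit [NeZero g] in
theorem PXd_cen (ψ : Gam g) (m : ℤ) : ψ * cz g ^ m * ψ⁻¹ = cz g ^ m := by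
  have h1 : Commute ψ (cz g) := cz_comm ψ
  have h2 := (h1.zpow_right m).eq
  rw [h2]
  group

theorem PXd_gen (hg : 2 ≤ g) {φ ψ : Gam g} (hT : φ ∈ Tor1 g)
    (hc : φ * PuG ((ψ : MulAut (F g)) (ga (0 : Fin g))) * φ⁻¹ *
      (PuG ((ψ : MulAut (F g)) (ga (0 : Fin g))))⁻¹ ∈ Subgroup.zpowers (cz g)) :
    ∃ i j : ℤ, (φ : MulAut (F g)) ((ψ : MulAut (F g)) (ga (0 : Fin g))) =
      zeta g ^ i * (ψ : MulAut (F g)) (ga (0 : Fin g)) * zeta g ^ j := by
  have hT' : ψ⁻¹ * φ * ψ ∈ Tor1 g := by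
    have h1 : (Tor1 g).Normal := inferInstance
    have h2 := h1.conj_mem φ hT ψ⁻¹
    rwa [_root_.inv_inv] at h2
  rw [PuG_map ψ (smp_ga 0)] at hc
  obtain ⟨m, hm⟩ := hc
  have hc' : ψ⁻¹ * φ * ψ * PuG (ga (0 : Fin g)) * (ψ⁻¹ * φ * ψ)⁻¹ * (PuG (ga (0 : Fin g)))⁻¹ ∈
      Subgroup.zpowers (cz g) := by
    refine ⟨m, ?_⟩
    have h1 := PXd_cen ψ⁻¹ m
    have h2 : cz g ^ m = φ * (ψ * PuG (ga (0 : Fin g)) * ψ⁻¹) * φ⁻¹ *
        (ψ * PuG (ga (0 : Fin g)) * ψ⁻¹)⁻¹ := hm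
    show cz g ^ m = _
    rw [← h1, h2]
    group
  obtain ⟨i, j, hij⟩ := px_a hg hT' hc'
  refine ⟨i, j, ?_⟩
  have h3 : ((ψ⁻¹ * φ * ψ : Gam g) : MulAut (F g)) (ga (0 : Fin g)) =
      ((ψ : MulAut (F g)))⁻¹ ((φ : MulAut (F g)) ((ψ : MulAut (F g)) (ga (0 : Fin g)))) := rfl
  rw [h3] at hij
  have h4 := congrArg (ψ : MulAut (F g)) hij
  rw [MulAut.apply_inv_self, map_mul, map_mul, map_zpow, map_zpow, Gam_zeta] at h4
  exact h4

theorem px_gen (hg : 2 ≤ g) {φ : Gam g} (hT : φ ∈ Tor1 g)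
    (hc : ∀ i : Gen g, φ * PuG (FreeGroup.of i) * φ⁻¹ * (PuG (FreeGroup.of i))⁻¹ ∈
      Subgroup.zpowers (cz g)) (l : Gen g) :
    ∃ i j : ℤ, (φ : MulAut (F g)) (FreeGroup.of l) = zeta g ^ i * FreeGroup.of l * zeta g ^ j := by
  rcases l with k | k
  · obtain ⟨ψ, hψ⟩ := orb_ga k
    have h1 := hc (Sum.inl k)
    have h2 : (FreeGroup.of (Sum.inl k) : F g) = (ψ : MulAut (F g)) (ga (0 : Fin g)) := hψ.symm
    rw [h2] at h1 ⊢
    exact PXd_gen hg hT h1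
  · obtain ⟨ψ, hψ⟩ := orb_gb k
    have h1 := hc (Sum.inr k)
    have h2 : (FreeGroup.of (Sum.inr k) : F g) = gb k := rfl
    rw [h2] at h1 ⊢
    obtain ⟨m, hm⟩ := h1
    have hm' : cz g ^ m = φ * PuG (gb k) * φ⁻¹ * (PuG (gb k))⁻¹ := hm
    have h3 : φ * PuG ((ψ : MulAut (F g)) (ga (0 : Fin g))) * φ⁻¹ *
      (PuG ((ψ : MulAut (F g)) (ga (0 : Fin g))))⁻¹ ∈ Subgroup.zpowers (cz g) := by
      rw [hψ, PuG_inv (smp_gb k)]
      refine ⟨-m, ?_⟩
      show cz g ^ (-m) = _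
      have h4 := PXd_cen (PuG (gb k))⁻¹ (-m)
      rw [← h4, zpow_neg, hm']
      group
    obtain ⟨i, j, hij⟩ := PXd_gen hg hT h3
    rw [hψ, map_inv] at hij
    refine ⟨-j, -i, ?_⟩
    have h5 := congrArg (fun x => x⁻¹) hij
    simp only [_root_.inv_inv] at h5
    rw [h5]
    group

omit [NeZero g] in
theorem PXd_ab {x : F g} (h : abv x ≠ 0) : x ∉ Subgroup.zpowers (zeta g) := by
  rintro ⟨k, hk⟩
  apply h
  have hk' : zeta g ^ k = x := hk
  have h1 : ab (zeta g) = 1 := by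
    have h2 : abv (zeta g) = 0 := abv_zeta' g
    exact Multiplicative.toAdd.injective h2
  have h3 : ab x = 1 := by
    rw [← hk', map_zpow, h1, one_zpow]
  unfold abv
  rw [h3]
  rfl

omit [NeZero g] in
theorem PXd_step {u w : F g} (hu : u ∉ Subgroup.zpowers (zeta g))
    (h : u⁻¹ * w ∉ Subgroup.zpowers (zeta g)) : u * zeta g < w ↔ u < w := by
  constructor
  · intro h1
    have h2 : u * zeta g ≠ 1 := by
      intro h3
      apply hu
      rw [eq_inv_of_mul_eq_one_left h3]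
      exact Subgroup.inv_mem _ (Subgroup.mem_zpowers _)
    have h3 := pred_lt h2
    rw [mul_inv_cancel_right] at h3
    exact h3.trans h1
  · intro h1
    refine lt_of_le_of_ne (le_of_lt_zeta h1) ?_
    intro h2
    apply h
    rw [← h2, inv_mul_cancel_left]
    exact Subgroup.mem_zpowers _

omit [NeZero g] in
theorem PXd_l {u w : F g} (hu : u ∉ Subgroup.zpowers (zeta g))
    (h : u⁻¹ * w ∉ Subgroup.zpowers (zeta g)) (s : ℤ) : u * zeta g ^ s < w ↔ u < w := by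
  have hz : ∀ s : ℤ, zeta g ^ s ∈ Subgroup.zpowers (zeta g) := fun s => ⟨s, rfl⟩
  have hu' : ∀ s : ℤ, u * zeta g ^ s ∉ Subgroup.zpowers (zeta g) := by
    intro s hs
    exact hu ((Subgroup.mul_mem_cancel_right _ (hz s)).1 hs)
  have h' : ∀ s : ℤ, (u * zeta g ^ s)⁻¹ * w ∉ Subgroup.zpowers (zeta g) := by
    intro s hs
    rw [mul_inv_rev, mul_assoc] at hs
    exact h ((Subgroup.mul_mem_cancel_left _ (Subgroup.inv_mem _ (hz s))).1 hs)
  have hs : ∀ s : ℤ, u * zeta g ^ (s + 1) < w ↔ u * zeta g ^ s < w := by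
    intro s
    rw [zpow_add_one, ← mul_assoc]
    exact PXd_step (hu' s) (h' s)
  induction s using Int.induction_on with
  | zero => rw [zpow_zero, mul_one]
  | succ i ih => exact (hs _).trans ih
  | pred i ih =>
    have h1 := hs (-(i : ℤ) - 1)
    rw [sub_add_cancel] at h1
    exact h1.symm.trans ih

omit [NeZero g] in
theorem PXd_blk {u v : F g} (hu : u ∉ Subgroup.zpowers (zeta g))
    (hv : v ∉ Subgroup.zpowers (zeta g)) (h : u⁻¹ * v ∉ Subgroup.zpowers (zeta g)) (s t : ℤ) :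
    u * zeta g ^ s < v * zeta g ^ t ↔ u < v := by
  have hz : ∀ s : ℤ, zeta g ^ s ∈ Subgroup.zpowers (zeta g) := fun s => ⟨s, rfl⟩
  have h1 : u⁻¹ * (v * zeta g ^ t) ∉ Subgroup.zpowers (zeta g) := by
    intro hs
    rw [← mul_assoc] at hs
    exact h ((Subgroup.mul_mem_cancel_right _ (hz t)).1 hs)
  have h2 : v⁻¹ * u ∉ Subgroup.zpowers (zeta g) := by
    intro hs
    apply h
    have h3 := Subgroup.inv_mem _ hs
    rwa [mul_inv_rev, _root_.inv_inv] at h3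
  rw [PXd_l hu h1 s]
  have h3 := PXd_l hv h2 t
  have hne1 : u ≠ v * zeta g ^ t := by
    intro he
    apply h1
    rw [← he, inv_mul_cancel]
    exact Subgroup.one_mem _
  have hne2 : u ≠ v := by
    rintro rfl
    apply h
    rw [inv_mul_cancel]
    exact Subgroup.one_mem _
  constructor
  · intro h4
    rcases lt_or_gt_of_ne hne2 with h5 | h5
    · exact h5
    · exact absurd h4 (not_lt.2 (h3.2 h5).le)
  · intro h4
    rcases lt_or_gt_of_ne hne1 with h5 | h5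
    · exact h5
    · exact absurd h4 (not_lt.2 (h3.1 h5).le)

omit [NeZero g] in
theorem PXd_conj (n : ℤ) {x y : F g} (h : x < y) :
    zeta g ^ n * x * (zeta g ^ n)⁻¹ < zeta g ^ n * y * (zeta g ^ n)⁻¹ := by
  rw [← cz_zpow_apply, ← cz_zpow_apply]
  exact (aut_lt _ (Gam_zeta _)).2 h

theorem PXd_a0 : (abv (ga (0 : Fin g)) : Gen g → ℤ) (Sum.inl 0) = 1 := by
  have h : abv (ga (0 : Fin g)) = Pi.single (Sum.inl 0) 1 := abv_of _
  rw [h, Pi.single_eq_same]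

/-- the exponent sums of a letter different from `a_0` -/
theorem PXd_let (l : Ltr g) (hl : l ≠ (Sum.inl 0, true)) :
    (abv (FreeGroup.mk [l] : F g) : Gen g → ℤ) (Sum.inl 0) ≤ 0 ∧
      abv (FreeGroup.mk [l] : F g) ≠ 0 := by
  obtain ⟨x, b⟩ := l
  cases b with
  | true =>
    have h1 : abv (FreeGroup.mk [(x, true)] : F g) = Pi.single x 1 := abv_of x
    have hx : x ≠ Sum.inl 0 := by
      rintro rfl
      exact hl rfl
    rw [h1]
    refine ⟨?_, ?_⟩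
    · rw [Pi.single_eq_of_ne hx.symm]
    · intro h2
      have h3 := congrFun h2 x
      rw [Pi.single_eq_same] at h3
      exact absurd h3 one_ne_zero
  | false =>
    have h0 : (FreeGroup.mk [(x, false)] : F g) = (FreeGroup.of x)⁻¹ := rfl
    have h1 : abv (FreeGroup.mk [(x, false)] : F g) = - Pi.single x 1 := by
      rw [h0, abv_inv, abv_of]
    rw [h1]
    refine ⟨?_, ?_⟩
    · rw [Pi.neg_apply]
      by_cases hx : x = Sum.inl 0
      · rw [hx, Pi.single_eq_same]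
        norm_num
      · rw [Pi.single_eq_of_ne (Ne.symm hx)]
        norm_num
    · intro h2
      have h3 := congrFun h2 x
      rw [Pi.neg_apply, Pi.single_eq_same] at h3
      have h4 : (-1 : ℤ) = 0 := h3
      omega

/-- a letter different from `a_0` lies between the blocks of `a_0` and `ζ⁻¹ a_0` -/
theorem PXd_btw (hg : 2 ≤ g) (l : Ltr g) (hl : l ≠ (Sum.inl 0, true)) (s t : ℤ) :
    ga (0 : Fin g) * zeta g ^ s < FreeGroup.mk [l] * zeta g ^ t ∧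
      FreeGroup.mk [l] * zeta g ^ t < (zeta g)⁻¹ * ga (0 : Fin g) * zeta g ^ s := by
  obtain ⟨h1, h2⟩ := PXd_let l hl
  have ha := PXd_a0 (g := g)
  have ha0 : abv (ga (0 : Fin g)) ≠ 0 := by
    intro h
    rw [h] at ha
    exact absurd ha (by norm_num)
  have hz := abv_zeta' g
  have hab1 : abv ((ga (0 : Fin g))⁻¹ * FreeGroup.mk [l]) ≠ 0 := by
    intro h
    rw [abv_mul, abv_inv] at h
    have h3 := congrFun h (Sum.inl 0)
    rw [Pi.add_apply, Pi.neg_apply, ha] at h3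
    have h4 : -1 + (abv (FreeGroup.mk [l] : F g) : Gen g → ℤ) (Sum.inl 0) = 0 := h3
    omega
  have hv : abv ((zeta g)⁻¹ * ga (0 : Fin g)) ≠ 0 := by
    rw [abv_mul, abv_inv, hz, neg_zero, zero_add]
    exact ha0
  have hab2 : abv ((FreeGroup.mk [l] : F g)⁻¹ * ((zeta g)⁻¹ * ga (0 : Fin g))) ≠ 0 := by
    intro h
    rw [abv_mul, abv_mul, abv_inv, abv_inv, hz, neg_zero, zero_add] at h
    have h3 := congrFun h (Sum.inl 0)
    rw [Pi.add_apply, Pi.neg_apply, ha] at h3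
    have h4 : -(abv (FreeGroup.mk [l] : F g) : Gen g → ℤ) (Sum.inl 0) + 1 = 0 := h3
    omega
  have hne : ga (0 : Fin g) ≠ FreeGroup.mk [l] := by
    intro h
    rw [← h, ha] at h1
    omega
  constructor
  · rw [PXd_blk (PXd_ab ha0) (PXd_ab h2) (PXd_ab hab1)]
    exact lt_of_le_of_ne (a_le l) hne
  · rw [PXd_blk (PXd_ab h2) (PXd_ab hv) (PXd_ab hab2)]
    exact lt_za hg l

theorem PXd_dec1 (hg : 2 ≤ g) (n s t : ℤ) :
    zeta g ^ n * ga (0 : Fin g) * zeta g ^ s < zeta g ^ (n - 1) * ga (0 : Fin g) * zeta g ^ t := by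
  have hl : ((Sum.inr 0, false) : Ltr g) ≠ (Sum.inl 0, true) := by
    intro h
    have h1 := congrArg Prod.snd h
    exact Bool.false_ne_true h1
  have h1 := (PXd_btw hg (Sum.inr 0, false) hl (s + n) 0).1.trans
    (PXd_btw hg (Sum.inr 0, false) hl (t + n) 0).2
  have h2 := PXd_conj n h1
  have e1 : zeta g ^ n * (ga (0 : Fin g) * zeta g ^ (s + n)) * (zeta g ^ n)⁻¹ =
      zeta g ^ n * ga (0 : Fin g) * zeta g ^ s := by
    rw [zpow_add]
    group
  have e2 : zeta g ^ n * ((zeta g)⁻¹ * ga (0 : Fin g) * zeta g ^ (t + n)) * (zeta g ^ n)⁻¹ =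
      zeta g ^ (n - 1) * ga (0 : Fin g) * zeta g ^ t := by
    rw [zpow_add, zpow_sub_one]
    group
  rw [e1, e2] at h2
  exact h2

theorem PXd_dec (hg : 2 ≤ g) (k : ℕ) (m s t : ℤ) :
    zeta g ^ (m + 1 + k) * ga (0 : Fin g) * zeta g ^ s <
      zeta g ^ m * ga (0 : Fin g) * zeta g ^ t := by
  induction k with
  | zero =>
    have h := PXd_dec1 hg (m + 1) s t
    rw [add_sub_cancel_right] at h
    rw [Nat.cast_zero, add_zero]
    exact h
  | succ k ih =>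
    have h := PXd_dec1 hg (m + 1 + ((k + 1 : ℕ) : ℤ)) s s
    have e : m + 1 + ((k + 1 : ℕ) : ℤ) - 1 = m + 1 + (k : ℤ) := by
      push_cast
      ring
    rw [e] at h
    exact h.trans ih

theorem PXd_dec' (hg : 2 ≤ g) {n m : ℤ} (h : m < n) (s t : ℤ) :
    zeta g ^ n * ga (0 : Fin g) * zeta g ^ s < zeta g ^ m * ga (0 : Fin g) * zeta g ^ t := by
  obtain ⟨k, hk⟩ : ∃ k : ℕ, n = m + 1 + k := ⟨(n - m - 1).toNat, by omega⟩
  rw [hk]
  exact PXd_dec hg k m s t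

/-- the left exponent vanishes -/
theorem PXd_left (hg : 2 ≤ g) {φ : Gam g} {j₀ : ℤ}
    (ha : (φ : MulAut (F g)) (ga (0 : Fin g)) = ga (0 : Fin g) * zeta g ^ j₀) (l : Ltr g)
    (hl : l ≠ (Sum.inl 0, true)) {i j : ℤ}
    (h : (φ : MulAut (F g)) (FreeGroup.mk [l]) = zeta g ^ i * FreeGroup.mk [l] * zeta g ^ j) :
    i = 0 := by
  have b0 := PXd_btw hg l hl 0 0
  rw [zpow_zero, mul_one, mul_one, mul_one] at b0
  have L1 := (aut_lt _ (Gam_zeta φ)).2 b0.1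
  have L2 := (aut_lt _ (Gam_zeta φ)).2 b0.2
  have L1' : ga (0 : Fin g) * zeta g ^ j₀ < zeta g ^ i * FreeGroup.mk [l] * zeta g ^ j := by
    rw [← ha, ← h]
    exact L1
  have L2' : zeta g ^ i * FreeGroup.mk [l] * zeta g ^ j <
      (zeta g)⁻¹ * (ga (0 : Fin g) * zeta g ^ j₀) := by
    rw [← ha, ← h]
    have e : (φ : MulAut (F g)) ((zeta g)⁻¹ * ga (0 : Fin g)) =
        (zeta g)⁻¹ * (φ : MulAut (F g)) (ga (0 : Fin g)) := by
      rw [map_mul, map_inv, Gam_zeta]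
    rw [← e]
    exact L2
  have C1 : ∀ s t : ℤ, zeta g ^ i * ga (0 : Fin g) * zeta g ^ s <
      zeta g ^ i * FreeGroup.mk [l] * zeta g ^ t := by
    intro s t
    have h1 := PXd_conj i (PXd_btw hg l hl (s + i) (t + i)).1
    have e1 : zeta g ^ i * (ga (0 : Fin g) * zeta g ^ (s + i)) * (zeta g ^ i)⁻¹ =
        zeta g ^ i * ga (0 : Fin g) * zeta g ^ s := by
      rw [zpow_add]
      group
    have e2 : zeta g ^ i * (FreeGroup.mk [l] * zeta g ^ (t + i)) * (zeta g ^ i)⁻¹ =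
        zeta g ^ i * FreeGroup.mk [l] * zeta g ^ t := by
      rw [zpow_add]
      group
    rw [e1, e2] at h1
    exact h1
  have C2 : ∀ s t : ℤ, zeta g ^ i * FreeGroup.mk [l] * zeta g ^ t <
      zeta g ^ (i - 1) * ga (0 : Fin g) * zeta g ^ s := by
    intro s t
    have h1 := PXd_conj i (PXd_btw hg l hl (s + i) (t + i)).2
    have e1 : zeta g ^ i * ((zeta g)⁻¹ * ga (0 : Fin g) * zeta g ^ (s + i)) * (zeta g ^ i)⁻¹ =
        zeta g ^ (i - 1) * ga (0 : Fin g) * zeta g ^ s := by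
      rw [zpow_add, zpow_sub_one]
      group
    have e2 : zeta g ^ i * (FreeGroup.mk [l] * zeta g ^ (t + i)) * (zeta g ^ i)⁻¹ =
        zeta g ^ i * FreeGroup.mk [l] * zeta g ^ t := by
      rw [zpow_add]
      group
    rw [e1, e2] at h1
    exact h1
  rcases lt_trichotomy i 0 with hi | hi | hi
  · exfalso
    have h1 := (C1 j₀ j).trans L2'
    rcases eq_or_lt_of_le (show i ≤ -1 by omega) with h2 | h2
    · rw [h2, zpow_neg_one, mul_assoc] at h1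
      exact lt_irrefl _ h1
    · have h3 := PXd_dec' hg h2 j₀ j₀
      rw [zpow_neg_one, mul_assoc (zeta g)⁻¹] at h3
      exact lt_asymm h1 h3
  · exact hi
  · exfalso
    have h1 := L1'.trans (C2 j₀ j)
    rcases eq_or_lt_of_le (show 0 ≤ i - 1 by omega) with h2 | h2
    · rw [← h2, zpow_zero, one_mul] at h1
      exact lt_irrefl _ h1
    · have h3 := PXd_dec' hg h2 j₀ j₀
      rw [zpow_zero, one_mul] at h3
      exact lt_asymm h1 h3

theorem px_core (hg : 2 ≤ g) {φ : Gam g} (hT : φ ∈ Tor1 g)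
    (hc : ∀ i : Gen g, φ * PuG (FreeGroup.of i) * φ⁻¹ * (PuG (FreeGroup.of i))⁻¹ ∈
      Subgroup.zpowers (cz g)) : φ ∈ Subgroup.zpowers (cz g) := by
  obtain ⟨i₀, j₁, h0⟩ := px_gen hg hT hc (Sum.inl 0)
  obtain ⟨φ', hφ'⟩ : ∃ φ' : Gam g, φ' = cz g ^ (-i₀) * φ := ⟨_, rfl⟩
  have happ : ∀ w : F g, (φ' : MulAut (F g)) w =
      zeta g ^ (-i₀) * (φ : MulAut (F g)) w * (zeta g ^ (-i₀))⁻¹ := by
    intro w
    rw [hφ', Subgroup.coe_mul, MulAut.mul_apply, cz_zpow_apply]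
  have ha : (φ' : MulAut (F g)) (ga (0 : Fin g)) = ga (0 : Fin g) * zeta g ^ (j₁ + i₀) := by
    have h1 : (φ : MulAut (F g)) (ga (0 : Fin g)) = zeta g ^ i₀ * ga (0 : Fin g) * zeta g ^ j₁ := h0
    rw [happ, h1, zpow_add]
    group
  have hall : ∀ l : Gen g, ∃ i j : ℤ,
      (φ' : MulAut (F g)) (FreeGroup.of l) = zeta g ^ i * FreeGroup.of l * zeta g ^ j := by
    intro l
    obtain ⟨i, j, h⟩ := px_gen hg hT hc l
    refine ⟨-i₀ + i, j + i₀, ?_⟩
    rw [happ, h, zpow_add, zpow_add]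
    group
  have hfix : ∀ l : Gen g, (φ' : MulAut (F g)) (FreeGroup.of l) = FreeGroup.of l := by
    intro l
    have hinv : ∀ i j : ℤ,
        (φ' : MulAut (F g)) (FreeGroup.of l) = zeta g ^ i * FreeGroup.of l * zeta g ^ j → j = 0 := by
      intro i j h
      have h1 : (φ' : MulAut (F g)) (FreeGroup.mk [(l, false)]) =
          zeta g ^ (-j) * FreeGroup.mk [(l, false)] * zeta g ^ (-i) := by
        have e0 : (FreeGroup.mk [(l, false)] : F g) = (FreeGroup.of l)⁻¹ := rfl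
        rw [e0, map_inv, h]
        group
      have h2 := PXd_left hg ha (l, false) (by
        intro h3
        have h4 := congrArg Prod.snd h3
        exact Bool.false_ne_true h4) h1
      omega
    by_cases hl : l = Sum.inl 0
    · have h1 : (φ' : MulAut (F g)) (FreeGroup.of l) =
          zeta g ^ (0 : ℤ) * FreeGroup.of l * zeta g ^ (j₁ + i₀) := by
        rw [zpow_zero, one_mul, hl]
        exact ha
      have h2 := hinv 0 _ h1
      rw [h2, zpow_zero, one_mul, mul_one] at h1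
      exact h1
    · obtain ⟨i, j, h⟩ := hall l
      have hj := hinv i j h
      have h1 : (φ' : MulAut (F g)) (FreeGroup.mk [(l, true)]) =
          zeta g ^ i * FreeGroup.mk [(l, true)] * zeta g ^ j := h
      have hi := PXd_left hg ha (l, true) (by
        intro h3
        exact hl (congrArg Prod.fst h3)) h1
      rw [h, hi, hj, zpow_zero, one_mul, mul_one]
  have hone : φ' = 1 := by
    apply Subtype.ext
    apply MulEquiv.toMonoidHom_injective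
    apply FreeGroup.ext_hom
    intro l
    exact hfix l
  refine ⟨i₀, ?_⟩
  show cz g ^ i₀ = φ
  rw [hone] at hφ'
  have h5 : cz g ^ i₀ = cz g ^ i₀ * (cz g ^ (-i₀) * φ) := by rw [← hφ', mul_one]
  rw [h5]
  group

end TorP
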