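import Pool.Agent.Lib.MP_05cdf2_gt.P.PDef

/-! MP_05cdf2_gt, job P.PZ. First properties of `zn`.

Tools: `one_le`, `one_lt`, `zeta_le`, `succ_le`, `zeta_ne_one` (M/Key, M/Zeta), `nbr_cr_zeta` (K/Nbr),
`cr_swap1`, `cr_swap2`, `U.inv_left`, `U.inv_right`, `U.symm` (K/Chord), `aut_lt` (M/Aut: for
`φ : F g ≃* F g` with `φ (zeta g) = zeta g`; a `MulAut (F g)` is such a `φ`).
All case distinctions are by the order of `x` and `x⁻¹` (`x ≠ x⁻¹`, `F g` has no torsion). -/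

set_option autoImplicit false

namespace TorP
open TorM

variable {g : ℕ}

/-- `F g` has no 2-torsion: `x = x⁻¹` gives `x ^ 2 = 1` -/
theorem ne_inv {x : F g} (h : x ≠ 1) : x ≠ x⁻¹ := by
  intro hx
  have h1 : x ^ 2 = 1 := by
    rw [pow_two]
    nth_rewrite 2 [hx]
    exact mul_inv_cancel x
  exact h ((pow_eq_one_iff_left (two_ne_zero)).1 h1)

theorem lt_or_inv {x : F g} (h : x ≠ 1) : x < x⁻¹ ∨ x⁻¹ < x :=
  lt_or_gt_of_ne (ne_inv h)

theorem pos_g {x : F g} (h : x ≠ 1) : 0 < g := zeta_pos_of_ne h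

/-- `{1, ζ}` crosses nothing (`nbr_cr_zeta`, `cr_swap1`) -/
theorem U_zeta (x : F g) : U (zeta g) x := by
  intro y hc
  exact nbr_cr_zeta (cr_swap1.mp hc)

theorem U_zeta' (x : F g) : U x (zeta g) := (U_zeta x).symm

theorem smp_zeta (hg : 0 < g) : Smp (zeta g) := ⟨zeta_ne_one hg, U_zeta _⟩

theorem Smp.inv {x : F g} (h : Smp x) : Smp x⁻¹ :=
  ⟨inv_ne_one.mpr h.ne, h.un.inv_left.inv_right⟩

/-- `ζ⁻¹` is the largest element: if `ζ⁻¹ < y` then `succ_le` gives `ζ⁻¹ < ζ⁻¹ * ζ = 1` -/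
theorem le_zeta_inv (y : F g) : y ≤ (zeta g)⁻¹ := by
  by_contra h
  rw [not_le] at h
  have h1 := (succ_le h).1
  rw [inv_mul_cancel] at h1
  exact absurd (one_le _) (not_le.2 h1)

theorem zeta_lt_inv (hg : 0 < g) : zeta g < (zeta g)⁻¹ :=
  lt_of_le_of_ne (le_zeta_inv _) (ne_inv (zeta_ne_one hg))

/-- `x` and `x * ζ` are neighbours -/
theorem le_of_lt_zeta {x y : F g} (h : x < y) : x * zeta g ≤ y := (succ_le h).2

/-- `x ζ⁻¹` is the immediate predecessor of `x ≠ 1`: `x ζ⁻¹ < x` (otherwise `x ≤ x ζ⁻¹`, `x ≠ x ζ⁻¹`, and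
`succ_le` gives that `x ζ⁻¹ = ...`: apply `succ_le` to `x < x ζ⁻¹`: `x ζ ≤ x ζ⁻¹`, hence again ... ; the quick way:
let `u = x ζ⁻¹`. Either there is `y` with `u < y`, and then `succ_le` gives `u < u ζ = x`; or `u` is the largest
element, so `u = ζ⁻¹` by `le_zeta_inv` and `x = 1`) -/
theorem pred_lt {x : F g} (hx : x ≠ 1) : x * (zeta g)⁻¹ < x := by
  by_contra hcon
  have hu : x * (zeta g)⁻¹ = (zeta g)⁻¹ := by
    refine le_antisymm (le_zeta_inv _) (not_lt.1 fun h => hcon ?_)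
    have h1 := (succ_le h).1
    rwa [inv_mul_cancel_right] at h1
  exact hx (mul_eq_right.1 hu)

/-- nothing between `x ζ⁻¹` and `x` -/
theorem le_pred {x y : F g} (h : y < x) : y ≤ x * (zeta g)⁻¹ := by
  by_contra hcon
  rw [not_le] at hcon
  have h1 := (succ_le hcon).2
  rw [inv_mul_cancel_right] at h1
  exact absurd h (not_lt.2 h1)

theorem zn_inv {x : F g} (hx : x ≠ 1) (w : F g) : zn x⁻¹ w = (zn x w)⁻¹ := by
  unfold zn
  rw [_root_.inv_inv]
  rcases lt_or_inv hx with h | h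
  · rw [if_neg (not_lt.2 h.le), if_pos h]
    split_ifs
    · rw [mul_inv_rev, _root_.inv_inv]
    · rw [mul_inv_rev, _root_.inv_inv]
    · rfl
  · rw [if_pos h, if_neg (not_lt.2 h.le)]
    split_ifs
    · rw [mul_inv_rev]
    · rw [mul_inv_rev]
    · rfl

theorem zn_map (φ : Gam g) (x w : F g) :
    zn ((φ : MulAut (F g)) x) ((φ : MulAut (F g)) w) = (φ : MulAut (F g)) (zn x w) := by
  have hφ : ((φ : MulAut (F g)) : F g ≃* F g) (zeta g) = zeta g := φ.2
  have hlt : ∀ a b : F g, (φ : MulAut (F g)) a < (φ : MulAut (F g)) b ↔ a < b := fun a b =>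
    aut_lt (φ : MulAut (F g)) hφ
  unfold zn
  rw [← map_inv]
  simp only [hlt]
  split_ifs
  · rw [map_mul, map_inv, hφ]
  · rw [map_mul, map_inv, hφ]
  · rfl
  · rw [map_mul, hφ]
  · rw [map_mul, hφ]
  · rfl

theorem fm_map (φ : Gam g) (x w : F g) :
    fm ((φ : MulAut (F g)) x) ((φ : MulAut (F g)) w) = (φ : MulAut (F g)) (fm x w) := by
  unfold fm
  rw [map_mul, map_mul, map_inv, ← zn_map, ← zn_map, map_inv]

theorem fm_inv (x w : F g) : fm x w⁻¹ = (fm x w)⁻¹ := by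
  unfold fm
  rw [_root_.inv_inv, mul_inv_rev, mul_inv_rev, _root_.inv_inv, mul_assoc]

theorem Good.inv {x : F g} {P : F g →* F g} {w : F g} (h : Good x P w) : Good x P w⁻¹ := by
  unfold Good at h ⊢
  rw [map_inv, h, fm_inv]

/-- all conditions are decided: `zn x x = zn x x⁻¹ = x` -/
theorem zn_self (x : F g) : zn x x = x ∧ zn x x⁻¹ = x := by
  unfold zn
  by_cases h : x < x⁻¹
  · rw [if_pos h, if_neg (lt_irrefl x), if_neg (not_lt.2 h.le), if_pos h, if_neg (not_lt.2 h.le),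
      if_neg (lt_irrefl _)]
    exact ⟨rfl, rfl⟩
  · rw [if_neg h, if_neg h, if_neg (lt_irrefl x), if_neg h, if_neg (lt_irrefl _), if_neg h]
    exact ⟨rfl, rfl⟩

theorem fm_self (x : F g) : fm x x = x := by
  unfold fm
  rw [(zn_self x).1, (zn_self x).2, mul_inv_cancel_right]

/-- if `x < x⁻¹` and `x ≠ ζ` then `ζ < x` and `x⁻¹ < ζ⁻¹`, so `zn x ζ = x ζ⁻¹` and `zn x ζ⁻¹ = ζ⁻¹ x`;
if `x⁻¹ < x` and `x ≠ ζ⁻¹` then `zn x ζ = ζ x` and `zn x ζ⁻¹ = x ζ`; the cases `x = ζ^{±1}` are `fm_self` or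
similar -/
theorem fm_zeta {x : F g} (hx : x ≠ 1) : fm x (zeta g) = zeta g := by
  rcases lt_or_inv hx with h | h
  · by_cases hz : x = zeta g
    · rw [hz]
      exact fm_self _
    · have h1 : zeta g < x := lt_of_le_of_ne (zeta_le hx) (Ne.symm hz)
      have h2 : x⁻¹ < (zeta g)⁻¹ := lt_of_le_of_ne (le_zeta_inv _) fun h3 => hz (inv_inj.1 h3)
      have h3 : ¬ (zeta g)⁻¹ < x := not_lt.2 (le_zeta_inv x)
      unfold fm zn
      rw [if_pos h, if_pos h1, if_pos h, if_neg h3, if_pos h2]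
      group
  · by_cases hz : x = (zeta g)⁻¹
    · have h1 : zeta g = x⁻¹ := by rw [hz, _root_.inv_inv]
      unfold fm
      rw [h1, _root_.inv_inv, (zn_self x).1, (zn_self x).2]
      group
    · have h1 : zeta g < x⁻¹ := by
        refine lt_of_le_of_ne (zeta_le (inv_ne_one.2 hx)) fun h3 => hz ?_
        rw [h3, _root_.inv_inv]
      have h2 : x < (zeta g)⁻¹ := lt_of_le_of_ne (le_zeta_inv _) hz
      have h3 : ¬ (zeta g)⁻¹ < x⁻¹ := not_lt.2 (le_zeta_inv _)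
      unfold fm zn
      rw [if_neg (not_lt.2 h.le), if_pos h1, if_neg (not_lt.2 h.le), if_neg h3, if_pos h2]
      group

theorem zn_zeta {w : F g} (hw : w ≠ 1) : zn (zeta g) w = zeta g := by
  unfold zn
  rw [if_pos (zeta_lt_inv (pos_g hw)), if_neg (not_lt.2 (zeta_le hw)),
    if_neg (not_lt.2 (le_zeta_inv w))]

/-- `zn x w` is `x` modulo `Rz` -/
theorem zn_mod (x w : F g) : zn x w * x⁻¹ ∈ Rz g := by
  have hz : zeta g ∈ Rz g := Subgroup.subset_normalClosure (Set.mem_singleton _)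
  have hc : ∀ y ∈ Rz g, x * y * x⁻¹ ∈ Rz g := fun y hy =>
    Subgroup.Normal.conj_mem inferInstance y hy x
  unfold zn
  split_ifs
  · exact hc _ (inv_mem hz)
  · rw [mul_inv_cancel_right]
    exact inv_mem hz
  · rw [mul_inv_cancel]
    exact one_mem _
  · rw [mul_inv_cancel_right]
    exact hz
  · exact hc _ hz
  · rw [mul_inv_cancel]
    exact one_mem _

/-- the multiplier takes its values in the subgroup generated by `x` and `ζ` -/
theorem zn_fix (x w : F g) {P : F g →* F g} (h1 : P x = x) (h2 : P (zeta g) = zeta g) :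
    P (zn x w) = zn x w := by
  unfold zn
  split_ifs
  · rw [map_mul, map_inv, h1, h2]
  · rw [map_mul, map_inv, h1, h2]
  · exact h1
  · rw [map_mul, h1, h2]
  · rw [map_mul, h1, h2]
  · exact h1

end TorP
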